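import Pool.Agent.Helper41.KV.GoalsC

/-!
# Project KV (`MP_66be51_an`), packet FHAM: the right field satisfies the hypotheses of `S_CALL`
-/

namespace Pool.Agent.Helper42.KV

open Pool.Agent.Helper41.KV

open Real MeasureTheory Filter Topology

theorem isH_const (c : ℝ) : IsH (fun _ => c) := by
  refine ⟨contDiff_const, fun k => ⟨|c|, fun z => ?_⟩⟩
  rw [iteratedDeriv_const]
  split_ifs
  · exact le_rfl
  · simp

theorem mem_h {h : ℝ → ℝ} (hh : IsH h) : (fun r _ y => h (r * y) : F3) ∈ MP 0 := by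
  apply Submodule.subset_span
  refine ⟨0, 0, 0, h, le_rfl, hh, ?_⟩
  funext r l y
  simp [mono]

theorem mem_r_h {h : ℝ → ℝ} (k : ℕ) (hh : IsH h) : (fun r _ y => r ^ k * h (r * y) : F3) ∈ MP k := by
  apply Submodule.subset_span
  refine ⟨k, 0, 0, h, le_rfl, hh, ?_⟩
  funext r l y
  simp [mono]

theorem mem_r_pow (k : ℕ) : (fun r _ _ => r ^ k : F3) ∈ MP k := by
  have := mem_r_h k (isH_const 1)
  simpa using this

theorem mem_l : (fun _ l _ => l : F3) ∈ MP 0 := by
  apply Submodule.subset_span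
  refine ⟨0, 1, 0, fun _ => 1, le_rfl, isH_const 1, ?_⟩
  funext r l y
  simp [mono]

theorem mem_const (c : ℝ) : (fun _ _ _ => c : F3) ∈ MP 0 :=
  mem_h (isH_const c)

/-- multiplicativity -/
def Mul : Prop := ∀ (m m' : ℕ) (Φ Ψ : F3), Φ ∈ MP m → Ψ ∈ MP m' →
  (fun r l y => Φ r l y * Ψ r l y) ∈ MP (m + m')

theorem MP_mono {m m' : ℕ} (h : m ≤ m') {Φ : F3} (hΦ : Φ ∈ MP m') : Φ ∈ MP m := by
  apply Submodule.span_mono _ hΦ
  rintro Φ ⟨k, n, a, h', hk, hh⟩
  exact ⟨k, n, a, h', h.trans hk, hh⟩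

theorem mul0 (hmul : Mul) {Φ Ψ : F3} (h1 : Φ ∈ MP 0) (h2 : Ψ ∈ MP 0) :
    (fun r l y => Φ r l y * Ψ r l y) ∈ MP 0 := by
  have := hmul 0 0 Φ Ψ h1 h2
  rwa [Nat.add_zero] at this

theorem eval_aeval (a b : ℝ) (q : Polynomial ℝ) :
    MvPolynomial.eval ![a, b] (Polynomial.aeval (MvPolynomial.X 1) q) = Polynomial.eval b q := by
  rw [Polynomial.aeval_def, Polynomial.hom_eval₂]
  have h : (MvPolynomial.eval ![a, b]).comp (algebraMap ℝ XL) = RingHom.id ℝ := by
    ext x
    simp [MvPolynomial.algebraMap_eq]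
  rw [h]
  simp [Polynomial.eval₂_id]

/-- powers -/
theorem mem_pow (hmul : Mul) {m : ℕ} {Φ : F3} (h : Φ ∈ MP m) (i : ℕ) :
    (fun r l y => Φ r l y ^ i : F3) ∈ MP (m * i) := by
  induction i with
  | zero => simpa using mem_const 1
  | succ i ih =>
    have := hmul _ _ _ _ ih h
    rw [mul_add, mul_one]
    simpa only [pow_succ] using this

/-- Evaluation of polynomials. -/
theorem mem_eval (hmul : Mul) {Φ1 Φ2 : F3} (h1 : Φ1 ∈ MP 0) (h2 : Φ2 ∈ MP 0) (g : XL) :
    (fun r l y => MvPolynomial.eval ![Φ1 r l y, Φ2 r l y] g : F3) ∈ MP 0 := by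
  induction g using MvPolynomial.induction_on with
  | C a => simpa using mem_const a
  | add p q hp hq =>
    have := (MP 0).add_mem hp hq
    convert this using 1
    funext r l y
    simp
  | mul_X p i hp =>
    have hX : (fun r l y => MvPolynomial.eval ![Φ1 r l y, Φ2 r l y] (MvPolynomial.X i : XL) : F3)
        ∈ MP 0 := by
      fin_cases i
      · simpa using h1
      · simpa using h2
    have := hmul _ _ _ _ hp hX
    convert this using 1
    funext r l y
    simp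

/-- Second order Taylor expansion in `MP`. -/
theorem taylor_MP (hM2 : S_MCL2) {Φ : F3} (hΦ : Φ ∈ MP 0) (A B : ℝ → ℝ → ℝ)
    (hA : ∀ l y, Φ 0 l y = A l y) (hB : ∀ l y, HasDerivAt (fun r => Φ r l y) (B l y) 0) :
    (fun r l y => Φ r l y - A l y - r * B l y : F3) ∈ MP 2 := by
  obtain ⟨-, hH, -, hbd⟩ := hM2
  obtain ⟨e1, -, h1⟩ := hH 0 Φ hΦ
  have hlim : ∀ {m : ℕ} {Ψ : F3}, Ψ ∈ MP (m + 1) → ∀ l y,
      Tendsto (fun r => (r ^ m)⁻¹ * Ψ r l y) (𝓝[>] 0) (𝓝 0) := by
    intro m Ψ hΨ l y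
    obtain ⟨C, n, hC⟩ := hbd _ _ hΨ
    have hK : Tendsto (fun r : ℝ => r * (C * (1 + |l|) ^ n * (1 + |y|) ^ n)) (𝓝[>] 0) (𝓝 0) := by
      have : Tendsto (fun r : ℝ => r * (C * (1 + |l|) ^ n * (1 + |y|) ^ n)) (𝓝 0)
          (𝓝 (0 * (C * (1 + |l|) ^ n * (1 + |y|) ^ n))) :=
        tendsto_id.mul_const _
      rw [zero_mul] at this
      exact this.mono_left nhdsWithin_le_nhds
    refine squeeze_zero_norm' ?_ hK
    have hev : ∀ᶠ r : ℝ in 𝓝[>] 0, 0 < r ∧ r ≤ 1 := by
      filter_upwards [Ioc_mem_nhdsGT (zero_lt_one : (0:ℝ) < 1)] with r hr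
      exact hr
    filter_upwards [hev] with r hr
    have hb := hC r l y hr.1 hr.2
    have hrm : 0 < r ^ m := pow_pos hr.1 m
    rw [norm_mul, norm_inv, Real.norm_eq_abs, Real.norm_eq_abs, abs_of_pos hrm,
      inv_mul_le_iff₀ hrm]
    calc |Ψ r l y| ≤ C * r ^ (m + 1) * (1 + |l|) ^ n * (1 + |y|) ^ n := hb
      _ = r ^ m * (r * (C * (1 + |l|) ^ n * (1 + |y|) ^ n)) := by ring
  -- first coefficient
  have he1 : ∀ l y, e1 l y = A l y := by
    intro l y
    have h2 := hlim h1 l y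
    have h3 : Tendsto (fun r => Φ r l y) (𝓝[>] 0) (𝓝 (A l y)) := by
      rw [← hA l y]
      exact (hB l y).continuousAt.tendsto.mono_left nhdsWithin_le_nhds
    have h4 := h3.sub h2
    have h5 : (fun r => Φ r l y - (r ^ 0)⁻¹ * (Φ - lif 0 e1) r l y) = fun _ => e1 l y := by
      funext r
      simp [lif]
    rw [h5, sub_zero] at h4
    exact tendsto_nhds_unique tendsto_const_nhds h4
  obtain ⟨e2, -, h6⟩ := hH 1 _ h1
  have he2 : ∀ l y, e2 l y = B l y := by
    intro l y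
    have h2 := hlim h6 l y
    have h3 : Tendsto (fun r => r⁻¹ * (Φ r l y - A l y)) (𝓝[>] 0) (𝓝 (B l y)) := by
      have h7 := (hB l y).tendsto_slope_zero_right
      simp only [zero_add, smul_eq_mul, hA] at h7
      exact h7
    have h4 := h3.sub h2
    have h5 : (fun r => r⁻¹ * (Φ r l y - A l y) -
        (r ^ 1)⁻¹ * (Φ - lif 0 e1 - lif 1 e2) r l y) =ᶠ[𝓝[>] 0] fun _ => e2 l y := by
      filter_upwards [self_mem_nhdsWithin] with r hr
      have hr0 : r ≠ 0 := ne_of_gt hr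
      simp only [Pi.sub_apply, lif, he1]
      field_simp
      ring
    have h6 := h4.congr' h5
    rw [sub_zero] at h6
    exact tendsto_nhds_unique tendsto_const_nhds h6
  convert h6 using 1
  funext r l y
  simp [lif, he1, he2]

/-- One term of the right field. -/
noncomputable def TT (α : ℝ) (h0 h1 h2 h3 : ℝ → ℝ) (i : ℕ) (g : XL) : F3 := fun r l y =>
  (r ^ 1 * h0 (r * y)) * (MvPolynomial.eval ![r * h2 (r * y), l + h3 (r * y)] g *
    (r ^ 2 * h1 (r * y) * (4 * α + 3)⁻¹) ^ i)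

theorem TT_sub (α : ℝ) (h0 h1 h2 h3 : ℝ → ℝ) (i : ℕ) (g g' : XL) :
    TT α h0 h1 h2 h3 i (g - g') = TT α h0 h1 h2 h3 i g - TT α h0 h1 h2 h3 i g' := by
  funext r l y
  simp only [TT, map_sub, Pi.sub_apply]
  ring

theorem Fh_eq {α : ℝ} {h0 h1 h2 h3 : ℝ → ℝ} (hP : S_PHI) (n : ℕ) (g0 : XL) :
    Fh α h0 h1 h2 h3 n g0 =
      ∑ i ∈ Finset.range (n + 1), TT α h0 h1 h2 h3 i ((Phi α g0 n).coeff i) := by
  funext r l y
  simp only [Finset.sum_apply, Fh, TT]
  have hdeg : ((Phi α g0 n).map (MvPolynomial.eval ![r * h2 (r * y), l + h3 (r * y)])).natDegree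
      < n + 1 := by
    have h1 := hP.1 α g0 n
    have h2 := Polynomial.natDegree_map_le
      (f := MvPolynomial.eval ![r * h2 (r * y), l + h3 (r * y)]) (p := Phi α g0 n)
    omega
  rw [Polynomial.eval_eq_sum_range' hdeg, Finset.mul_sum]
  refine Finset.sum_congr rfl fun i _ => ?_
  rw [Polynomial.coeff_map, div_eq_mul_inv]
  ring

theorem mem_base {α : ℝ} {h0 h1 h2 h3 : ℝ → ℝ} (hmul : Mul) (H : IsAux α h0 h1 h2 h3) (i : ℕ) :
    (fun r _ y => (r ^ 2 * h1 (r * y) * (4 * α + 3)⁻¹) ^ i : F3) ∈ MP (2 * i) := by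
  have h := hmul _ _ _ _ (mem_r_h 2 H.H1) (mem_const (4 * α + 3)⁻¹)
  exact mem_pow hmul h i

/-- General term. -/
theorem TT_mem {α : ℝ} {h0 h1 h2 h3 : ℝ → ℝ} (hmul : Mul) (H : IsAux α h0 h1 h2 h3) (i j : ℕ)
    (G : XL) : TT α h0 h1 h2 h3 i (MvPolynomial.X 0 ^ j * G) ∈ MP (1 + (j + 2 * i)) := by
  have hr1 : (fun r _ y => r ^ 1 * h2 (r * y) : F3) ∈ MP 1 := mem_r_h 1 H.H2
  have hr0 : (fun r _ y => r * h2 (r * y) : F3) ∈ MP 0 := by
    simpa using MP_mono (Nat.zero_le 1) (mem_r_h 1 H.H2)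
  have hl : (fun r l y => l + h3 (r * y) : F3) ∈ MP 0 := (MP 0).add_mem mem_l (mem_h H.H3)
  have hG := mem_eval hmul hr0 hl G
  have hj := mem_pow hmul hr1 j
  have h4 := hmul _ _ _ _ (mem_r_h 1 H.H0) (hmul _ _ _ _ (hmul _ _ _ _ hj hG) (mem_base hmul H i))
  have h5 : 1 + (1 * j + 0 + 2 * i) = 1 + (j + 2 * i) := by ring
  rw [h5] at h4
  convert h4 using 1
  funext r l y
  simp [TT]

/-- derivatives at the origin -/
theorem aux_deriv {α : ℝ} {h0 h1 h2 h3 : ℝ → ℝ} (H : IsAux α h0 h1 h2 h3) :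
    h0 0 = 1 ∧ h2 0 = 1 ∧ h3 0 = 0 ∧ HasDerivAt h0 (α - 1/2) 0 ∧ HasDerivAt h2 (2 * α) 0 ∧
      HasDerivAt h3 1 0 := by
  have hz : |(0:ℝ)| ≤ 1/2 := by norm_num
  have hev : ∀ᶠ z : ℝ in 𝓝 0, |z| ≤ 1/2 := by
    have : Metric.ball (0:ℝ) (1/2) ∈ 𝓝 (0:ℝ) := Metric.ball_mem_nhds _ (by norm_num)
    filter_upwards [this] with z hz
    rw [mem_ball_zero_iff, Real.norm_eq_abs] at hz
    exact hz.le
  have hid : HasDerivAt (fun z : ℝ => 1 + z) 1 0 := by
    simpa using (hasDerivAt_id (0:ℝ)).const_add 1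
  have hpow : ∀ p : ℝ, HasDerivAt (fun z : ℝ => (1 + z) ^ p) p 0 := by
    intro p
    have := hid.rpow_const (p := p) (Or.inl (by norm_num))
    simpa using this
  refine ⟨?_, ?_, ?_, ?_, ?_, ?_⟩
  · rw [H.e0 0 hz]; simp
  · rw [H.e2 0 hz]; simp
  · rw [H.e3 0 hz]; simp
  · refine (hpow _).congr_of_eventuallyEq ?_
    filter_upwards [hev] with z hz using H.e0 z hz
  · refine (hpow _).congr_of_eventuallyEq ?_
    filter_upwards [hev] with z hz using H.e2 z hz
  · have h5 : HasDerivAt (fun z : ℝ => Real.log (1 + z)) 1 0 := by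
      have := hid.log (by norm_num)
      simpa using this
    refine h5.congr_of_eventuallyEq ?_
    filter_upwards [hev] with z hz using H.e3 z hz

/-- The leading part. -/
theorem lead_mem {α : ℝ} {h0 h1 h2 h3 : ℝ → ℝ} (hmul : Mul) (hM2 : S_MCL2)
    (H : IsAux α h0 h1 h2 h3) (j : ℕ) (q : Polynomial ℝ) :
    TT α h0 h1 h2 h3 0 (MvPolynomial.X 0 ^ j * Polynomial.aeval (MvPolynomial.X 1) q)
      - lif (j + 1) (fun l _ => q.eval l)
      - lif (j + 2) (fun l y => y * (q.derivative.eval l + (α - 1/2 + 2 * α * j) * q.eval l))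
        ∈ MP (j + 3) := by
  obtain ⟨z0, z2, z3, d0, d2, d3⟩ := aux_deriv H
  have hl : (fun r l y => l + h3 (r * y) : F3) ∈ MP 0 := (MP 0).add_mem mem_l (mem_h H.H3)
  have hq : (fun r l y => q.eval (l + h3 (r * y)) : F3) ∈ MP 0 := by
    have := mem_eval hmul (mem_const 0) hl (Polynomial.aeval (MvPolynomial.X 1) q)
    convert this using 1
    funext r l y
    exact (eval_aeval 0 (l + h3 (r * y)) q).symm
  have hΦ : (fun r l y => h0 (r * y) * (h2 (r * y) ^ j * q.eval (l + h3 (r * y))) : F3) ∈ MP 0 := by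
    have h2' : (fun r _ y => h2 (r * y) ^ j : F3) ∈ MP 0 :=
      MP_mono (Nat.zero_le _) (mem_pow hmul (mem_h H.H2) j)
    exact mul0 hmul (mem_h H.H0) (mul0 hmul h2' hq)
  have htay := taylor_MP hM2 hΦ (fun l _ => q.eval l)
    (fun l y => y * (q.derivative.eval l + (α - 1/2 + 2 * α * j) * q.eval l))
    (by intro l y; simp [z0, z2, z3])
    (by
      intro l y
      have hin : HasDerivAt (fun r : ℝ => r * y) y 0 := by
        simpa using (hasDerivAt_id (0:ℝ)).mul_const y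
      have e0 : HasDerivAt (fun r : ℝ => h0 (r * y)) ((α - 1/2) * y) 0 :=
        HasDerivAt.comp (h₂ := h0) (h := fun r : ℝ => r * y) 0 (by simpa using d0) hin
      have e2 : HasDerivAt (fun r : ℝ => h2 (r * y)) ((2 * α) * y) 0 :=
        HasDerivAt.comp (h₂ := h2) (h := fun r : ℝ => r * y) 0 (by simpa using d2) hin
      have e3 : HasDerivAt (fun r : ℝ => h3 (r * y)) (1 * y) 0 :=
        HasDerivAt.comp (h₂ := h3) (h := fun r : ℝ => r * y) 0 (by simpa using d3) hin
      have e3' : HasDerivAt (fun r : ℝ => l + h3 (r * y)) (1 * y) 0 := e3.const_add l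
      have eq : HasDerivAt (fun r : ℝ => q.eval (l + h3 (r * y)))
          (q.derivative.eval (l + h3 (0 * y)) * (1 * y)) 0 :=
        HasDerivAt.comp (h₂ := fun z => q.eval z) (h := fun r : ℝ => l + h3 (r * y)) 0
          (q.hasDerivAt (l + h3 (0 * y))) e3'
      have e := e0.mul ((e2.pow j).mul eq)
      simp only [Pi.mul_apply, Pi.pow_apply, zero_mul, z0, z2, z3, one_pow, mul_one, one_mul,
        add_zero] at e
      have he : y * (q.derivative.eval l + (α - 1/2 + 2 * α * j) * q.eval l) =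
          (α - 1 / 2) * y * Polynomial.eval l q +
          ((j : ℝ) * (2 * α * y) * Polynomial.eval l q +
            Polynomial.eval l (Polynomial.derivative q) * y) := by ring
      rw [he]
      exact e)
  have h6 := hmul _ _ _ _ (mem_r_pow (j + 1)) htay
  have h7 : j + 1 + 2 = j + 3 := by ring
  rw [h7] at h6
  convert h6 using 1
  funext r l y
  have h1 := eval_aeval (r * h2 (r * y)) (l + h3 (r * y)) q
  simp only [Pi.sub_apply, TT, lif, map_mul, map_pow, MvPolynomial.eval_X, h1,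
    Matrix.cons_val_zero, pow_zero, mul_one]
  ring

theorem gZero_update (p : ℕ → Polynomial ℝ) (J j : ℕ) (q : Polynomial ℝ) (hj : j < J)
    (hp : p j = 0) :
    gZero (Function.update p j q) J =
      gZero p J + MvPolynomial.X 0 ^ j * Polynomial.aeval (MvPolynomial.X 1) q := by
  rw [← sub_eq_iff_eq_add']
  unfold gZero
  rw [← Finset.sum_sub_distrib, Finset.sum_eq_single j]
  · simp [hp]
  · intro i _ hi
    rw [Function.update_of_ne hi]
    ring
  · intro h
    exact absurd (Finset.mem_range.mpr hj) h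

/-- **FHAM.** -/
theorem thm_FHAM (_hQ : S_QF) (_hE : S_ECL1) (hM : S_MCL1) (hM2 : S_MCL2) (hP : S_PHI) :
    S_FHAM := by
  have hmul : Mul := hM.2.2.2.2.1
  intro α h0 h1 h2 h3 n J _ _ H hJ
  obtain ⟨-, -, -, hP4, hP5, hP6, hP7⟩ := id hP
  refine ⟨?_, ?_, ?_, ?_⟩
  · intro p
    rw [Fh_eq hP]
    refine Submodule.sum_mem _ fun i _ => ?_
    have := TT_mem hmul H i 0 ((Phi α (gZero p J) n).coeff i)
    rw [pow_zero, one_mul] at this
    exact MP_mono (by omega) this
  · intro p hpc r l y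
    have hg : MvPolynomial.pderiv 1 (gZero p J) = 0 := by
      unfold gZero
      rw [map_sum]
      refine Finset.sum_eq_zero fun j _ => ?_
      obtain ⟨c, hc⟩ := hpc j
      rw [hc, Derivation.leibniz, Derivation.leibniz_pow]
      simp [MvPolynomial.algebraMap_eq, MvPolynomial.pderiv_X]
    unfold Fh
    have hmap : (Phi α (gZero p J) n).map
        (MvPolynomial.eval ![r * h2 (r * y), l + h3 (r * y)]) =
        (Phi α (gZero p J) n).map
        (MvPolynomial.eval ![r * h2 (r * y), 0 + h3 (r * y)]) := by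
      ext i
      rw [Polynomial.coeff_map, Polynomial.coeff_map]
      exact hP7 _ _ _ _ (hP6 α (gZero p J) n i hg)
    rw [hmap]
  · intro p hp0 hpj
    have hg : gZero p J = MvPolynomial.C (kOne α) := by
      unfold gZero
      rw [Finset.sum_eq_single 0]
      · rw [hp0]
        simp [MvPolynomial.algebraMap_eq]
      · intro i _ hi
        rw [hpj i (Nat.one_le_iff_ne_zero.mpr hi)]
        simp
      · intro h
        exact absurd (Finset.mem_range.mpr (by omega)) h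
    rw [Fh_eq hP, Finset.sum_range_succ', hP5]
    have hs : ∑ i ∈ Finset.range n, TT α h0 h1 h2 h3 (i + 1)
        ((Phi α (gZero p J) n).coeff (i + 1)) ∈ MP 3 := by
      refine Submodule.sum_mem _ fun i _ => ?_
      have := TT_mem hmul H (i + 1) 0 ((Phi α (gZero p J) n).coeff (i + 1))
      rw [pow_zero, one_mul] at this
      exact MP_mono (by omega) this
    have hl := lead_mem hmul hM2 H 0 (Polynomial.C (kOne α))
    have h8 := (MP 3).add_mem hs hl
    convert h8 using 1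
    rw [hg]
    funext r l y
    simp [lif, MvPolynomial.algebraMap_eq]
    ring
  · intro p j q hj1 hjJ hpj
    rw [gZero_update p J j q hjJ hpj, Fh_eq hP, Fh_eq hP]
    have hd : ∑ i ∈ Finset.range (n + 1), TT α h0 h1 h2 h3 i
          ((Phi α (gZero p J + MvPolynomial.X 0 ^ j * Polynomial.aeval (MvPolynomial.X 1) q)
            n).coeff i)
        - ∑ i ∈ Finset.range (n + 1), TT α h0 h1 h2 h3 i ((Phi α (gZero p J) n).coeff i)
        = ∑ i ∈ Finset.range n, TT α h0 h1 h2 h3 (i + 1)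
          ((Phi α (gZero p J + MvPolynomial.X 0 ^ j * Polynomial.aeval (MvPolynomial.X 1) q)
            n).coeff (i + 1) - (Phi α (gZero p J) n).coeff (i + 1))
          + TT α h0 h1 h2 h3 0 (MvPolynomial.X 0 ^ j * Polynomial.aeval (MvPolynomial.X 1) q) := by
      rw [← Finset.sum_sub_distrib, Finset.sum_range_succ']
      congr 1
      · exact Finset.sum_congr rfl fun i _ => (TT_sub ..).symm
      · rw [← TT_sub, hP5, hP5, add_sub_cancel_left]
    rw [hd]
    have hs : ∑ i ∈ Finset.range n, TT α h0 h1 h2 h3 (i + 1)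
          ((Phi α (gZero p J + MvPolynomial.X 0 ^ j * Polynomial.aeval (MvPolynomial.X 1) q)
            n).coeff (i + 1) - (Phi α (gZero p J) n).coeff (i + 1)) ∈ MP (j + 3) := by
      refine Submodule.sum_mem _ fun i _ => ?_
      obtain ⟨G, hG⟩ := Ideal.mem_span_singleton.mp
        (hP4 α (gZero p J) j (Polynomial.aeval (MvPolynomial.X 1) q) n (i + 1))
      rw [hG]
      exact MP_mono (by omega) (TT_mem hmul H (i + 1) j G)
    have h8 := (MP (j + 3)).add_mem hs (lead_mem hmul hM2 H j q)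
    convert h8 using 1
    abel

end Pool.Agent.Helper42.KV
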