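import Pool.Agent.Helper42.KV.RESPc

/-!
# Project KV (`MP_66be51_an`), packet RESP, part 4: the pointwise bounds of the residual
-/

namespace Pool.Agent.Helper42.KV.R

open Pool.Agent.Helper41.KV Pool.Agent.Helper33.KV

open Real MeasureTheory Filter Topology Set

theorem exp_neg_le (m : ℕ) {x : ℝ} (hx : 0 < x) :
    Real.exp (-x) ≤ (m.factorial : ℝ) / x ^ m := by
  have h := Real.pow_div_factorial_le_exp x hx.le m
  rw [Real.exp_neg, inv_le_comm₀ (Real.exp_pos x) (by positivity), inv_div]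
  exact h

theorem mul_exp_le {c x : ℝ} (hc : 0 < c) : x * Real.exp (-(x / c)) ≤ c := by
  have h : x / c ≤ Real.exp (x / c) := by
    have := Real.add_one_le_exp (x / c)
    linarith
  have h2 : x / c * Real.exp (-(x / c)) ≤ 1 := by
    calc x / c * Real.exp (-(x / c)) ≤ Real.exp (x / c) * Real.exp (-(x / c)) := by gcongr
      _ = 1 := by rw [← Real.exp_add]; simp
  calc x * Real.exp (-(x / c)) = c * (x / c * Real.exp (-(x / c))) := by field_simp
    _ ≤ c * 1 := by gcongr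
    _ = c := mul_one c

theorem Q_bound (hQ : S_QF) : ∃ C : ℝ, 0 ≤ C ∧ ∀ k ≤ 4, ∀ y, |iteratedDeriv k Q y| ≤
    C * Real.exp (-|y|) := by
  obtain ⟨-, -, -, -, -, -, hb, -⟩ := hQ
  choose C hC using hb
  refine ⟨∑ k ∈ Finset.range 5, |C k|, Finset.sum_nonneg fun _ _ => abs_nonneg _,
    fun k hk y => (hC k y).trans ?_⟩
  have h1 : C k ≤ ∑ k ∈ Finset.range 5, |C k| :=
    (le_abs_self _).trans (Finset.single_le_sum (f := fun k => |C k|)
      (fun _ _ => abs_nonneg _) (Finset.mem_range.mpr (by omega)))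
  gcongr

section
variable {α θ T T1 : ℝ} {V Fv : ℝ → ℝ → ℝ}

/-- the values of the derivatives of the residual -/
theorem iter_res (hV : ContDiffOn ℝ (⊤ : ℕ∞) (fun q : ℝ × ℝ => V q.1 q.2) (Ioo 0 T1 ×ˢ univ))
    {t : ℝ} (ht : t ∈ Ioo 0 T1) (y : ℝ) :
    iteratedDeriv 0 (resE α V t) y = R0 (2 * α + 1) (rho α t)
      (lam α t ^ 3 * deriv (fun τ => V τ y) t) (V t y)
      (iteratedDeriv 1 (V t) y) (iteratedDeriv 3 (V t) y) y ∧
    iteratedDeriv 1 (resE α V t) y = R1 (2 * α + 1) (rho α t)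
      (lam α t ^ 3 * deriv (fun y' => deriv (fun τ => V τ y') t) y) (V t y)
      (iteratedDeriv 1 (V t) y) (iteratedDeriv 2 (V t) y) (iteratedDeriv 4 (V t) y) y := by
  have hUo : IsOpen (Ioo 0 T1 ×ˢ (univ : Set ℝ)) := isOpen_Ioo.prod isOpen_univ
  have hm : (t, y) ∈ Ioo 0 T1 ×ˢ (univ : Set ℝ) := ⟨ht, mem_univ _⟩
  constructor
  · rw [iteratedDeriv_zero]
    exact res_val (sec_open hUo t) (sec_smooth hV t) hm
  · rw [iteratedDeriv_one]
    exact (res_der (sec_open hUo t) (sec_smooth hV t) (dt_smooth hUo hV t) hm).deriv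

/-- Far left, first bound. -/
theorem caseA (hQ : S_QF) (hC : S_CURV) (hα0 : 0 < α) (hα1 : α < 1) (hθ : 0 < θ) {CU : ℝ}
    (hV : ContDiffOn ℝ (⊤ : ℕ∞) (fun q : ℝ × ℝ => V q.1 q.2) (Ioo 0 T1 ×ˢ univ))
    (hU : UBd α T CU V Fv) : ∃ C : ℝ, 0 ≤ C ∧ ∀ t ∈ Ioc 0 T, t < T1 → sig α t ≤ 1 → ∀ y,
      rho α t ^ θ * y ≤ -1 → ∀ k ≤ 1, |iteratedDeriv k (resE α V t) y| ≤
        C * rho α t ^ ((3 : ℝ) / 2) := by
  obtain ⟨CQ, hCQ0, hCQ⟩ := Q_bound hQ
  obtain ⟨m, hm⟩ := exists_nat_ge (3 / (2 * θ))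
  have hm' : 3 / 2 ≤ θ * m := by
    rw [div_le_iff₀ (by positivity)] at hm
    linarith
  set Cm : ℝ := (m.factorial : ℝ) * 4 ^ m with hCm
  have hCm0 : 0 ≤ Cm := by positivity
  set K := |CU| with hK
  have hK0 : 0 ≤ K := abs_nonneg _
  have hKU : CU ≤ K := le_abs_self _
  set A : ℝ := 1 + K * (Cm + 1) + 2 * CQ * (Cm + 1) with hA
  have hA1 : 1 ≤ A := by
    have : 0 ≤ K * (Cm + 1) := by positivity
    have : 0 ≤ 2 * CQ * (Cm + 1) := by positivity
    linarith
  refine ⟨40 * A ^ 5, by positivity, fun t ht htT1 hs1 y hy k hk => ?_⟩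
  obtain ⟨hc1, -⟩ := hC α hα0 hα1
  obtain ⟨hsig, hlam, hrho, hlsr, -⟩ := hc1 t ht.1
  have hr1 := rho_le_one hα0 hsig hs1
  have hrθ : 0 < rho α t ^ θ := Real.rpow_pos_of_pos hrho _
  have hy0 : y < 0 := by
    by_contra h
    push Not at h
    have : 0 ≤ rho α t ^ θ * y := by positivity
    linarith
  have habs : |y| = -y := abs_of_neg hy0
  have hay : 0 < |y| := abs_pos.mpr hy0.ne
  set ε := rho α t ^ ((3 : ℝ) / 2) with hε
  have hε0 : 0 < ε := Real.rpow_pos_of_pos hrho _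
  have hε1 : ε ≤ 1 := Real.rpow_le_one hrho.le hr1 (by norm_num)
  have hrε : rho α t * rho α t ≤ ε := by
    have : rho α t * rho α t = rho α t ^ (2 : ℝ) := by
      rw [Real.rpow_two]; ring
    rw [this]
    exact Real.rpow_le_rpow_of_exponent_ge hrho hr1 (by norm_num)
  have h74 : rho α t ^ ((7 : ℝ) / 4) ≤ ε :=
    Real.rpow_le_rpow_of_exponent_ge hrho hr1 (by norm_num)
  -- exponential smallness
  have hE : Real.exp (-(|y| / 4)) ≤ Cm * ε := by
    have h1 := exp_neg_le m (x := |y| / 4) (by positivity)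
    have h2 : 1 ≤ rho α t ^ θ * |y| := by rw [habs]; linarith
    have h3 : 1 ≤ rho α t ^ (θ * m) * |y| ^ m := by
      rw [Real.rpow_mul hrho.le, Real.rpow_natCast, ← mul_pow]
      exact one_le_pow₀ h2
    have h4 : rho α t ^ (θ * m) ≤ ε := Real.rpow_le_rpow_of_exponent_ge hrho hr1 hm'
    have h5 : 1 / |y| ^ m ≤ ε := by
      rw [div_le_iff₀ (by positivity)]
      calc (1:ℝ) ≤ rho α t ^ (θ * m) * |y| ^ m := h3
        _ ≤ ε * |y| ^ m := by gcongr
    calc Real.exp (-(|y| / 4)) ≤ (m.factorial : ℝ) / (|y| / 4) ^ m := h1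
      _ = Cm * (1 / |y| ^ m) := by rw [hCm, div_pow]; field_simp
      _ ≤ Cm * ε := by gcongr
  have hE2 : Real.exp (-|y| / 2) ≤ Cm * ε :=
    (Real.exp_le_exp.mpr (by linarith)).trans hE
  have hE1 : Real.exp (-|y|) ≤ Cm * ε :=
    (Real.exp_le_exp.mpr (by linarith)).trans hE
  have hyE : |y| * Real.exp (-|y|) ≤ 2 * (Cm * ε) := by
    have h1 := mul_exp_le (c := 2) (x := |y|) (by norm_num)
    have h2 : Real.exp (-|y|) = Real.exp (-(|y| / 2)) * Real.exp (-|y| / 2) := by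
      rw [← Real.exp_add]; congr 1; ring
    rw [h2, ← mul_assoc]
    exact mul_le_mul h1 hE2 (Real.exp_pos _).le (by norm_num)
  have hQk : ∀ j ≤ 4, |iteratedDeriv j Q y| ≤ CQ * Cm * ε := fun j hj =>
    (hCQ j hj y).trans (by
      calc CQ * Real.exp (-|y|) ≤ CQ * (Cm * ε) := by gcongr
        _ = _ := by ring)
  have hyQk : ∀ j ≤ 4, |y| * |iteratedDeriv j Q y| ≤ 2 * CQ * Cm * ε := fun j hj => by
    calc |y| * |iteratedDeriv j Q y| ≤ |y| * (CQ * Real.exp (-|y|)) := by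
          gcongr
          exact hCQ j hj y
      _ = CQ * (|y| * Real.exp (-|y|)) := by ring
      _ ≤ CQ * (2 * (Cm * ε)) := by gcongr
      _ = _ := by ring
  have hnn1 : 0 ≤ K * ε := by positivity
  have hnn2 : 0 ≤ CQ * ε := by positivity
  have hnn3 : 0 ≤ K * Cm * ε := by positivity
  have hnn4 : 0 ≤ CQ * Cm * ε := by positivity
  have hAε : A * ε = ε + K * Cm * ε + K * ε + 2 * (CQ * Cm * ε) + 2 * (CQ * ε) := by
    rw [hA]; ring
  -- derivatives of V
  have hVk : ∀ j : ℕ, 1 ≤ j → j ≤ 4 → |iteratedDeriv j (V t) y| ≤ A * ε := by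
    intro j hj1 hj4
    have h1 := hU.negk t ht y hy0.le j hj1 (by omega)
    have h2 : |iteratedDeriv j (V t) y| ≤ |iteratedDeriv j (V t) y - iteratedDeriv j Q y| +
        |iteratedDeriv j Q y| := by
      have := abs_add_le (iteratedDeriv j (V t) y - iteratedDeriv j Q y) (iteratedDeriv j Q y)
      rwa [sub_add_cancel] at this
    have h3 : CU * (rho α t * Real.exp (-|y| / 2) + rho α t ^ ((3 : ℝ) / 2)) ≤
        K * (1 * (Cm * ε) + ε) := by
      apply mul_le_mul hKU _ (by positivity) hK0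
      gcongr
    have h4 := hQk j hj4
    rw [hAε]
    linarith
  have hyVk : ∀ j : ℕ, 1 ≤ j → j ≤ 2 → rho α t * |y * iteratedDeriv j (V t) y| ≤ A * ε := by
    intro j hj1 hj2
    have h1 := hU.negy t ht y hy0.le j hj1 hj2
    have h2 : |iteratedDeriv j (V t) y| ≤ |iteratedDeriv j (V t) y - iteratedDeriv j Q y| +
        |iteratedDeriv j Q y| := by
      have := abs_add_le (iteratedDeriv j (V t) y - iteratedDeriv j Q y) (iteratedDeriv j Q y)
      rwa [sub_add_cancel] at this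
    have h4 := hyQk j (by omega)
    rw [abs_mul]
    calc rho α t * (|y| * |iteratedDeriv j (V t) y|)
        ≤ rho α t * (|y| * (|iteratedDeriv j (V t) y - iteratedDeriv j Q y| +
            |iteratedDeriv j Q y|)) := by gcongr
      _ = rho α t * (|y| * |iteratedDeriv j (V t) y - iteratedDeriv j Q y|) +
            rho α t * (|y| * |iteratedDeriv j Q y|) := by ring
      _ ≤ rho α t * (CU * rho α t) + 1 * (2 * CQ * Cm * ε) := by gcongr
      _ ≤ K * ε + 1 * (2 * CQ * Cm * ε) := by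
          have : rho α t * (CU * rho α t) ≤ K * ε := by
            calc rho α t * (CU * rho α t) = CU * (rho α t * rho α t) := by ring
              _ ≤ K * ε := mul_le_mul hKU hrε (by positivity) hK0
          linarith
      _ ≤ A * ε := by rw [hAε]; linarith
  have hV0 : |V t y| ≤ CU * rho α t + CQ * Cm * ε := by
    have h1 := hU.neg0 t ht y hy0.le
    have h2 : |V t y| ≤ |V t y - Q y| + |Q y| := by
      have := abs_add_le (V t y - Q y) (Q y)
      rwa [sub_add_cancel] at this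
    have h3 := hQk 0 (by norm_num)
    rw [iteratedDeriv_zero] at h3
    linarith
  have hCUr : CU * rho α t ≤ K := by
    calc CU * rho α t ≤ K * 1 := mul_le_mul hKU hr1 hrho.le hK0
      _ = K := mul_one K
  have hV0A : |V t y| ≤ A := by
    have h1 : CQ * Cm * ε ≤ CQ * Cm * 1 := by gcongr
    have h2 : A = 1 + K * Cm + K + 2 * (CQ * Cm) + 2 * CQ := by rw [hA]; ring
    have h3 : 0 ≤ K * Cm := by positivity
    have h4 : 0 ≤ CQ * Cm := by positivity
    linarith
  have hV0r : rho α t * |V t y| ≤ A * ε := by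
    calc rho α t * |V t y| ≤ rho α t * (CU * rho α t + CQ * Cm * ε) := by gcongr
      _ = CU * (rho α t * rho α t) + rho α t * (CQ * Cm * ε) := by ring
      _ ≤ K * ε + 1 * (CQ * Cm * ε) := by
          apply add_le_add (mul_le_mul hKU hrε (by positivity) hK0)
          gcongr
      _ ≤ A * ε := by rw [hAε]; linarith
  have ht1 := hU.negt t ht y hy0.le
  have hp0 : |lam α t ^ 3 * deriv (fun τ => V τ y) t| ≤ A * ε := by
    rw [abs_mul, abs_of_pos (pow_pos hlam 3)]
    refine ht1.1.trans ?_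
    calc CU * rho α t ^ ((7 : ℝ) / 4) ≤ K * ε :=
          mul_le_mul hKU h74 (Real.rpow_pos_of_pos hrho _).le hK0
      _ ≤ A * ε := by rw [hAε]; linarith
  have hp1 : |lam α t ^ 3 * deriv (fun y' => deriv (fun τ => V τ y') t) y| ≤ A * ε := by
    rw [abs_mul, abs_of_pos (pow_pos hlam 3)]
    refine ht1.2.trans ?_
    calc CU * rho α t ^ ((7 : ℝ) / 4) ≤ K * ε :=
          mul_le_mul hKU h74 (Real.rpow_pos_of_pos hrho _).le hK0
      _ ≤ A * ε := by rw [hAε]; linarith
  have ha : |2 * α + 1| ≤ 3 := by rw [abs_of_pos (by linarith)]; linarith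
  obtain ⟨hi0, hi1⟩ := iter_res (α := α) hV ⟨ht.1, htT1⟩ y
  interval_cases k
  · rw [hi0]
    exact R0_bound hA1 ha hrho.le hr1 hε0.le hV0A hV0r hp0 (hVk 1 le_rfl (by norm_num))
      (hVk 3 (by norm_num) (by norm_num)) (hyVk 1 le_rfl (by norm_num))
  · rw [hi1]
    exact R1_bound hA1 ha hrho.le hr1 hε0.le hε1 hV0A hp1 (hVk 1 le_rfl (by norm_num))
      (hVk 2 (by norm_num) (by norm_num)) (hVk 4 (by norm_num) (by norm_num))
      (hyVk 2 (by norm_num) (by norm_num))

/-- Far left, second bound. -/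
theorem caseA' (hC : S_CURV) (hα0 : 0 < α) (hα1 : α < 1) {CU : ℝ}
    (hV : ContDiffOn ℝ (⊤ : ℕ∞) (fun q : ℝ × ℝ => V q.1 q.2) (Ioo 0 T1 ×ˢ univ))
    (hU : UBd α T CU V Fv) : ∃ C : ℝ, 0 ≤ C ∧ ∀ t ∈ Ioc 0 T, t < T1 → sig α t ≤ 1 → ∀ y,
      y ≤ -(2 * rho α t ^ (-((1 : ℝ) / 2))) → ∀ k ≤ 1, |iteratedDeriv k (resE α V t) y| ≤
        C * Real.exp (-|y| / 2) := by
  set K := |CU| with hK
  have hK0 : 0 ≤ K := abs_nonneg _
  have hKU : CU ≤ K := le_abs_self _
  set A : ℝ := 1 + 4 * K with hA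
  have hA1 : 1 ≤ A := by linarith
  refine ⟨40 * A ^ 5, by positivity, fun t ht htT1 hs1 y hy k hk => ?_⟩
  obtain ⟨hc1, -⟩ := hC α hα0 hα1
  obtain ⟨hsig, hlam, hrho, hlsr, -⟩ := hc1 t ht.1
  have hr1 := rho_le_one hα0 hsig hs1
  obtain ⟨h1, h2, h3⟩ := hU.tail t ht y hy
  set ε := Real.exp (-|y| / 2) with hε
  have hε0 : 0 < ε := Real.exp_pos _
  have hε1 : ε ≤ 1 := by
    rw [hε, Real.exp_le_one_iff]
    linarith [abs_nonneg y]
  have hE : Real.exp (-(3 / 4 * |y|)) ≤ ε := Real.exp_le_exp.mpr (by linarith [abs_nonneg y])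
  have hyE : |y| * Real.exp (-(3 / 4 * |y|)) ≤ 4 * ε := by
    have h4 := mul_exp_le (c := 4) (x := |y|) (by norm_num)
    have h5 : Real.exp (-(3 / 4 * |y|)) = Real.exp (-(|y| / 4)) * Real.exp (-|y| / 2) := by
      rw [← Real.exp_add]; congr 1; ring
    rw [h5, ← mul_assoc]
    exact mul_le_mul_of_nonneg_right h4 hε0.le
  have hKε : 0 ≤ K * ε := by positivity
  have hCE : CU * Real.exp (-(3 / 4 * |y|)) ≤ A * ε := by
    calc CU * Real.exp (-(3 / 4 * |y|)) ≤ K * ε := mul_le_mul hKU hE (Real.exp_pos _).le hK0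
      _ ≤ A * ε := by rw [hA]; nlinarith
  have hVk : ∀ j : ℕ, j ≤ 4 → |iteratedDeriv j (V t) y| ≤ A * ε := fun j hj =>
    (h1 j (by omega)).trans hCE
  have hyVk : ∀ j : ℕ, j ≤ 2 → rho α t * |y * iteratedDeriv j (V t) y| ≤ A * ε := by
    intro j hj
    rw [abs_mul]
    calc rho α t * (|y| * |iteratedDeriv j (V t) y|)
        ≤ 1 * (|y| * (CU * Real.exp (-(3 / 4 * |y|)))) := by
          gcongr
          exact h1 j (by omega)
      _ = CU * (|y| * Real.exp (-(3 / 4 * |y|))) := by ring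
      _ ≤ K * (4 * ε) := mul_le_mul hKU hyE (by positivity) hK0
      _ ≤ A * ε := by rw [hA]; nlinarith
  have hV0 : |V t y| ≤ A * ε := by
    have := hVk 0 (by norm_num)
    rwa [iteratedDeriv_zero] at this
  have hV0A : |V t y| ≤ A := hV0.trans (by nlinarith)
  have hV0r : rho α t * |V t y| ≤ A * ε := by
    calc rho α t * |V t y| ≤ 1 * |V t y| := by gcongr
      _ ≤ A * ε := by rw [one_mul]; exact hV0
  have hp0 : |lam α t ^ 3 * deriv (fun τ => V τ y) t| ≤ A * ε := by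
    rw [abs_mul, abs_of_pos (pow_pos hlam 3)]
    exact h2.trans hCE
  have hp1 : |lam α t ^ 3 * deriv (fun y' => deriv (fun τ => V τ y') t) y| ≤ A * ε := by
    rw [abs_mul, abs_of_pos (pow_pos hlam 3)]
    exact h3.trans hCE
  have ha : |2 * α + 1| ≤ 3 := by rw [abs_of_pos (by linarith)]; linarith
  obtain ⟨hi0, hi1⟩ := iter_res (α := α) hV ⟨ht.1, htT1⟩ y
  interval_cases k
  · rw [hi0]
    exact R0_bound hA1 ha hrho.le hr1 hε0.le hV0A hV0r hp0 (hVk 1 (by norm_num))
      (hVk 3 (by norm_num)) (hyVk 1 (by norm_num))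
  · rw [hi1]
    exact R1_bound hA1 ha hrho.le hr1 hε0.le hε1 hV0A hp1 (hVk 1 (by norm_num))
      (hVk 2 (by norm_num)) (hVk 4 (by norm_num)) (hyVk 2 (by norm_num))

/-- Far right: difference with the error of the right field. -/
theorem caseC (hQ : S_QF) (hC : S_CURV) (hα0 : 0 < α) (hα1 : α < 1) {CU : ℝ} (J : ℕ) {CF : ℝ}
    {f0 : ℝ → ℝ} {n : ℕ}
    (hV : ContDiffOn ℝ (⊤ : ℕ∞) (fun q : ℝ × ℝ => V q.1 q.2) (Ioo 0 T1 ×ˢ univ))
    (hcf : ∀ i : ℕ, ContDiffOn ℝ (⊤ : ℕ∞) ((Fs f0 n).coeff i) (Ioi 0))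
    (hFb : ∀ t y : ℝ, 0 < t → sig α t ≤ 1 → sig α t / 2 ≤ sig α t + lam α t * y →
      ∀ k ≤ 5, |iteratedDeriv k (Fhat α f0 n t) y| ≤ CF * rho α t ^ ((k : ℝ) + 3/4))
    (hU : UBd α T CU V (Fhat α f0 n)) : ∃ C : ℝ, 0 ≤ C ∧ ∀ t ∈ Ioc 0 T, t < T1 →
      sig α t ≤ 1 → ∀ y, 0 ≤ y → 1/2 ≤ rho α t * y → ∀ k ≤ 1,
        |iteratedDeriv k (resE α V t) y - iteratedDeriv k (resE α (Fhat α f0 n) t) y| ≤
        C * rho α t ^ J * Real.exp (-y / 4) := by
  obtain ⟨CQ, hCQ0, hCQ⟩ := Q_bound hQ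
  set K := |CU| with hK
  have hK0 : 0 ≤ K := abs_nonneg _
  have hKU : CU ≤ K := le_abs_self _
  set D : ℝ := (J.factorial : ℝ) * 16 ^ J with hDdef
  have hD0 : 0 ≤ D := by positivity
  set A : ℝ := 1 + |CF| + 8 * (K + CQ) * D with hA
  have hCF0 : 0 ≤ |CF| := abs_nonneg _
  have hKD : 0 ≤ 8 * (K + CQ) * D := by positivity
  have hA1 : 1 ≤ A := by linarith
  refine ⟨1000 * A ^ 5, by positivity, fun t ht htT1 hs1 y hy hry k hk => ?_⟩
  obtain ⟨hc1, hs, hl, -, -, -⟩ := hC α hα0 hα1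
  obtain ⟨hsig, hlam, hrho, hlsr, -⟩ := hc1 t ht.1
  have hr1 := rho_le_one hα0 hsig hs1
  have hy0 : 0 < y := by
    rcases hy.lt_or_eq with h | h
    · exact h
    · rw [← h, mul_zero] at hry
      linarith
  have habs : |y| = y := abs_of_pos hy0
  set ε := rho α t ^ J * Real.exp (-y / 4) with hε
  have hε0 : 0 < ε := by positivity
  have hε1 : ε ≤ 1 := by
    have h1 : rho α t ^ J ≤ 1 := pow_le_one₀ hrho.le hr1
    have h2 : Real.exp (-y / 4) ≤ 1 := by
      rw [Real.exp_le_one_iff]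
      linarith
    calc ε ≤ 1 * 1 := mul_le_mul h1 h2 (Real.exp_pos _).le zero_le_one
      _ = 1 := one_mul 1
  -- exponential smallness
  have hE8 : Real.exp (-(y / 8)) ≤ D * rho α t ^ J := by
    have h1 := exp_neg_le J (x := y / 8) (by positivity)
    have h2 : 1 / y ≤ 2 * rho α t := by
      rw [div_le_iff₀ hy0]
      linarith
    calc Real.exp (-(y / 8)) ≤ (J.factorial : ℝ) / (y / 8) ^ J := h1
      _ = (J.factorial : ℝ) * 8 ^ J * (1 / y) ^ J := by
          rw [div_pow, div_pow, one_pow]; field_simp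
      _ ≤ (J.factorial : ℝ) * 8 ^ J * (2 * rho α t) ^ J := by gcongr
      _ = D * rho α t ^ J := by
          rw [hDdef, mul_pow]
          have : (16 : ℝ) ^ J = 8 ^ J * 2 ^ J := by rw [← mul_pow]; norm_num
          rw [this]; ring
  have hE38 : Real.exp (-(3 * y / 8)) ≤ D * ε := by
    have h1 : Real.exp (-(3 * y / 8)) = Real.exp (-(y / 8)) * Real.exp (-y / 4) := by
      rw [← Real.exp_add]; congr 1; ring
    rw [h1, hε]
    calc Real.exp (-(y / 8)) * Real.exp (-y / 4) ≤ D * rho α t ^ J * Real.exp (-y / 4) := by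
          gcongr
      _ = _ := by ring
  have hE2 : Real.exp (-y / 2) ≤ D * ε := (Real.exp_le_exp.mpr (by linarith)).trans hE38
  have hyE2 : y * Real.exp (-y / 2) ≤ 8 * (D * ε) := by
    have h1 := mul_exp_le (c := 8) (x := y) (by norm_num)
    have h2 : Real.exp (-y / 2) = Real.exp (-(y / 8)) * Real.exp (-(3 * y / 8)) := by
      rw [← Real.exp_add]; congr 1; ring
    rw [h2, ← mul_assoc]
    exact mul_le_mul h1 hE38 (Real.exp_pos _).le (by norm_num)
  have hx : sig α t / 2 ≤ sig α t + lam α t * y := by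
    have : 0 ≤ lam α t * y := by positivity
    linarith
  have hFb' := hFb t y ht.1 hs1 hx
  set FF := Fhat α f0 n with hFF
  have hUUo := UU_open hs hl
  have hFs := Fhat_smooth hC hα0 hα1 hcf
  have hUU : (t, y) ∈ UU α := ⟨ht.1, by
    simp only
    linarith⟩
  -- bounds of the right field
  have hb : ∀ j : ℕ, j ≤ 2 → |iteratedDeriv j (FF t) y| ≤ A := by
    intro j hj
    refine (hFb' j (by omega)).trans ?_
    have h1 : rho α t ^ ((j : ℝ) + 3/4) ≤ 1 := Real.rpow_le_one hrho.le hr1 (by positivity)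
    calc CF * rho α t ^ ((j : ℝ) + 3/4) ≤ |CF| * 1 :=
          mul_le_mul (le_abs_self _) h1 (Real.rpow_pos_of_pos hrho _).le hCF0
      _ ≤ A := by rw [hA]; linarith
  have hb0 : |FF t y| ≤ A := by
    have := hb 0 (by norm_num)
    rwa [iteratedDeriv_zero] at this
  -- differences
  have hd : ∀ j : ℕ, j ≤ 4 → |iteratedDeriv j (V t) y - iteratedDeriv j (FF t) y| ≤
      (K + CQ) * Real.exp (-y / 2) := by
    intro j hj
    have h1 := hU.posk t ht y hy j (by omega)
    have h2 := hCQ j hj y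
    rw [habs] at h2
    have h3 : Real.exp (-y) ≤ Real.exp (-y / 2) := Real.exp_le_exp.mpr (by linarith)
    have h4 : rho α t ^ ((7 : ℝ) / 8) ≤ 1 := Real.rpow_le_one hrho.le hr1 (by norm_num)
    have h5 : CU * rho α t ^ ((7 : ℝ) / 8) ≤ K := by
      calc _ ≤ K * 1 := mul_le_mul hKU h4 (Real.rpow_pos_of_pos hrho _).le hK0
        _ = K := mul_one K
    have h6 : |iteratedDeriv j (V t) y - iteratedDeriv j (FF t) y| ≤
        |iteratedDeriv j (V t) y - iteratedDeriv j Q y - iteratedDeriv j (FF t) y| +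
          |iteratedDeriv j Q y| := by
      have := abs_add_le (iteratedDeriv j (V t) y - iteratedDeriv j Q y -
        iteratedDeriv j (FF t) y) (iteratedDeriv j Q y)
      have e : iteratedDeriv j (V t) y - iteratedDeriv j Q y -
        iteratedDeriv j (FF t) y + iteratedDeriv j Q y = iteratedDeriv j (V t) y -
          iteratedDeriv j (FF t) y := by ring
      rwa [e] at this
    calc _ ≤ _ := h6
      _ ≤ CU * rho α t ^ ((7 : ℝ) / 8) * Real.exp (-y / 2) + CQ * Real.exp (-y) :=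
          add_le_add h1 h2
      _ ≤ K * Real.exp (-y / 2) + CQ * Real.exp (-y / 2) := by gcongr
      _ = _ := by ring
  have hDε : 0 ≤ D * ε := by positivity
  have hKQ : 0 ≤ K + CQ := by positivity
  have hdA : ∀ j : ℕ, j ≤ 4 → |iteratedDeriv j (V t) y - iteratedDeriv j (FF t) y| ≤ A * ε := by
    intro j hj
    calc _ ≤ (K + CQ) * Real.exp (-y / 2) := hd j hj
      _ ≤ (K + CQ) * (D * ε) := by gcongr
      _ ≤ A * ε := by
          have h1 : A * ε = ε + |CF| * ε + 8 * ((K + CQ) * (D * ε)) := by rw [hA]; ring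
          have h2 : 0 ≤ |CF| * ε := by positivity
          have h3 : 0 ≤ (K + CQ) * (D * ε) := by positivity
          linarith
  have hd0A : |V t y - FF t y| ≤ A * ε := by
    have := hdA 0 (by norm_num)
    rwa [iteratedDeriv_zero, iteratedDeriv_zero] at this
  have hydA : ∀ j : ℕ, j ≤ 4 → |y * (iteratedDeriv j (V t) y - iteratedDeriv j (FF t) y)| ≤
      A * ε := by
    intro j hj
    rw [abs_mul, habs]
    calc y * |iteratedDeriv j (V t) y - iteratedDeriv j (FF t) y|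
        ≤ y * ((K + CQ) * Real.exp (-y / 2)) := by
          gcongr
          exact hd j hj
      _ = (K + CQ) * (y * Real.exp (-y / 2)) := by ring
      _ ≤ (K + CQ) * (8 * (D * ε)) := by gcongr
      _ ≤ A * ε := by
          have h1 : A * ε = ε + |CF| * ε + 8 * ((K + CQ) * (D * ε)) := by rw [hA]; ring
          have h2 : 0 ≤ |CF| * ε := by positivity
          linarith
  have hpost := hU.post t ht y hy
  have h74 : rho α t ^ ((7 : ℝ) / 4) ≤ 1 := Real.rpow_le_one hrho.le hr1 (by norm_num)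
  have hKDε : CU * rho α t ^ ((7 : ℝ) / 4) * Real.exp (-y / 2) ≤ A * ε := by
    calc CU * rho α t ^ ((7 : ℝ) / 4) * Real.exp (-y / 2) ≤ K * 1 * (D * ε) := by
          apply mul_le_mul (mul_le_mul hKU h74 (Real.rpow_pos_of_pos hrho _).le hK0) hE2
            (Real.exp_pos _).le (by positivity)
      _ ≤ A * ε := by
          have h1 : A * ε = ε + |CF| * ε + 8 * (K * (D * ε)) + 8 * (CQ * (D * ε)) := by
            rw [hA]; ring
          have h2 : 0 ≤ |CF| * ε := by positivity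
          have h3 : 0 ≤ K * (D * ε) := by positivity
          have h4 : 0 ≤ CQ * (D * ε) := by positivity
          linarith
  have hp0 : |lam α t ^ 3 * deriv (fun τ => V τ y) t - lam α t ^ 3 * deriv (fun τ => FF τ y) t| ≤
      A * ε := by
    rw [← mul_sub, abs_mul, abs_of_pos (pow_pos hlam 3)]
    exact hpost.1.trans hKDε
  have hp1 : |lam α t ^ 3 * deriv (fun y' => deriv (fun τ => V τ y') t) y -
      lam α t ^ 3 * deriv (fun y' => deriv (fun τ => FF τ y') t) y| ≤ A * ε := by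
    rw [← mul_sub, abs_mul, abs_of_pos (pow_pos hlam 3)]
    exact hpost.2.trans hKDε
  have ha : |2 * α + 1| ≤ 3 := by rw [abs_of_pos (by linarith)]; linarith
  obtain ⟨hi0, hi1⟩ := iter_res (α := α) hV ⟨ht.1, htT1⟩ y
  have hA5 : 0 ≤ A ^ 5 * ε := by positivity
  interval_cases k
  · rw [hi0, iteratedDeriv_zero, res_val (sec_open hUUo t) (sec_smooth hFs t) hUU]
    have h := R0_diff hA1 ha hrho.le hr1 hε0.le hε1 hb0 (hb 1 (by norm_num)) hp0 hd0A
      (hdA 1 (by norm_num)) (hdA 3 (by norm_num)) (hydA 1 (by norm_num))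
    refine h.trans ?_
    rw [mul_assoc (1000 * A ^ 5)]
    nlinarith
  · have hFd : iteratedDeriv 1 (resE α FF t) y = R1 (2 * α + 1) (rho α t)
        (lam α t ^ 3 * deriv (fun y' => deriv (fun τ => FF τ y') t) y) (FF t y)
        (iteratedDeriv 1 (FF t) y) (iteratedDeriv 2 (FF t) y) (iteratedDeriv 4 (FF t) y) y := by
      rw [iteratedDeriv_one (f := resE α FF t)]
      exact (res_der (sec_open hUUo t) (sec_smooth hFs t) (dt_smooth hUUo hFs t) hUU).deriv
    rw [hi1, hFd]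
    have h := R1_diff hA1 ha hrho.le hr1 hε0.le hε1 hb0 (hb 1 (by norm_num)) (hb 2 (by norm_num))
      hp1 hd0A (hdA 1 (by norm_num)) (hdA 2 (by norm_num)) (hdA 4 (by norm_num))
      (hydA 2 (by norm_num))
    refine h.trans (le_of_eq ?_)
    rw [hε]
    ring

end

/-- **RESP.** -/
theorem thm_RESP (hQ : S_QF) (_hE : S_ECL1) (hM : S_MCL1) (_hM2 : S_MCL2) (_hP : S_PAIR)
    (hC : S_CURV) (hI : S_INNR) (hVR : S_VREP) (hTD : S_TD) (hZ : S_FZ) (hF : S_FS) (hB : S_FHB)
    (hS : S_SMW) : S_RESP := by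
  intro α J n R P h0 h1 h2 h3 p c1 a0 ω2 ω3 e3 w hD
  have hα0 := hD.a_pos
  have hα1 := hD.a_lt
  obtain ⟨CB, n1, hCB0, hCB⟩ := bk_bound hM hTD hC hD
  refine ⟨n1, fun θ hθ hθθ TU CU hTU hU' => ?_⟩
  obtain ⟨TV, hTV, hV⟩ := hVR α J n R P h0 h1 h2 h3 p c1 a0 ω2 ω3 e3 w hD θ hθ (by linarith)
  obtain ⟨T1, hT1, -, hsm, -⟩ := hS α J n R P h0 h1 h2 h3 p c1 a0 ω2 ω3 e3 w hD θ hθ (by linarith)
  set T2 := min TU (min TV T1) with hT2
  have hT20 : 0 < T2 := lt_min hTU (lt_min hTV hT1)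
  have h2U : T2 ≤ TU := min_le_left _ _
  have h2V : T2 ≤ TV := (min_le_right _ _).trans (min_le_left _ _)
  have h21 : T2 ≤ T1 := (min_le_right _ _).trans (min_le_right _ _)
  have hf0 := hZ α p J hα0 hα1
  have hTT : TT α θ T2 J n R P p w := by
    refine ⟨fun t h1 h2 => (hV t h1 (h2.trans h2V)).1, fun t h1 h2 => (hV t h1 (h2.trans h2V)).2.1,
      fun t h1 h2 => (hV t h1 (h2.trans h2V)).2.2.2, hsm.mono ?_⟩
    exact prod_mono (Ioo_subset_Ioo_right h21) le_rfl
  have hVs := hTT.sm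
  obtain ⟨hcf, CR, hCR0, hCR⟩ := Fhat_bound (n := n) hC hF hα0 hα1 hf0
  obtain ⟨CF, hCF⟩ := hB α (fZero α p J) n hα0 hα1 hf0
  obtain ⟨CA, hCA0, hCA⟩ := caseA hQ hC hα0 hα1 hθ hVs hU'
  obtain ⟨CA', hCA'0, hCA'⟩ := caseA' hC hα0 hα1 hVs hU'
  obtain ⟨CC, hCC0, hCC⟩ := caseC hQ hC hα0 hα1 J (CF := CF) hVs hcf
    (fun t y ht hs1 hx => (hCF t y ht hs1 hx).1) hU'
  refine ⟨T2 / 2, CR + CA + CA' + CC + CB, by linarith, by linarith, fun t ht y k hk => ?_⟩
  set C := CR + CA + CA' + CC + CB with hCdef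
  have ht2 : t < T2 := by linarith [ht.2]
  have htU : t ∈ Ioc 0 TU := ⟨ht.1, (ht2.le.trans h2U)⟩
  have hs4 := hTT.sg t ht.1 ht2.le
  have hs1 : sig α t ≤ 1 := by linarith
  have hrh := hTT.rh t ht.1 ht2.le
  obtain ⟨hc1, -⟩ := hC α hα0 hα1
  obtain ⟨hsig, hlam, hrho, hlsr, -⟩ := hc1 t ht.1
  have hrJ : 0 < rho α t ^ J := pow_pos hrho _
  have hr2n : 0 < rho α t ^ (2 * n) := pow_pos hrho _
  have hl72 : 0 < lam α t ^ ((7 : ℝ)/2) := Real.rpow_pos_of_pos hlam _
  have hrθ : 0 < rho α t ^ θ := Real.rpow_pos_of_pos hrho _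
  -- near the soliton
  have near : ∀ z, -1 < rho α t ^ θ * z → rho α t * z < 1/2 →
      (z ≤ 0 → |iteratedDeriv k (resE α (vin α θ R P w (fZero α p J) n) t) z| ≤
        C * rho α t ^ J * (1 + |z|) ^ n1 + C * lam α t ^ ((7 : ℝ)/2) * rho α t ^ (2 * n)
          * (sig α t + lam α t * z) ^ (α/2 - 7/2)) ∧
      (0 ≤ z → |iteratedDeriv k (resE α (vin α θ R P w (fZero α p J) n) t) z| ≤
        C * rho α t ^ J * Real.exp (-z / 4) + C * lam α t ^ ((7 : ℝ)/2) * rho α t ^ (2 * n)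
          * (sig α t + lam α t * z) ^ (α/2 - 7/2)) := by
    intro z hz1 hz2
    have hO : (t, z) ∈ OO α θ T2 := ⟨⟨ht.1, ht2⟩, hz1, hz2⟩
    have hx := (left_pos hC hα0 hα1 ht.1 hrh hz1.le).2
    have hx0 : 0 < sig α t + lam α t * z := by linarith
    have hxp : 0 < (sig α t + lam α t * z) ^ (α/2 - 7/2) := Real.rpow_pos_of_pos hx0 _
    have h4 := hCR t z ht.1 hs1 hx k hk
    have h5 : CR * lam α t ^ ((7 : ℝ)/2) * rho α t ^ (2 * n) *
        (sig α t + lam α t * z) ^ (α/2 - 7/2) ≤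
        C * lam α t ^ ((7 : ℝ)/2) * rho α t ^ (2 * n) *
        (sig α t + lam α t * z) ^ (α/2 - 7/2) := by
      gcongr
      linarith
    have hle : CB ≤ C := by linarith
    rw [near_iter hQ hM hC hI hTD hF hZ hD hTT hO k]
    constructor
    · intro hz
      refine (abs_add_le _ _).trans (add_le_add (((hCB t z ht.1 hs1 k hk).2 hz).trans ?_)
        (h4.trans h5))
      gcongr
    · intro hz
      refine (abs_add_le _ _).trans (add_le_add (((hCB t z ht.1 hs1 k hk).1 hz).trans ?_)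
        (h4.trans h5))
      gcongr
  refine ⟨?_, ?_, ?_, ?_⟩
  · intro hy1 hy0
    rcases hy1.lt_or_eq with h | h
    · refine (near y h ?_).1 hy0
      have : rho α t * y ≤ 0 := mul_nonpos_of_nonneg_of_nonpos hrho.le hy0
      linarith
    · -- the boundary point: continuity
      have hy : y < 0 := by
        rcases hy0.lt_or_eq with h' | h'
        · exact h'
        · rw [h', mul_zero] at h
          linarith
      have hx := (left_pos hC hα0 hα1 ht.1 hrh hy1).2
      have hx0 : 0 < sig α t + lam α t * y := by linarith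
      have hUo : IsOpen (Ioo 0 T2 ×ˢ (univ : Set ℝ)) := isOpen_Ioo.prod isOpen_univ
      have hm : (t, y) ∈ Ioo 0 T2 ×ˢ (univ : Set ℝ) := ⟨⟨ht.1, ht2⟩, mem_univ _⟩
      have hrs := res_smooth (α := α) (sec_open hUo t) (sec_smooth hVs t) (dt_smooth hUo hVs t)
      have hcont : ContinuousAt
          (iteratedDeriv k (resE α (vin α θ R P w (fZero α p J) n) t)) y :=
        (iter_hasDerivAt (sec_open hUo t) hrs k hm).continuousAt
      have hgc : ContinuousAt (fun z => C * rho α t ^ J * (1 + |z|) ^ n1 +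
          C * lam α t ^ ((7 : ℝ)/2) * rho α t ^ (2 * n)
          * (sig α t + lam α t * z) ^ (α/2 - 7/2)) y := by
        have e1 : ContinuousAt (fun z => C * rho α t ^ J * (1 + |z|) ^ n1) y := by fun_prop
        have e2 : ContinuousAt (fun z => (sig α t + lam α t * z) ^ (α/2 - 7/2)) y :=
          ContinuousAt.rpow_const (by fun_prop) (Or.inl hx0.ne')
        exact e1.add (continuousAt_const.mul e2)
      refine le_of_tendsto_of_tendsto (b := 𝓝[>] y)
        ((continuous_abs.continuousAt.comp hcont).tendsto.mono_left nhdsWithin_le_nhds)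
        (hgc.tendsto.mono_left nhdsWithin_le_nhds) ?_
      have hI : Ioo y 0 ∈ 𝓝[>] y := Ioo_mem_nhdsGT hy
      filter_upwards [hI] with z hz
      refine (near z ?_ ?_).1 hz.2.le
      · rw [h]
        exact mul_lt_mul_of_pos_left hz.1 hrθ
      · have : rho α t * z ≤ 0 := mul_nonpos_of_nonneg_of_nonpos hrho.le hz.2.le
        linarith
  · intro hy
    rcases lt_or_ge (rho α t * y) (1/2) with h | h
    · refine (near y ?_ h).2 hy
      have : 0 ≤ rho α t ^ θ * y := by positivity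
      linarith
    · have h1 := hCC t htU ht2 hs1 y hy h k hk
      have hx : sig α t / 2 ≤ sig α t + lam α t * y := by
        have : 0 ≤ lam α t * y := by positivity
        linarith
      have hx0 : 0 < sig α t + lam α t * y := by linarith
      have hxp : 0 < (sig α t + lam α t * y) ^ (α/2 - 7/2) := Real.rpow_pos_of_pos hx0 _
      have h4 := hCR t y ht.1 hs1 hx k hk
      have h6 : |iteratedDeriv k (resE α (vin α θ R P w (fZero α p J) n) t) y| ≤
          |iteratedDeriv k (resE α (vin α θ R P w (fZero α p J) n) t) y -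
            iteratedDeriv k (resE α (Fhat α (fZero α p J) n) t) y| +
          |iteratedDeriv k (resE α (Fhat α (fZero α p J) n) t) y| := by
        have := abs_add_le (iteratedDeriv k (resE α (vin α θ R P w (fZero α p J) n) t) y -
            iteratedDeriv k (resE α (Fhat α (fZero α p J) n) t) y)
            (iteratedDeriv k (resE α (Fhat α (fZero α p J) n) t) y)
        rwa [sub_add_cancel] at this
      refine h6.trans (add_le_add (h1.trans ?_) (h4.trans ?_))
      · gcongr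
        linarith
      · gcongr
        linarith
  · intro hy
    refine (hCA t htU ht2 hs1 y hy k hk).trans ?_
    have : 0 < rho α t ^ ((3 : ℝ) / 2) := Real.rpow_pos_of_pos hrho _
    gcongr
    linarith
  · intro hy
    refine (hCA' t htU ht2 hs1 y hy k hk).trans ?_
    gcongr
    linarith

end Pool.Agent.Helper42.KV.R
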