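import Pool.Agent.Helper48.KV.GoalsJ
import Pool.Agent.Helper23.KV.HCOER

/-!
# Packet KV-J-JWGN (MP_66be51_an): nonlinear absorption for the left functional
-/

open MeasureTheory Set Filter Topology

noncomputable section

namespace Pool.Agent.Helper42.KV.JW

open Pool.Agent.Helper48.KV Pool.Agent.Helper33.KV Pool.Agent.Helper41.KV

/-! ### Pointwise algebra -/

/-- the scaling facts used at one point -/
theorem ptA {C D τ t l d c i R h Q z κ w w1 w2 d1 d2 : ℝ} (hC : 0 < C) (hD : 0 < D) (hτ : 0 < τ)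
    (ht : 0 < t) (hl : 0 < l) (hl1 : l ≤ 1) (htl : t ≤ l ^ 2) (hc : 0 ≤ c)
    (hd0 : 0 ≤ d) (hd1 : d ≤ 1)
    (hi : i = 0 ∨ i = 1) (hdc : d ^ 2 ≤ c + i) (hD1 : |d1| ≤ C / l * i) (hD2 : |d2| ≤ C / l ^ 2 * i)
    (hR : 0 < R) (hh : 0 < h) (hκ0 : 0 < κ) (hκ : κ ≤ 1 / 4) (hz : 100 ≤ z)
    (hQ : 0 < Q) (hQh : Q ≤ 3 * κ * t / z * h) (hRQ : R ≤ 2 / z * Q)
    (hER : z / (3 * t) * R ≤ 2 / (3 * t) * Q)
    (hRn : i = 1 → R ≤ D * (t * τ)) :
    R * ((d2 * w + 2 * (d1 * w1) + d * w2) ^ 2 + (d * w) ^ 2) ≤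
      (3 + D * (15 * C ^ 2 + 4)) * (c * R * (w2 + z / (3 * t) * w) ^ 2 + 1 / t * (c * h * w ^ 2)
        + τ / l ^ 3 * (i * (l ^ 4 * w2 ^ 2 + l ^ 2 * w1 ^ 2 + w ^ 2 + l ^ 4 * w ^ 10))) := by
  have hz0 : 0 < z := by linarith
  have ht1 : t ≤ 1 := htl.trans (pow_le_one₀ hl.le hl1)
  have hQh' : Q ≤ h := by
    refine hQh.trans ?_
    have : 3 * κ * t / z ≤ 1 := by
      rw [div_le_one hz0]; nlinarith [mul_pos hκ0 ht]
    nlinarith
  have hRh : R ≤ h := by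
    refine hRQ.trans ?_
    have : 2 / z ≤ 1 := by rw [div_le_one hz0]; linarith
    nlinarith
  have hth : h ≤ 1 / t * h := by
    have : 1 ≤ 1 / t := by rw [le_div_iff₀ ht]; linarith
    nlinarith
  have hRe : R * (z / (3 * t)) ^ 2 ≤ 1 / t * h := by
    have e1 : R * (z / (3 * t)) ^ 2 = z / (3 * t) * (z / (3 * t) * R) := by ring
    have e2 : z / (3 * t) * (2 / (3 * t) * (3 * κ * t / z * h)) = 2 * κ / 3 * (1 / t * h) := by
      field_simp
    have p1 : 0 ≤ z / (3 * t) := by positivity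
    have p2 : 0 ≤ 2 / (3 * t) := by positivity
    calc R * (z / (3 * t)) ^ 2 = z / (3 * t) * (z / (3 * t) * R) := e1
      _ ≤ z / (3 * t) * (2 / (3 * t) * (3 * κ * t / z * h)) := by
          refine mul_le_mul_of_nonneg_left (hER.trans ?_) p1
          exact mul_le_mul_of_nonneg_left hQh p2
      _ = 2 * κ / 3 * (1 / t * h) := e2
      _ ≤ 1 * (1 / t * h) := by
          refine mul_le_mul_of_nonneg_right ?_ (by positivity)
          linarith
      _ = 1 / t * h := one_mul _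
  have hA : 0 ≤ c * R * (w2 + z / (3 * t) * w) ^ 2 := by positivity
  have hB : 0 ≤ 1 / t * (c * h * w ^ 2) := by positivity
  have hE : 0 ≤ D * (15 * C ^ 2 + 4) := by positivity
  rcases hi with hi | hi
  · subst hi
    have z1 : d1 = 0 := by
      have : |d1| ≤ 0 := by simpa using hD1
      exact abs_nonpos_iff.mp this
    have z2 : d2 = 0 := by
      have : |d2| ≤ 0 := by simpa using hD2
      exact abs_nonpos_iff.mp this
    subst z1 z2
    have h1 : R * ((0 * w + 2 * (0 * w1) + d * w2) ^ 2 + (d * w) ^ 2)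
        = d ^ 2 * (R * (w2 ^ 2 + w ^ 2)) := by ring
    have h2 : w2 ^ 2 ≤ 2 * (w2 + z / (3 * t) * w) ^ 2 + 2 * (z / (3 * t)) ^ 2 * w ^ 2 := by
      nlinarith [sq_nonneg (w2 + 2 * (z / (3 * t) * w))]
    have h3 : d ^ 2 * (R * (w2 ^ 2 + w ^ 2)) ≤ c * (R * (w2 ^ 2 + w ^ 2)) := by
      refine mul_le_mul_of_nonneg_right (by linarith) (by positivity)
    have h4 : R * (w2 ^ 2 + w ^ 2) ≤ 2 * (R * (w2 + z / (3 * t) * w) ^ 2) + 3 * (1 / t * h * w ^ 2) := by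
      have e1 : R * w2 ^ 2 ≤ R * (2 * (w2 + z / (3 * t) * w) ^ 2 + 2 * (z / (3 * t)) ^ 2 * w ^ 2) :=
        mul_le_mul_of_nonneg_left h2 hR.le
      have e2 : R * (z / (3 * t)) ^ 2 * w ^ 2 ≤ 1 / t * h * w ^ 2 :=
        mul_le_mul_of_nonneg_right hRe (sq_nonneg _)
      have e3 : R * w ^ 2 ≤ 1 / t * h * w ^ 2 :=
        mul_le_mul_of_nonneg_right (hRh.trans hth) (sq_nonneg _)
      nlinarith [e1, e2, e3]
    have h5 : c * (R * (w2 ^ 2 + w ^ 2)) ≤
        c * (2 * (R * (w2 + z / (3 * t) * w) ^ 2) + 3 * (1 / t * h * w ^ 2)) :=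
      mul_le_mul_of_nonneg_left h4 hc
    have h6 : c * (2 * (R * (w2 + z / (3 * t) * w) ^ 2) + 3 * (1 / t * h * w ^ 2))
        = 2 * (c * R * (w2 + z / (3 * t) * w) ^ 2) + 3 * (1 / t * (c * h * w ^ 2)) := by ring
    rw [h1]
    refine h3.trans (h5.trans ?_)
    rw [h6, zero_mul, mul_zero, add_zero]
    nlinarith [mul_nonneg hE (add_nonneg hA hB)]
  · subst hi
    rw [mul_one] at hD1 hD2
    have hRn' := hRn rfl
    have q1 : d1 ^ 2 ≤ (C / l) ^ 2 := by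
      rw [← sq_abs]; exact pow_le_pow_left₀ (abs_nonneg _) hD1 2
    have q2 : d2 ^ 2 ≤ (C / l ^ 2) ^ 2 := by
      rw [← sq_abs]; exact pow_le_pow_left₀ (abs_nonneg _) hD2 2
    have q3 : d ^ 2 ≤ 1 := pow_le_one₀ hd0 hd1
    have h1 : (d2 * w + 2 * (d1 * w1) + d * w2) ^ 2 + (d * w) ^ 2 ≤
        3 * (d2 ^ 2 * w ^ 2 + 4 * (d1 ^ 2 * w1 ^ 2) + d ^ 2 * w2 ^ 2) + d ^ 2 * w ^ 2 := by
      nlinarith [sq_nonneg (d2 * w - 2 * (d1 * w1)), sq_nonneg (d2 * w - d * w2),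
        sq_nonneg (2 * (d1 * w1) - d * w2)]
    have h2 : 3 * (d2 ^ 2 * w ^ 2 + 4 * (d1 ^ 2 * w1 ^ 2) + d ^ 2 * w2 ^ 2) + d ^ 2 * w ^ 2 ≤
        3 * ((C / l ^ 2) ^ 2 * w ^ 2 + 4 * ((C / l) ^ 2 * w1 ^ 2) + 1 * w2 ^ 2) + 1 * w ^ 2 := by
      have a1 := mul_le_mul_of_nonneg_right q2 (sq_nonneg w)
      have a2 := mul_le_mul_of_nonneg_right q1 (sq_nonneg w1)
      have a3 := mul_le_mul_of_nonneg_right q3 (sq_nonneg w2)
      have a4 := mul_le_mul_of_nonneg_right q3 (sq_nonneg w)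
      linarith
    have h3 : R * ((d2 * w + 2 * (d1 * w1) + d * w2) ^ 2 + (d * w) ^ 2) ≤
        D * (t * τ) * (3 * ((C / l ^ 2) ^ 2 * w ^ 2 + 4 * ((C / l) ^ 2 * w1 ^ 2) + 1 * w2 ^ 2)
          + 1 * w ^ 2) :=
      mul_le_mul hRn' (h1.trans h2) (by positivity) (by positivity)
    -- bring to the form
    have b1 : t / l ^ 4 ≤ 1 / l ^ 3 := by
      rw [div_le_div_iff₀ (by positivity) (by positivity)]
      calc t * l ^ 3 ≤ l ^ 2 * l ^ 3 := mul_le_mul_of_nonneg_right htl (by positivity)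
        _ = 1 * l ^ 4 * l := by ring
        _ ≤ 1 * l ^ 4 * 1 := mul_le_mul_of_nonneg_left hl1 (by positivity)
        _ = 1 * l ^ 4 := mul_one _
    have b2 : t / l ^ 2 ≤ 1 / l ^ 3 * l ^ 2 := by
      have : 1 / l ^ 3 * l ^ 2 = 1 / l := by field_simp
      rw [this, div_le_div_iff₀ (by positivity) hl]
      calc t * l ≤ l ^ 2 * l := mul_le_mul_of_nonneg_right htl hl.le
        _ ≤ l ^ 2 * 1 := mul_le_mul_of_nonneg_left hl1 (by positivity)
        _ = 1 * l ^ 2 := by ring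
    have b3 : t ≤ 1 / l ^ 3 * l ^ 4 := by
      have : 1 / l ^ 3 * l ^ 4 = l := by field_simp
      rw [this]
      calc t ≤ l ^ 2 := htl
        _ = l * l := by ring
        _ ≤ l * 1 := mul_le_mul_of_nonneg_left hl1 hl.le
        _ = l := mul_one _
    have b4 : t ≤ 1 / l ^ 3 := by
      refine ht1.trans ?_
      rw [le_div_iff₀ (by positivity), one_mul]
      exact pow_le_one₀ hl.le hl1
    have h4 : t * (3 * ((C / l ^ 2) ^ 2 * w ^ 2 + 4 * ((C / l) ^ 2 * w1 ^ 2) + 1 * w2 ^ 2)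
          + 1 * w ^ 2) ≤ (15 * C ^ 2 + 4) * (1 / l ^ 3 * (l ^ 4 * w2 ^ 2 + l ^ 2 * w1 ^ 2 + w ^ 2)) := by
      have e : t * (3 * ((C / l ^ 2) ^ 2 * w ^ 2 + 4 * ((C / l) ^ 2 * w1 ^ 2) + 1 * w2 ^ 2)
          + 1 * w ^ 2) = 3 * C ^ 2 * (t / l ^ 4 * w ^ 2) + 12 * C ^ 2 * (t / l ^ 2 * w1 ^ 2)
            + 3 * (t * w2 ^ 2) + t * w ^ 2 := by
        field_simp
        ring
      rw [e]
      have a1 := mul_le_mul_of_nonneg_right b1 (sq_nonneg w)
      have a2 := mul_le_mul_of_nonneg_right b2 (sq_nonneg w1)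
      have a3 := mul_le_mul_of_nonneg_right b3 (sq_nonneg w2)
      have a4 := mul_le_mul_of_nonneg_right b4 (sq_nonneg w)
      have c1 : 0 ≤ 1 / l ^ 3 * w ^ 2 := by positivity
      have c2 : 0 ≤ 1 / l ^ 3 * l ^ 2 * w1 ^ 2 := by positivity
      have c3 : 0 ≤ 1 / l ^ 3 * l ^ 4 * w2 ^ 2 := by positivity
      have c4 := mul_le_mul_of_nonneg_left a1 (by positivity : 0 ≤ 3 * C ^ 2)
      have c5 := mul_le_mul_of_nonneg_left a2 (by positivity : 0 ≤ 12 * C ^ 2)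
      have c6 : 0 ≤ C ^ 2 * (1 / l ^ 3 * w ^ 2) := by positivity
      have c7 : 0 ≤ C ^ 2 * (1 / l ^ 3 * l ^ 2 * w1 ^ 2) := by positivity
      have c8 : 0 ≤ C ^ 2 * (1 / l ^ 3 * l ^ 4 * w2 ^ 2) := by positivity
      nlinarith [a3, a4, c1, c2, c3, c4, c5, c6, c7, c8]
    have h5 : D * (t * τ) * (3 * ((C / l ^ 2) ^ 2 * w ^ 2 + 4 * ((C / l) ^ 2 * w1 ^ 2) + 1 * w2 ^ 2)
          + 1 * w ^ 2) = D * τ * (t * (3 * ((C / l ^ 2) ^ 2 * w ^ 2 + 4 * ((C / l) ^ 2 * w1 ^ 2)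
            + 1 * w2 ^ 2) + 1 * w ^ 2)) := by ring
    have h6 := mul_le_mul_of_nonneg_left h4 (by positivity : 0 ≤ D * τ)
    have h7 : D * τ * ((15 * C ^ 2 + 4) * (1 / l ^ 3 * (l ^ 4 * w2 ^ 2 + l ^ 2 * w1 ^ 2 + w ^ 2)))
        = D * (15 * C ^ 2 + 4) * (τ / l ^ 3 * (1 * (l ^ 4 * w2 ^ 2 + l ^ 2 * w1 ^ 2 + w ^ 2))) := by
      ring
    have h8 : τ / l ^ 3 * (1 * (l ^ 4 * w2 ^ 2 + l ^ 2 * w1 ^ 2 + w ^ 2)) ≤
        τ / l ^ 3 * (1 * (l ^ 4 * w2 ^ 2 + l ^ 2 * w1 ^ 2 + w ^ 2 + l ^ 4 * w ^ 10)) := by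
      refine mul_le_mul_of_nonneg_left ?_ (by positivity)
      have : 0 ≤ l ^ 4 * w ^ 10 := by positivity
      linarith
    have h9 : 0 ≤ τ / l ^ 3 * (1 * (l ^ 4 * w2 ^ 2 + l ^ 2 * w1 ^ 2 + w ^ 2 + l ^ 4 * w ^ 10)) := by
      positivity
    have h10 := mul_le_mul_of_nonneg_left h8 hE
    nlinarith [h3, h5, h6, h7, h10, mul_nonneg hE (add_nonneg hA hB)]

theorem ptB {C D τ t l d c i E h Q z κ w w1 w2 d1 : ℝ} (hC : 0 < C) (hD : 0 < D) (hτ : 0 < τ)
    (ht : 0 < t) (hl : 0 < l) (hl1 : l ≤ 1) (hc : 0 ≤ c)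
    (hd0 : 0 ≤ d) (hd1 : d ≤ 1)
    (hi : i = 0 ∨ i = 1) (hdc : d ^ 2 ≤ c + i) (hD1 : |d1| ≤ C / l * i)
    (hE : 0 < E) (hh : 0 < h) (hκ0 : 0 < κ) (hκ : κ ≤ 1 / 4) (hz : 100 ≤ z)
    (hQ : 0 < Q) (hQh : Q ≤ 3 * κ * t / z * h) (hEQ : E ≤ 2 / (3 * t) * Q)
    (hEn : i = 1 → E ≤ D * τ) :
    E * ((d1 * w + d * w1) ^ 2 + (d * w) ^ 2) ≤
      (1 + D * (2 * C ^ 2 + 3)) * (1 / t * (c * Q * w1 ^ 2) + c * h * w ^ 2
        + τ / l ^ 3 * (i * (l ^ 4 * w2 ^ 2 + l ^ 2 * w1 ^ 2 + w ^ 2 + l ^ 4 * w ^ 10))) := by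
  have hz0 : 0 < z := by linarith
  have hEh : E ≤ h := by
    have e2 : 2 / (3 * t) * (3 * κ * t / z * h) = 2 * κ / z * h := by field_simp
    have p2 : 0 ≤ 2 / (3 * t) := by positivity
    calc E ≤ 2 / (3 * t) * (3 * κ * t / z * h) := hEQ.trans (mul_le_mul_of_nonneg_left hQh p2)
      _ = 2 * κ / z * h := e2
      _ ≤ 1 * h := by
          refine mul_le_mul_of_nonneg_right ?_ hh.le
          rw [div_le_one hz0]; linarith
      _ = h := one_mul _
  have hEQ' : E ≤ 1 / t * Q := by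
    refine hEQ.trans (mul_le_mul_of_nonneg_right ?_ hQ.le)
    rw [div_le_div_iff₀ (by positivity) ht]; linarith
  have hA : 0 ≤ 1 / t * (c * Q * w1 ^ 2) := by positivity
  have hB : 0 ≤ c * h * w ^ 2 := by positivity
  have hE' : 0 ≤ D * (2 * C ^ 2 + 3) := by positivity
  rcases hi with hi | hi
  · subst hi
    have z1 : d1 = 0 := by
      have : |d1| ≤ 0 := by simpa using hD1
      exact abs_nonpos_iff.mp this
    subst z1
    have h1 : E * ((0 * w + d * w1) ^ 2 + (d * w) ^ 2) = d ^ 2 * (E * (w1 ^ 2 + w ^ 2)) := by ring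
    have h3 : d ^ 2 * (E * (w1 ^ 2 + w ^ 2)) ≤ c * (E * (w1 ^ 2 + w ^ 2)) := by
      refine mul_le_mul_of_nonneg_right (by linarith) (by positivity)
    have h4 : E * (w1 ^ 2 + w ^ 2) ≤ 1 / t * Q * w1 ^ 2 + h * w ^ 2 := by
      have e1 := mul_le_mul_of_nonneg_right hEQ' (sq_nonneg w1)
      have e2 := mul_le_mul_of_nonneg_right hEh (sq_nonneg w)
      linarith
    have h5 := mul_le_mul_of_nonneg_left h4 hc
    rw [h1]
    refine h3.trans (h5.trans ?_)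
    rw [zero_mul, mul_zero, add_zero]
    have h6 : c * (1 / t * Q * w1 ^ 2 + h * w ^ 2) = 1 / t * (c * Q * w1 ^ 2) + c * h * w ^ 2 := by ring
    rw [h6]
    nlinarith [mul_nonneg hE' (add_nonneg hA hB)]
  · subst hi
    rw [mul_one] at hD1
    have hEn' := hEn rfl
    have q1 : d1 ^ 2 ≤ (C / l) ^ 2 := by
      rw [← sq_abs]; exact pow_le_pow_left₀ (abs_nonneg _) hD1 2
    have q3 : d ^ 2 ≤ 1 := pow_le_one₀ hd0 hd1
    have h1 : (d1 * w + d * w1) ^ 2 + (d * w) ^ 2 ≤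
        2 * (d1 ^ 2 * w ^ 2) + 2 * (d ^ 2 * w1 ^ 2) + d ^ 2 * w ^ 2 := by
      nlinarith [sq_nonneg (d1 * w - d * w1)]
    have h2 : 2 * (d1 ^ 2 * w ^ 2) + 2 * (d ^ 2 * w1 ^ 2) + d ^ 2 * w ^ 2 ≤
        2 * ((C / l) ^ 2 * w ^ 2) + 2 * (1 * w1 ^ 2) + 1 * w ^ 2 := by
      have a1 := mul_le_mul_of_nonneg_right q1 (sq_nonneg w)
      have a3 := mul_le_mul_of_nonneg_right q3 (sq_nonneg w1)
      have a4 := mul_le_mul_of_nonneg_right q3 (sq_nonneg w)
      linarith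
    have h3 : E * ((d1 * w + d * w1) ^ 2 + (d * w) ^ 2) ≤
        D * τ * (2 * ((C / l) ^ 2 * w ^ 2) + 2 * (1 * w1 ^ 2) + 1 * w ^ 2) :=
      mul_le_mul hEn' (h1.trans h2) (by positivity) (by positivity)
    have b1 : 1 / l ^ 2 ≤ 1 / l ^ 3 := by
      rw [div_le_div_iff₀ (by positivity) (by positivity)]
      calc 1 * l ^ 3 = 1 * l ^ 2 * l := by ring
        _ ≤ 1 * l ^ 2 * 1 := mul_le_mul_of_nonneg_left hl1 (by positivity)
        _ = 1 * l ^ 2 := mul_one _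
    have b2 : 1 ≤ 1 / l ^ 3 * l ^ 2 := by
      have : 1 / l ^ 3 * l ^ 2 = 1 / l := by field_simp
      rw [this, le_div_iff₀ hl]; linarith
    have b4 : 1 ≤ 1 / l ^ 3 := by
      rw [le_div_iff₀ (by positivity), one_mul]
      exact pow_le_one₀ hl.le hl1
    have h4 : 2 * ((C / l) ^ 2 * w ^ 2) + 2 * (1 * w1 ^ 2) + 1 * w ^ 2 ≤
        (2 * C ^ 2 + 3) * (1 / l ^ 3 * (l ^ 2 * w1 ^ 2 + w ^ 2)) := by
      have e : 2 * ((C / l) ^ 2 * w ^ 2) + 2 * (1 * w1 ^ 2) + 1 * w ^ 2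
          = 2 * C ^ 2 * (1 / l ^ 2 * w ^ 2) + 2 * (1 * w1 ^ 2) + 1 * w ^ 2 := by
        field_simp
      rw [e]
      have a1 := mul_le_mul_of_nonneg_right b1 (sq_nonneg w)
      have a2 := mul_le_mul_of_nonneg_right b2 (sq_nonneg w1)
      have a4 := mul_le_mul_of_nonneg_right b4 (sq_nonneg w)
      have c1 : 0 ≤ 1 / l ^ 3 * w ^ 2 := by positivity
      have c2 : 0 ≤ 1 / l ^ 3 * l ^ 2 * w1 ^ 2 := by positivity
      have c4 := mul_le_mul_of_nonneg_left a1 (by positivity : 0 ≤ 2 * C ^ 2)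
      have c7 : 0 ≤ C ^ 2 * (1 / l ^ 3 * l ^ 2 * w1 ^ 2) := by positivity
      nlinarith [a2, a4, c1, c2, c4, c7]
    have h6 := mul_le_mul_of_nonneg_left h4 (by positivity : 0 ≤ D * τ)
    have h7 : D * τ * ((2 * C ^ 2 + 3) * (1 / l ^ 3 * (l ^ 2 * w1 ^ 2 + w ^ 2)))
        = D * (2 * C ^ 2 + 3) * (τ / l ^ 3 * (1 * (l ^ 2 * w1 ^ 2 + w ^ 2))) := by
      ring
    have h8 : τ / l ^ 3 * (1 * (l ^ 2 * w1 ^ 2 + w ^ 2)) ≤
        τ / l ^ 3 * (1 * (l ^ 4 * w2 ^ 2 + l ^ 2 * w1 ^ 2 + w ^ 2 + l ^ 4 * w ^ 10)) := by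
      refine mul_le_mul_of_nonneg_left ?_ (by positivity)
      have : 0 ≤ l ^ 4 * w ^ 10 := by positivity
      have : 0 ≤ l ^ 4 * w2 ^ 2 := by positivity
      linarith
    have h9 : 0 ≤ τ / l ^ 3 * (1 * (l ^ 4 * w2 ^ 2 + l ^ 2 * w1 ^ 2 + w ^ 2 + l ^ 4 * w ^ 10)) := by
      positivity
    have h10 := mul_le_mul_of_nonneg_left h8 hE'
    nlinarith [h3, h6, h7, h10, mul_nonneg hE' (add_nonneg hA hB)]

theorem ptC {C D τ t l d c i h Q z κ w w1 d1 : ℝ} (hC : 0 < C) (hD : 0 < D) (hτ : 0 < τ)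
    (ht : 0 < t) (hl : 0 < l) (hl1 : l ≤ 1) (htl : t ≤ l ^ 2) (hc : 0 ≤ c)
    (hd0 : 0 ≤ d) (hd1 : d ≤ 1)
    (hi : i = 0 ∨ i = 1) (hdc : d ^ 2 ≤ c + i) (hD1 : |d1| ≤ C / l * i)
    (hh : 0 < h) (hκ0 : 0 < κ) (hκ : κ ≤ 1 / 4) (hz : 100 ≤ z)
    (hQ : 0 < Q) (hQh : Q ≤ 3 * κ * t / z * h)
    (hQn : i = 1 → Q ≤ D * (t * τ)) :
    Q * ((d1 * w + d * w1) ^ 2 + (d * w) ^ 2) ≤
      (1 + D * (2 * C ^ 2 + 3)) * (c * Q * w1 ^ 2 + c * h * w ^ 2
        + τ * (i * (l ^ 2 * w1 ^ 2 + w ^ 2))) := by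
  have hz0 : 0 < z := by linarith
  have ht1 : t ≤ 1 := htl.trans (pow_le_one₀ hl.le hl1)
  have hQh' : Q ≤ h := by
    refine hQh.trans ?_
    have : 3 * κ * t / z ≤ 1 := by
      rw [div_le_one hz0]; nlinarith [mul_pos hκ0 ht]
    nlinarith
  have hA : 0 ≤ c * Q * w1 ^ 2 := by positivity
  have hB : 0 ≤ c * h * w ^ 2 := by positivity
  have hE' : 0 ≤ D * (2 * C ^ 2 + 3) := by positivity
  rcases hi with hi | hi
  · subst hi
    have z1 : d1 = 0 := by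
      have : |d1| ≤ 0 := by simpa using hD1
      exact abs_nonpos_iff.mp this
    subst z1
    have h1 : Q * ((0 * w + d * w1) ^ 2 + (d * w) ^ 2) = d ^ 2 * (Q * (w1 ^ 2 + w ^ 2)) := by ring
    have h3 : d ^ 2 * (Q * (w1 ^ 2 + w ^ 2)) ≤ c * (Q * (w1 ^ 2 + w ^ 2)) := by
      refine mul_le_mul_of_nonneg_right (by linarith) (by positivity)
    have h4 : Q * (w1 ^ 2 + w ^ 2) ≤ Q * w1 ^ 2 + h * w ^ 2 := by
      have e2 := mul_le_mul_of_nonneg_right hQh' (sq_nonneg w)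
      linarith
    have h5 := mul_le_mul_of_nonneg_left h4 hc
    rw [h1]
    refine h3.trans (h5.trans ?_)
    rw [zero_mul, mul_zero, add_zero]
    have h6 : c * (Q * w1 ^ 2 + h * w ^ 2) = c * Q * w1 ^ 2 + c * h * w ^ 2 := by ring
    rw [h6]
    nlinarith [mul_nonneg hE' (add_nonneg hA hB)]
  · subst hi
    rw [mul_one] at hD1
    have hQn' := hQn rfl
    have q1 : d1 ^ 2 ≤ (C / l) ^ 2 := by
      rw [← sq_abs]; exact pow_le_pow_left₀ (abs_nonneg _) hD1 2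
    have q3 : d ^ 2 ≤ 1 := pow_le_one₀ hd0 hd1
    have h1 : (d1 * w + d * w1) ^ 2 + (d * w) ^ 2 ≤
        2 * (d1 ^ 2 * w ^ 2) + 2 * (d ^ 2 * w1 ^ 2) + d ^ 2 * w ^ 2 := by
      nlinarith [sq_nonneg (d1 * w - d * w1)]
    have h2 : 2 * (d1 ^ 2 * w ^ 2) + 2 * (d ^ 2 * w1 ^ 2) + d ^ 2 * w ^ 2 ≤
        2 * ((C / l) ^ 2 * w ^ 2) + 2 * (1 * w1 ^ 2) + 1 * w ^ 2 := by
      have a1 := mul_le_mul_of_nonneg_right q1 (sq_nonneg w)
      have a3 := mul_le_mul_of_nonneg_right q3 (sq_nonneg w1)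
      have a4 := mul_le_mul_of_nonneg_right q3 (sq_nonneg w)
      linarith
    have h3 : Q * ((d1 * w + d * w1) ^ 2 + (d * w) ^ 2) ≤
        D * (t * τ) * (2 * ((C / l) ^ 2 * w ^ 2) + 2 * (1 * w1 ^ 2) + 1 * w ^ 2) :=
      mul_le_mul hQn' (h1.trans h2) (by positivity) (by positivity)
    have b1 : t / l ^ 2 ≤ 1 := by
      rw [div_le_one (by positivity)]; exact htl
    have h4 : t * (2 * ((C / l) ^ 2 * w ^ 2) + 2 * (1 * w1 ^ 2) + 1 * w ^ 2) ≤
        (2 * C ^ 2 + 3) * (l ^ 2 * w1 ^ 2 + w ^ 2) := by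
      have e : t * (2 * ((C / l) ^ 2 * w ^ 2) + 2 * (1 * w1 ^ 2) + 1 * w ^ 2)
          = 2 * C ^ 2 * (t / l ^ 2 * w ^ 2) + 2 * (t * w1 ^ 2) + t * w ^ 2 := by
        field_simp
      rw [e]
      have a1 := mul_le_mul_of_nonneg_right b1 (sq_nonneg w)
      have a2 := mul_le_mul_of_nonneg_right htl (sq_nonneg w1)
      have a4 := mul_le_mul_of_nonneg_right ht1 (sq_nonneg w)
      have c1 : 0 ≤ w ^ 2 := by positivity
      have c2 : 0 ≤ l ^ 2 * w1 ^ 2 := by positivity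
      have c4 := mul_le_mul_of_nonneg_left a1 (by positivity : 0 ≤ 2 * C ^ 2)
      have c7 : 0 ≤ C ^ 2 * (l ^ 2 * w1 ^ 2) := by positivity
      nlinarith [a2, a4, c1, c2, c4, c7]
    have h6 := mul_le_mul_of_nonneg_left h4 (by positivity : 0 ≤ D * τ)
    have h7 : D * (t * τ) * (2 * ((C / l) ^ 2 * w ^ 2) + 2 * (1 * w1 ^ 2) + 1 * w ^ 2)
        = D * τ * (t * (2 * ((C / l) ^ 2 * w ^ 2) + 2 * (1 * w1 ^ 2) + 1 * w ^ 2)) := by
      ring
    have h8 : D * τ * ((2 * C ^ 2 + 3) * (l ^ 2 * w1 ^ 2 + w ^ 2))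
        = D * (2 * C ^ 2 + 3) * (τ * (1 * (l ^ 2 * w1 ^ 2 + w ^ 2))) := by ring
    have h9 : 0 ≤ τ * (1 * (l ^ 2 * w1 ^ 2 + w ^ 2)) := by positivity
    nlinarith [h3, h6, h7, h8, h9, mul_nonneg hE' (add_nonneg hA hB)]


/-! ### Integrals -/

theorem memLp_bmul {c g : ℝ → ℝ} {M : ℝ} (hg : MemLp g 2) (hc : Continuous c)
    (hM : ∀ y, |c y| ≤ M) : MemLp (fun y => c y * g y) 2 := by
  refine MemLp.of_le_mul (c := M) hg (hc.aestronglyMeasurable.mul hg.1) (Eventually.of_forall fun y => ?_)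
  rw [norm_mul]
  exact mul_le_mul_of_nonneg_right (hM y) (norm_nonneg _)

theorem int3 {f g h : ℝ → ℝ} (hf : Integrable f) (hg : Integrable g) (hh : Integrable h) :
    (∫ x, (f x + g x + h x)) = (∫ x, f x) + (∫ x, g x) + ∫ x, h x := by
  have h1 : (∫ x, (f x + g x + h x)) = (∫ x, (f x + g x)) + ∫ x, h x :=
    integral_add (hf.add hg) hh
  rw [h1, integral_add hf hg]

/-- the cut-off function and the field: basic facts -/
structure Cut (d : ℝ → ℝ) : Prop where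
  sm : ContDiff ℝ (⊤ : ℕ∞) d
  nn : ∀ x, 0 ≤ d x
  le : ∀ x, d x ≤ 1
  b1 : ∃ M, ∀ x, |deriv d x| ≤ M
  b2 : ∃ M, ∀ x, |deriv (deriv d) x| ≤ M

theorem Cut.abs {d : ℝ → ℝ} (h : Cut d) (x : ℝ) : |d x| ≤ 1 := by
  rw [abs_of_nonneg (h.nn x)]; exact h.le x

theorem smd {f : ℝ → ℝ} (hf : ContDiff ℝ (⊤ : ℕ∞) f) : ContDiff ℝ (⊤ : ℕ∞) (deriv f) := by
  exact (contDiff_infty_iff_deriv.1 hf).2

theorem hda {f : ℝ → ℝ} (hf : ContDiff ℝ (⊤ : ℕ∞) f) (x : ℝ) : HasDerivAt f (deriv f x) x :=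
  ((hf.differentiable (by simp)) x).hasDerivAt

theorem derivf {d w : ℝ → ℝ} (hd : ContDiff ℝ (⊤ : ℕ∞) d) (hw : ContDiff ℝ (⊤ : ℕ∞) w) :
    deriv (fun x => d x * w x) = fun x => deriv d x * w x + d x * deriv w x := by
  funext x
  exact ((hda hd x).mul (hda hw x)).deriv

theorem derivf2 {d w : ℝ → ℝ} (hd : ContDiff ℝ (⊤ : ℕ∞) d) (hw : ContDiff ℝ (⊤ : ℕ∞) w) :
    deriv (deriv (fun x => d x * w x)) = fun x => deriv (deriv d) x * w x
      + 2 * (deriv d x * deriv w x) + d x * deriv (deriv w) x := by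
  rw [derivf hd hw]
  funext x
  have h1 := ((hda (smd hd) x).mul (hda hw x)).add ((hda hd x).mul (hda (smd hw) x))
  refine h1.deriv.trans ?_
  ring

theorem core (h5 : S_WGN) {ω : ℝ → ℝ} {M : ℝ} (hω : ContDiff ℝ 1 ω) (hp : ∀ y, 0 < ω y)
    (hM : ∀ y, ω y ≤ M) (hd1 : ∀ y, |deriv ω y| ≤ ω y) {d w : ℝ → ℝ} (hd : Cut d) (hw : HI w) :
    (Integrable (fun x => d x ^ 10 * ω x * w x ^ 10) ∧
      (∫ x, d x ^ 10 * ω x * w x ^ 10) ≤ 256 * (∫ x, d x ^ 2 * w x ^ 2) ^ 4 *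
        ∫ x, ω x * ((deriv (deriv d) x * w x + 2 * (deriv d x * deriv w x)
          + d x * deriv (deriv w) x) ^ 2 + (d x * w x) ^ 2)) ∧
    (Integrable (fun x => d x ^ 10 * ω x * w x ^ 6) ∧
      (∫ x, d x ^ 10 * ω x * w x ^ 6) ≤ 8 * (∫ x, d x ^ 2 * w x ^ 2) ^ 2 *
        ∫ x, ω x * ((deriv d x * w x + d x * deriv w x) ^ 2 + (d x * w x) ^ 2)) ∧
    Integrable (fun x => ω x * ((deriv (deriv d) x * w x + 2 * (deriv d x * deriv w x)
          + d x * deriv (deriv w) x) ^ 2 + (d x * w x) ^ 2)) ∧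
    Integrable (fun x => ω x * ((deriv d x * w x + d x * deriv w x) ^ 2 + (d x * w x) ^ 2)) := by
  obtain ⟨M1, hM1⟩ := hd.b1
  obtain ⟨M2, hM2⟩ := hd.b2
  have m0 : MemLp w 2 := by simpa using hw.2 0
  have m1 : MemLp (deriv w) 2 := by simpa [iteratedDeriv_one] using hw.2 1
  have m2 : MemLp (deriv (deriv w)) 2 := by
    have := hw.2 2
    rwa [iteratedDeriv_succ, iteratedDeriv_one] at this
  have cd : Continuous d := hd.sm.continuous
  have cd1 : Continuous (deriv d) := (smd hd.sm).continuous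
  have cd2 : Continuous (deriv (deriv d)) := (smd (smd hd.sm)).continuous
  have cw : Continuous w := hw.1.continuous
  have f0 : MemLp (fun x => d x * w x) 2 := memLp_bmul m0 cd hd.abs
  have f1 : MemLp (fun x => deriv d x * w x + d x * deriv w x) 2 :=
    (memLp_bmul m0 cd1 hM1).add (memLp_bmul m1 cd hd.abs)
  have f2 : MemLp (fun x => deriv (deriv d) x * w x + 2 * (deriv d x * deriv w x)
      + d x * deriv (deriv w) x) 2 :=
    ((memLp_bmul m0 cd2 hM2).add ((memLp_bmul m1 cd1 hM1).const_mul 2)).add (memLp_bmul m2 cd hd.abs)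
  have hf : ContDiff ℝ 2 (fun x => d x * w x) := by
    exact_mod_cast contDiff_infty.1 (hd.sm.mul hw.1) 2
  obtain ⟨-, g6, -, g10⟩ := h5 ω M hω hp hM hd1 (fun x => d x * w x) hf f0
    (by rw [derivf hd.sm hw.1]; exact f1) (by rw [derivf2 hd.sm hw.1]; exact f2)
  rw [derivf2 hd.sm hw.1] at g10
  rw [derivf hd.sm hw.1] at g6
  have hN : (∫ y, (d y * w y) ^ 2) = ∫ x, d x ^ 2 * w x ^ 2 := by
    congr 1; funext x; ring
  rw [hN] at g6 g10
  obtain ⟨B, hB⟩ := Pool.Agent.Helper23.KV.HI_bdd hw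
  have cω : Continuous ω := hω.continuous
  have hωabs : ∀ y, |ω y| ≤ M := fun y => by rw [abs_of_pos (hp y)]; exact hM y
  have i0 : Integrable (fun x => w x ^ 2) := m0.integrable_sq
  have wB : ∀ (k : ℕ) (x : ℝ), (w x ^ 2) ^ k ≤ B ^ k := fun k x =>
    pow_le_pow_left₀ (sq_nonneg _) (hB x) k
  have j10 : Integrable (fun x => d x ^ 10 * ω x * w x ^ 10) := by
    have := Pool.Agent.Helper5.KV.bint (c := fun x => d x ^ 10 * ω x * (w x ^ 2) ^ 4) (M := M * B ^ 4) i0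
      (((cd.pow 10).mul cω).mul ((cw.pow 2).pow 4)) (fun x => by
        rw [abs_of_nonneg (mul_nonneg (mul_nonneg (pow_nonneg (hd.nn x) _) (hp x).le)
          (pow_nonneg (sq_nonneg _) _))]
        refine mul_le_mul ?_ (wB 4 x) (pow_nonneg (sq_nonneg _) _) ((hp x).le.trans (hM x))
        calc d x ^ 10 * ω x ≤ 1 * ω x :=
              mul_le_mul_of_nonneg_right (pow_le_one₀ (hd.nn x) (hd.le x)) (hp x).le
          _ = ω x := one_mul _
          _ ≤ M := hM x)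
    refine this.congr (Eventually.of_forall fun x => ?_)
    simp only; ring
  have j6 : Integrable (fun x => d x ^ 10 * ω x * w x ^ 6) := by
    have := Pool.Agent.Helper5.KV.bint (c := fun x => d x ^ 10 * ω x * (w x ^ 2) ^ 2) (M := M * B ^ 2) i0
      (((cd.pow 10).mul cω).mul ((cw.pow 2).pow 2)) (fun x => by
        rw [abs_of_nonneg (mul_nonneg (mul_nonneg (pow_nonneg (hd.nn x) _) (hp x).le)
          (pow_nonneg (sq_nonneg _) _))]
        refine mul_le_mul ?_ (wB 2 x) (pow_nonneg (sq_nonneg _) _) ((hp x).le.trans (hM x))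
        calc d x ^ 10 * ω x ≤ 1 * ω x :=
              mul_le_mul_of_nonneg_right (pow_le_one₀ (hd.nn x) (hd.le x)) (hp x).le
          _ = ω x := one_mul _
          _ ≤ M := hM x)
    refine this.congr (Eventually.of_forall fun x => ?_)
    simp only; ring
  have j6' : Integrable (fun x => ω x * (d x * w x) ^ 6) := by
    have := Pool.Agent.Helper5.KV.bint (c := fun x => d x ^ 6 * ω x * (w x ^ 2) ^ 2) (M := M * B ^ 2) i0
      (((cd.pow 6).mul cω).mul ((cw.pow 2).pow 2)) (fun x => by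
        rw [abs_of_nonneg (mul_nonneg (mul_nonneg (pow_nonneg (hd.nn x) _) (hp x).le)
          (pow_nonneg (sq_nonneg _) _))]
        refine mul_le_mul ?_ (wB 2 x) (pow_nonneg (sq_nonneg _) _) ((hp x).le.trans (hM x))
        calc d x ^ 6 * ω x ≤ 1 * ω x :=
              mul_le_mul_of_nonneg_right (pow_le_one₀ (hd.nn x) (hd.le x)) (hp x).le
          _ = ω x := one_mul _
          _ ≤ M := hM x)
    refine this.congr (Eventually.of_forall fun x => ?_)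
    simp only; ring
  refine ⟨⟨j10, ?_⟩, ⟨j6, ?_⟩, ?_, ?_⟩
  · refine le_trans (le_of_eq ?_) g10
    congr 1; funext x; ring
  · refine le_trans (integral_mono j6 j6' fun x => ?_) g6
    simp only
    have h1 : d x ^ 10 ≤ d x ^ 6 := pow_le_pow_of_le_one (hd.nn x) (hd.le x) (by norm_num)
    have h2 : 0 ≤ ω x * w x ^ 6 := mul_nonneg (hp x).le (by positivity)
    have h3 := mul_le_mul_of_nonneg_right h1 h2
    calc d x ^ 10 * ω x * w x ^ 6 = d x ^ 10 * (ω x * w x ^ 6) := by ring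
      _ ≤ d x ^ 6 * (ω x * w x ^ 6) := h3
      _ = ω x * (d x * w x) ^ 6 := by ring
  · exact Pool.Agent.Helper5.KV.bint (f2.integrable_sq.add f0.integrable_sq) cω hωabs
  · exact Pool.Agent.Helper5.KV.bint (f1.integrable_sq.add f0.integrable_sq) cω hωabs

/-! ### The weights -/

theorem cd_h {κ r t : ℝ} (hr : 0 < r) (ht : 0 < t) {y : ℝ} (hy : 0 < y) :
    ContDiffAt ℝ (⊤ : ℕ∞) (hJ κ r t) y := by
  have hs : 0 < 3 * t + r * y := by positivity
  unfold hJ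
  refine ContDiffAt.rpow_const_of_ne ?_ (by positivity)
  exact contDiffAt_id.div (contDiffAt_const.add (contDiffAt_const.mul contDiffAt_id)) hs.ne'

theorem cd_Q {κ r t : ℝ} (hr : 0 < r) (ht : 0 < t) {y : ℝ} (hy : 0 < y) :
    ContDiffAt ℝ (⊤ : ℕ∞) (QJ κ r t) y := by
  have hs : 0 < 3 * t + r * y := by positivity
  unfold QJ
  refine (contDiffAt_const.mul (cd_h hr ht hy)).div
    (contDiffAt_id.mul (contDiffAt_const.add (contDiffAt_const.mul contDiffAt_id))) ?_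
  exact (mul_pos hy hs).ne'

theorem cd_R {κ r t : ℝ} (hr : 0 < r) (ht : 0 < t) {y : ℝ} (hy : 0 < y) :
    ContDiffAt ℝ (⊤ : ℕ∞) (RJ κ r t) y := by
  have hs : 0 < 3 * t + r * y := by positivity
  unfold RJ
  refine (cd_Q hr ht hy).mul ((contDiffAt_const.div contDiffAt_id hy.ne').add ?_)
  exact contDiffAt_const.div (contDiffAt_const.add (contDiffAt_const.mul contDiffAt_id)) hs.ne'

theorem cd_E {κ r t : ℝ} (hr : 0 < r) (ht : 0 < t) {y : ℝ} (hy : 0 < y) :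
    ContDiffAt ℝ (⊤ : ℕ∞) (EJ κ r t) y := by
  unfold EJ
  exact (contDiffAt_id.div_const _).mul (cd_R hr ht hy)

/-- transfer along `z` -/
theorem comp_z {z : ℝ → ℝ} {A : ℝ} (hz : IsZ z A) {W : ℝ → ℝ}
    (hW : ∀ y, 0 < y → ContDiffAt ℝ (⊤ : ℕ∞) W y) (hWd : ∀ y, 0 < y → |deriv W y| ≤ 3 / y * W y)
    (hWp : ∀ y, 0 < y → 0 < W y) :
    ContDiff ℝ 1 (fun x => W (z x)) ∧ ∀ x, |deriv (fun x => W (z x)) x| ≤ W (z x) := by
  have zp : ∀ x, 0 < z x := fun x => by linarith [hz.ge x]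
  constructor
  · rw [contDiff_iff_contDiffAt]
    intro x
    exact ((hW (z x) (zp x)).comp x hz.smooth.contDiffAt).of_le (by exact_mod_cast le_top)
  · intro x
    have h1 : HasDerivAt W (deriv W (z x)) (z x) :=
      ((hW (z x) (zp x)).differentiableAt (by simp)).hasDerivAt
    have h2 : HasDerivAt z (deriv z x) x := hda hz.smooth x
    have h3 : deriv (fun x => W (z x)) x = deriv W (z x) * deriv z x := (h1.comp x h2).deriv
    rw [h3, abs_mul]
    have h4 := hWd (z x) (zp x)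
    have h5 := hz.d1 x
    have h6 := hWp (z x) (zp x)
    calc |deriv W (z x)| * |deriv z x| ≤ (3 / z x * W (z x)) * (z x / 10) :=
          mul_le_mul h4 h5 (abs_nonneg _) (mul_nonneg (div_nonneg (by norm_num) (zp x).le) h6.le)
      _ = 3 / 10 * W (z x) := by
          have := (zp x).ne'
          field_simp
      _ ≤ W (z x) := by linarith

theorem h_le {κ r t y : ℝ} (hκ : 0 < κ) (hr : 0 < r) (ht : 0 < t) (hy : 0 < y) :
    hJ κ r t y ≤ (1 / r) ^ κ := by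
  unfold hJ
  refine Real.rpow_le_rpow (by positivity) ?_ hκ.le
  rw [div_le_div_iff₀ (by positivity) hr]
  nlinarith

theorem jwgn (h1 : S_JW) (h2 : S_CUT) (h3 : S_JFLD) (h4 : S_SCL) (h5 : S_WGN) : S_JWGN := by
  intro α K κ A z hα0 hα hK hκ0 hκ hz
  obtain ⟨C, T1, hC, hT1, hT11, hT1', hcut, hcutB⟩ := h2 α K hα0 hα hK
  obtain ⟨D, T2, hD, hT2, hT21, hT2', hfld⟩ := h3 α K κ A z hα0 hα hK hκ0 hκ hz
  set C1 : ℝ := 256 * (3 + D * (15 * C ^ 2 + 4)) with hC1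
  have hC1p : 0 < C1 := by positivity
  refine ⟨C1, min T1 T2, hC1p, lt_min hT1 hT2, (min_le_left _ _).trans hT11, ?_⟩
  intro r t hr ht htT w hw
  have htT1 : t ≤ T1 := htT.trans (min_le_left _ _)
  have htT2 : t ≤ T2 := htT.trans (min_le_right _ _)
  have ht1 : t ≤ 1 := htT1.trans hT11
  have hαt : (4 * α + 3) * t ≤ 1 :=
    (mul_le_mul_of_nonneg_left htT1 (by linarith)).trans hT1'
  obtain ⟨-, -, hl, hl1, -, -, -, -, -, htl, -, -⟩ := h4 α t hα0 hα ht hαt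
  obtain ⟨-, hd01, -, -, -, -, -, -, hmeas, hdk, -, hdc⟩ := hcut t ht htT1
  obtain ⟨hBd, hBc⟩ := hcutB t t ht le_rfl htT1
  have hsm : ContDiff ℝ (⊤ : ℕ∞) (dJ α K t) := hBd.smooth t ⟨le_rfl, le_rfl⟩
  have hind : ∀ x, ind α K t x = 0 ∨ ind α K t x = 1 := by
    intro x
    unfold ind
    by_cases hx : x ∈ nearS α K t
    · right; simp [hx]
    · left; simp [hx]
  have hind1 : ∀ x, ind α K t x = 1 → x ∈ nearS α K t := by
    intro x hx
    by_contra hx'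
    unfold ind at hx
    rw [Set.indicator_of_notMem hx'] at hx
    norm_num at hx
  have hindn : ∀ x, 0 ≤ ind α K t x := fun x => by
    rcases hind x with h | h
    · rw [h]
    · rw [h]; exact zero_le_one
  have hindl : ∀ x, ind α K t x ≤ 1 := fun x => by
    rcases hind x with h | h
    · rw [h]; exact zero_le_one
    · rw [h]
  have hD1 : ∀ x, |deriv (dJ α K t) x| ≤ C / lam α t * ind α K t x := by
    intro x
    have := (hdk 1 le_rfl (by norm_num) x).1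
    rwa [iteratedDeriv_one, pow_one] at this
  have hD2 : ∀ x, |deriv (deriv (dJ α K t)) x| ≤ C / lam α t ^ 2 * ind α K t x := by
    intro x
    have := (hdk 2 (by norm_num) (by norm_num) x).1
    rwa [iteratedDeriv_succ, iteratedDeriv_one] at this
  have hcut' : Cut (dJ α K t) := by
    refine ⟨hsm, fun x => (hd01 x).1, fun x => (hd01 x).2, ⟨C / lam α t, fun x => ?_⟩,
      ⟨C / lam α t ^ 2, fun x => ?_⟩⟩
    · refine (hD1 x).trans ?_
      have := mul_le_mul_of_nonneg_left (hindl x) (by positivity : 0 ≤ C / lam α t)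
      linarith
    · refine (hD2 x).trans ?_
      have := mul_le_mul_of_nonneg_left (hindl x) (by positivity : 0 ≤ C / lam α t ^ 2)
      linarith
  have zp : ∀ x, 0 < z x := fun x => by linarith [hz.ge x]
  have hτ : 0 < t ^ (-κ) := Real.rpow_pos_of_pos ht _
  have hττ : t ^ (1 - κ) = t * t ^ (-κ) := by
    rw [sub_eq_add_neg, Real.rpow_add ht, Real.rpow_one]
  have hc0 : ∀ x, 0 ≤ cJ α K t x := fun x => pow_nonneg (hd01 x).1 10
  have hc1 : ∀ x, cJ α K t x ≤ 1 := fun x => pow_le_one₀ (hd01 x).1 (hd01 x).2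
  -- weights
  have JW : ∀ y : ℝ, 0 < y → _ := fun y hy => h1 κ r t y hκ0 hκ hr ht hy
  have ph : ∀ y, 0 < y → 0 < hJ κ r t y := fun y hy => (JW y hy).2.2.2.2.2.1
  have pQ : ∀ y, 0 < y → 0 < QJ κ r t y := fun y hy => (JW y hy).2.2.2.2.2.2.2.2.1
  have bQ : ∀ y, 0 < y → QJ κ r t y ≤ 3 * κ * t / y * hJ κ r t y := fun y hy =>
    (JW y hy).2.2.2.2.2.2.2.2.2.1
  have pR : ∀ y, 0 < y → 0 < RJ κ r t y := fun y hy => (JW y hy).2.2.2.2.2.2.2.2.2.2.1
  have bR : ∀ y, 0 < y → RJ κ r t y ≤ 2 / y * QJ κ r t y := fun y hy =>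
    (JW y hy).2.2.2.2.2.2.2.2.2.2.2.1
  have pE : ∀ y, 0 < y → 0 < EJ κ r t y := fun y hy => (JW y hy).2.2.2.2.2.2.2.2.2.2.2.2.1
  have bE : ∀ y, 0 < y → EJ κ r t y ≤ 2 / (3 * t) * QJ κ r t y := fun y hy =>
    (JW y hy).2.2.2.2.2.2.2.2.2.2.2.2.2.1
  have dR : ∀ y, 0 < y → |deriv (RJ κ r t) y| ≤ 3 / y * RJ κ r t y := fun y hy =>
    (JW y hy).2.2.2.2.2.2.2.2.2.2.2.2.2.2.1
  have dE : ∀ y, 0 < y → |deriv (EJ κ r t) y| ≤ 3 / y * EJ κ r t y := fun y hy =>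
    (JW y hy).2.2.2.2.2.2.2.2.2.2.2.2.2.2.2.2.1
  have dQ : ∀ y, 0 < y → |deriv (QJ κ r t) y| ≤ 3 / y * QJ κ r t y := fun y hy => by
    rw [(JW y hy).2.1.deriv, abs_neg, abs_of_pos (pR y hy)]
    refine (bR y hy).trans (mul_le_mul_of_nonneg_right ?_ (pQ y hy).le)
    exact div_le_div_of_nonneg_right (by norm_num) hy.le
  set M : ℝ := (1 / r) ^ κ with hM
  have Mh : ∀ x, hJ κ r t (z x) ≤ M := fun x => h_le hκ0 hr ht (zp x)
  have MQh : ∀ x, QJ κ r t (z x) ≤ hJ κ r t (z x) := fun x => by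
    refine (bQ _ (zp x)).trans ?_
    have h3 : 3 * κ * t / z x ≤ 1 := by
      rw [div_le_one (zp x)]; nlinarith [mul_pos hκ0 ht, hz.ge x]
    nlinarith [ph _ (zp x)]
  have MR : ∀ x, RJ κ r t (z x) ≤ M := fun x => by
    refine (bR _ (zp x)).trans (le_trans ?_ (Mh x))
    have h3 : 2 / z x ≤ 1 := by rw [div_le_one (zp x)]; linarith [hz.ge x]
    nlinarith [pQ _ (zp x), MQh x]
  have MEh : ∀ x, EJ κ r t (z x) ≤ hJ κ r t (z x) := fun x => by
    have hz0 := zp x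
    have e2 : 2 / (3 * t) * (3 * κ * t / z x * hJ κ r t (z x)) = 2 * κ / z x * hJ κ r t (z x) := by
      field_simp
    calc EJ κ r t (z x) ≤ 2 / (3 * t) * (3 * κ * t / z x * hJ κ r t (z x)) :=
          (bE _ hz0).trans (mul_le_mul_of_nonneg_left (bQ _ hz0) (by positivity))
      _ = 2 * κ / z x * hJ κ r t (z x) := e2
      _ ≤ 1 * hJ κ r t (z x) := by
          refine mul_le_mul_of_nonneg_right ?_ (ph _ hz0).le
          rw [div_le_one hz0]; linarith [hz.ge x]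
      _ = hJ κ r t (z x) := one_mul _
  obtain ⟨sR, tR⟩ := comp_z hz (fun y hy => cd_R hr ht hy) dR pR
  obtain ⟨sE, tE⟩ := comp_z hz (fun y hy => cd_E hr ht hy) dE pE
  obtain ⟨sQ, tQ⟩ := comp_z hz (fun y hy => cd_Q hr ht hy) dQ pQ
  have ch : Continuous (fun x => hJ κ r t (z x)) := by
    rw [continuous_iff_continuousAt]
    intro x
    exact (cd_h hr ht (zp x)).continuousAt.comp hz.smooth.continuous.continuousAt
  -- near bounds
  have nb : ∀ x, ind α K t x = 1 → QJ κ r t (z x) ≤ D * (t * t ^ (-κ)) ∧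
      RJ κ r t (z x) ≤ D * (t * t ^ (-κ)) ∧ EJ κ r t (z x) ≤ D * t ^ (-κ) := by
    intro x hx
    obtain ⟨-, -, q1, q2, q3⟩ := ((hfld r hr).2 t ht htT2).2 x |>.2.2.2.2.2.2 (hind1 x hx)
    rw [hττ] at q1 q2
    exact ⟨q1, q2, q3⟩
  -- integrability of the right-hand sides
  have m0 : MemLp w 2 := by simpa using hw.2 0
  have m1 : MemLp (deriv w) 2 := by simpa [iteratedDeriv_one] using hw.2 1
  have m2 : MemLp (iteratedDeriv 2 w) 2 := hw.2 2
  have e2 : iteratedDeriv 2 w = deriv (deriv w) := by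
    rw [iteratedDeriv_succ, iteratedDeriv_one]
  have i0 : Integrable (fun x => w x ^ 2) := m0.integrable_sq
  have i1 : Integrable (fun x => deriv w x ^ 2) := m1.integrable_sq
  have i2 : Integrable (fun x => iteratedDeriv 2 w x ^ 2) := m2.integrable_sq
  have cw : Continuous w := hw.1.continuous
  have cc : Continuous (cJ α K t) := by
    unfold cJ; exact hsm.continuous.pow 10
  have cz : Continuous z := hz.smooth.continuous
  have I_H : Integrable (fun x => cJ α K t x * hJ κ r t (z x) * w x ^ 2) := by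
    refine Pool.Agent.Helper5.KV.bint (M := M) i0 (cc.mul ch) fun x => ?_
    rw [abs_of_nonneg (mul_nonneg (hc0 x) (ph _ (zp x)).le)]
    calc cJ α K t x * hJ κ r t (z x) ≤ 1 * hJ κ r t (z x) :=
          mul_le_mul_of_nonneg_right (hc1 x) (ph _ (zp x)).le
      _ ≤ M := by rw [one_mul]; exact Mh x
  have I_Q : Integrable (fun x => cJ α K t x * QJ κ r t (z x) * deriv w x ^ 2) := by
    refine Pool.Agent.Helper5.KV.bint (M := M) i1 (cc.mul sQ.continuous) fun x => ?_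
    rw [abs_of_nonneg (mul_nonneg (hc0 x) (pQ _ (zp x)).le)]
    calc cJ α K t x * QJ κ r t (z x) ≤ 1 * QJ κ r t (z x) :=
          mul_le_mul_of_nonneg_right (hc1 x) (pQ _ (zp x)).le
      _ ≤ M := by rw [one_mul]; exact (MQh x).trans (Mh x)
  have Rη : ∀ x, RJ κ r t (z x) * (z x / (3 * t)) ^ 2 ≤ 1 / t * M := fun x => by
    have hz0 := zp x
    have e1 : RJ κ r t (z x) * (z x / (3 * t)) ^ 2 = z x / (3 * t) * EJ κ r t (z x) := by
      unfold EJ; ring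
    have e2 : z x / (3 * t) * (2 / (3 * t) * (3 * κ * t / z x * hJ κ r t (z x)))
        = 2 * κ / 3 * (1 / t * hJ κ r t (z x)) := by
      field_simp
    rw [e1]
    calc z x / (3 * t) * EJ κ r t (z x)
        ≤ z x / (3 * t) * (2 / (3 * t) * (3 * κ * t / z x * hJ κ r t (z x))) := by
          refine mul_le_mul_of_nonneg_left ((bE _ hz0).trans ?_) (by positivity)
          exact mul_le_mul_of_nonneg_left (bQ _ hz0) (by positivity)
      _ = 2 * κ / 3 * (1 / t * hJ κ r t (z x)) := e2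
      _ ≤ 1 * (1 / t * M) := by
          refine mul_le_mul (by linarith) (mul_le_mul_of_nonneg_left (Mh x) (by positivity)) ?_
            zero_le_one
          have := ph _ hz0
          positivity
      _ = 1 / t * M := one_mul _
  have I_X : Integrable (fun x => cJ α K t x * RJ κ r t (z x) *
      (iteratedDeriv 2 w x + z x / (3 * t) * w x) ^ 2) := by
    refine Integrable.mono' ((i2.const_mul (2 * M)).add (i0.const_mul (2 * (1 / t * M)))) ?_
      (Eventually.of_forall fun x => ?_)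
    · refine ((cc.mul sR.continuous).mul (Continuous.pow ?_ 2)).aestronglyMeasurable
      refine Continuous.add ?_ ((cz.div_const _).mul cw)
      rw [e2]; exact (smd (smd hw.1)).continuous
    · have hRp := (pR _ (zp x)).le
      have hn : 0 ≤ cJ α K t x * RJ κ r t (z x) *
          (iteratedDeriv 2 w x + z x / (3 * t) * w x) ^ 2 :=
        mul_nonneg (mul_nonneg (hc0 x) hRp) (sq_nonneg _)
      rw [Real.norm_eq_abs, abs_of_nonneg hn]
      have a1 : (iteratedDeriv 2 w x + z x / (3 * t) * w x) ^ 2 ≤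
          2 * iteratedDeriv 2 w x ^ 2 + 2 * ((z x / (3 * t)) ^ 2 * w x ^ 2) := by
        nlinarith [sq_nonneg (iteratedDeriv 2 w x - z x / (3 * t) * w x)]
      have a2 : cJ α K t x * RJ κ r t (z x) * (iteratedDeriv 2 w x + z x / (3 * t) * w x) ^ 2 ≤
          1 * RJ κ r t (z x) * (2 * iteratedDeriv 2 w x ^ 2 + 2 * ((z x / (3 * t)) ^ 2 * w x ^ 2)) := by
        refine mul_le_mul (mul_le_mul_of_nonneg_right (hc1 x) hRp) a1 (sq_nonneg _)
          (mul_nonneg zero_le_one hRp)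
      have a3 := mul_le_mul_of_nonneg_right (MR x) (sq_nonneg (iteratedDeriv 2 w x))
      have a4 := mul_le_mul_of_nonneg_right (Rη x) (sq_nonneg (w x))
      simp only [Pi.add_apply]
      nlinarith [a2, a3, a4]
  obtain ⟨B, hB⟩ := Pool.Agent.Helper23.KV.HI_bdd hw
  have i10 : Integrable (fun x => w x ^ 10) := by
    have := Pool.Agent.Helper5.KV.bint (c := fun x => (w x ^ 2) ^ 4) (M := B ^ 4) i0
      ((cw.pow 2).pow 4) (fun x => by
        rw [abs_of_nonneg (pow_nonneg (sq_nonneg _) _)]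
        exact pow_le_pow_left₀ (sq_nonneg _) (hB x) 4)
    refine this.congr (Eventually.of_forall fun x => ?_)
    simp only; ring
  have I_n : Integrable (nrI α t w) := by
    unfold nrI
    exact (((i2.const_mul _).add (i1.const_mul _)).add i0).add (i10.const_mul _)
  have indI : ∀ g : ℝ → ℝ, Integrable g → Integrable (fun x => ind α K t x * g x) := by
    intro g hg
    refine (hg.indicator hmeas).congr (Eventually.of_forall fun x => ?_)
    unfold ind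
    by_cases hx : x ∈ nearS α K t
    · simp [hx]
    · simp [hx]
  have I_N : Integrable (fun x => ind α K t x * nrI α t w x) := indI _ I_n
  have I_N0 : Integrable (fun x => ind α K t x * (lam α t ^ 2 * deriv w x ^ 2 + w x ^ 2)) :=
    indI _ ((i1.const_mul _).add i0)
  have hN0 : 0 ≤ Nd α K t w := integral_nonneg fun x => by positivity
  -- (1)
  obtain ⟨⟨u1, u2⟩, -, u3, -⟩ := core h5 sR (fun y => pR _ (zp y)) MR tR hcut' hw
  obtain ⟨-, ⟨v1, v2⟩, -, v3⟩ := core h5 sE (fun y => pE _ (zp y))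
    (fun x => (MEh x).trans (Mh x)) tE hcut' hw
  obtain ⟨-, ⟨s1, s2⟩, -, s3⟩ := core h5 sQ (fun y => pQ _ (zp y))
    (fun x => (MQh x).trans (Mh x)) tQ hcut' hw
  have k1 : (∫ x, RJ κ r t (z x) * ((deriv (deriv (dJ α K t)) x * w x
      + 2 * (deriv (dJ α K t) x * deriv w x) + dJ α K t x * deriv (deriv w) x) ^ 2
      + (dJ α K t x * w x) ^ 2)) ≤ (3 + D * (15 * C ^ 2 + 4)) *
        (XJ α K κ r z t w + 1 / t * Hc α K κ r z t w + t ^ (-κ) / lam α t ^ 3 * NRf α K t w) := by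
    have e : (3 + D * (15 * C ^ 2 + 4)) *
        (XJ α K κ r z t w + 1 / t * Hc α K κ r z t w + t ^ (-κ) / lam α t ^ 3 * NRf α K t w)
        = ∫ x, (3 + D * (15 * C ^ 2 + 4)) * (cJ α K t x * RJ κ r t (z x) *
          (iteratedDeriv 2 w x + z x / (3 * t) * w x) ^ 2
          + 1 / t * (cJ α K t x * hJ κ r t (z x) * w x ^ 2)
          + t ^ (-κ) / lam α t ^ 3 * (ind α K t x * nrI α t w x)) := by
      rw [integral_const_mul, int3 I_X (I_H.const_mul _) (I_N.const_mul _), integral_const_mul,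
        integral_const_mul]
      rfl
    rw [e]
    refine integral_mono u3 (((I_X.add (I_H.const_mul _)).add (I_N.const_mul _)).const_mul _)
      fun x => ?_
    simp only
    have hz0 := zp x
    have hER : z x / (3 * t) * RJ κ r t (z x) ≤ 2 / (3 * t) * QJ κ r t (z x) := bE _ hz0
    have := ptA (w := w x) (w1 := deriv w x) (w2 := iteratedDeriv 2 w x) hC hD hτ ht hl hl1 htl
      (hc0 x) (hd01 x).1 (hd01 x).2 (hind x) (hdc x) (hD1 x) (hD2 x) (pR _ hz0) (ph _ hz0) hκ0 hκ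
      (hz.ge x) (pQ _ hz0) (bQ _ hz0) (bR _ hz0) hER (fun h => (nb x h).2.1)
    rw [← e2]
    exact this
  have k2 : (∫ x, EJ κ r t (z x) * ((deriv (dJ α K t) x * w x + dJ α K t x * deriv w x) ^ 2
      + (dJ α K t x * w x) ^ 2)) ≤ (1 + D * (2 * C ^ 2 + 3)) *
        (1 / t * Qc α K κ r z t w + Hc α K κ r z t w + t ^ (-κ) / lam α t ^ 3 * NRf α K t w) := by
    have e : (1 + D * (2 * C ^ 2 + 3)) *
        (1 / t * Qc α K κ r z t w + Hc α K κ r z t w + t ^ (-κ) / lam α t ^ 3 * NRf α K t w)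
        = ∫ x, (1 + D * (2 * C ^ 2 + 3)) * (1 / t * (cJ α K t x * QJ κ r t (z x) * deriv w x ^ 2)
          + cJ α K t x * hJ κ r t (z x) * w x ^ 2
          + t ^ (-κ) / lam α t ^ 3 * (ind α K t x * nrI α t w x)) := by
      rw [integral_const_mul, int3 (I_Q.const_mul _) I_H (I_N.const_mul _), integral_const_mul,
        integral_const_mul]
      rfl
    rw [e]
    refine integral_mono v3 ((((I_Q.const_mul _).add I_H).add (I_N.const_mul _)).const_mul _)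
      fun x => ?_
    have hz0 := zp x
    exact ptB hC hD hτ ht hl hl1 (hc0 x) (hd01 x).1 (hd01 x).2 (hind x) (hdc x) (hD1 x)
      (pE _ hz0) (ph _ hz0) hκ0 hκ (hz.ge x) (pQ _ hz0) (bQ _ hz0) (bE _ hz0)
      (fun h => (nb x h).2.2)
  have k3 : (∫ x, QJ κ r t (z x) * ((deriv (dJ α K t) x * w x + dJ α K t x * deriv w x) ^ 2
      + (dJ α K t x * w x) ^ 2)) ≤ (1 + D * (2 * C ^ 2 + 3)) *
        (Qc α K κ r z t w + Hc α K κ r z t w + t ^ (-κ) * NR0f α K t w) := by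
    have e : (1 + D * (2 * C ^ 2 + 3)) *
        (Qc α K κ r z t w + Hc α K κ r z t w + t ^ (-κ) * NR0f α K t w)
        = ∫ x, (1 + D * (2 * C ^ 2 + 3)) * (cJ α K t x * QJ κ r t (z x) * deriv w x ^ 2
          + cJ α K t x * hJ κ r t (z x) * w x ^ 2
          + t ^ (-κ) * (ind α K t x * (lam α t ^ 2 * deriv w x ^ 2 + w x ^ 2))) := by
      rw [integral_const_mul, int3 I_Q I_H (I_N0.const_mul _), integral_const_mul]
      rfl
    rw [e]
    refine integral_mono s3 (((I_Q.add I_H).add (I_N0.const_mul _)).const_mul _)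
      fun x => ?_
    have hz0 := zp x
    exact ptC hC hD hτ ht hl hl1 htl (hc0 x) (hd01 x).1 (hd01 x).2 (hind x) (hdc x) (hD1 x)
      (ph _ hz0) hκ0 hκ (hz.ge x) (pQ _ hz0) (bQ _ hz0) (fun h => (nb x h).1)
  have pX : 0 ≤ XJ α K κ r z t w := integral_nonneg fun x =>
    mul_nonneg (mul_nonneg (hc0 x) (pR _ (zp x)).le) (sq_nonneg _)
  have pH : 0 ≤ Hc α K κ r z t w := integral_nonneg fun x =>
    mul_nonneg (mul_nonneg (hc0 x) (ph _ (zp x)).le) (sq_nonneg _)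
  have pQc : 0 ≤ Qc α K κ r z t w := integral_nonneg fun x =>
    mul_nonneg (mul_nonneg (hc0 x) (pQ _ (zp x)).le) (sq_nonneg _)
  have pN : 0 ≤ NRf α K t w := integral_nonneg fun x =>
    mul_nonneg (hindn x) (by unfold nrI; positivity)
  have pN0 : 0 ≤ NR0f α K t w := integral_nonneg fun x =>
    mul_nonneg (hindn x) (by positivity)
  have hCC : 8 * (1 + D * (2 * C ^ 2 + 3)) ≤ C1 := by
    rw [hC1]
    nlinarith [mul_pos hD (pow_pos hC 2)]
  refine ⟨⟨u1, ?_⟩, ⟨v1, ?_⟩, ⟨s1, ?_⟩⟩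
  · refine u2.trans ?_
    have hNN : 0 ≤ 256 * Nd α K t w ^ 4 := by positivity
    calc 256 * (∫ x, dJ α K t x ^ 2 * w x ^ 2) ^ 4 * _ ≤ 256 * Nd α K t w ^ 4 *
          ((3 + D * (15 * C ^ 2 + 4)) * (XJ α K κ r z t w + 1 / t * Hc α K κ r z t w
            + t ^ (-κ) / lam α t ^ 3 * NRf α K t w)) := mul_le_mul_of_nonneg_left k1 hNN
      _ = C1 * Nd α K t w ^ 4 * (XJ α K κ r z t w + 1 / t * Hc α K κ r z t w
            + t ^ (-κ) / lam α t ^ 3 * NRf α K t w) := by rw [hC1]; ring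
  · refine v2.trans ?_
    have hNN : 0 ≤ 8 * Nd α K t w ^ 2 := by positivity
    have hS : 0 ≤ 1 / t * Qc α K κ r z t w + Hc α K κ r z t w
            + t ^ (-κ) / lam α t ^ 3 * NRf α K t w := by positivity
    calc 8 * (∫ x, dJ α K t x ^ 2 * w x ^ 2) ^ 2 * _ ≤ 8 * Nd α K t w ^ 2 *
          ((1 + D * (2 * C ^ 2 + 3)) * (1 / t * Qc α K κ r z t w + Hc α K κ r z t w
            + t ^ (-κ) / lam α t ^ 3 * NRf α K t w)) := mul_le_mul_of_nonneg_left k2 hNN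
      _ = 8 * (1 + D * (2 * C ^ 2 + 3)) * (Nd α K t w ^ 2 * (1 / t * Qc α K κ r z t w
            + Hc α K κ r z t w + t ^ (-κ) / lam α t ^ 3 * NRf α K t w)) := by ring
      _ ≤ C1 * (Nd α K t w ^ 2 * (1 / t * Qc α K κ r z t w
            + Hc α K κ r z t w + t ^ (-κ) / lam α t ^ 3 * NRf α K t w)) :=
          mul_le_mul_of_nonneg_right hCC (mul_nonneg (by positivity) hS)
      _ = _ := by ring
  · refine s2.trans ?_
    have hNN : 0 ≤ 8 * Nd α K t w ^ 2 := by positivity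
    have hS : 0 ≤ Qc α K κ r z t w + Hc α K κ r z t w + t ^ (-κ) * NR0f α K t w := by positivity
    calc 8 * (∫ x, dJ α K t x ^ 2 * w x ^ 2) ^ 2 * _ ≤ 8 * Nd α K t w ^ 2 *
          ((1 + D * (2 * C ^ 2 + 3)) * (Qc α K κ r z t w + Hc α K κ r z t w
            + t ^ (-κ) * NR0f α K t w)) := mul_le_mul_of_nonneg_left k3 hNN
      _ = 8 * (1 + D * (2 * C ^ 2 + 3)) * (Nd α K t w ^ 2 * (Qc α K κ r z t w
            + Hc α K κ r z t w + t ^ (-κ) * NR0f α K t w)) := by ring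
      _ ≤ C1 * (Nd α K t w ^ 2 * (Qc α K κ r z t w
            + Hc α K κ r z t w + t ^ (-κ) * NR0f α K t w)) :=
          mul_le_mul_of_nonneg_right hCC (mul_nonneg (by positivity) hS)
      _ = _ := by ring

end Pool.Agent.Helper42.KV.JW

namespace Pool.Agent.Helper42.KV

open Pool.Agent.Helper48.KV Pool.Agent.Helper33.KV Pool.Agent.Helper41.KV

theorem jwgn (h1 : S_JW) (h2 : S_CUT) (h3 : S_JFLD) (h4 : S_SCL) (h5 : S_WGN) : S_JWGN :=
  JW.jwgn h1 h2 h3 h4 h5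

end Pool.Agent.Helper42.KV
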