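import Pool.Agent.Helper41.KV.GoalsD

/-!
# Project KV (`MP_66be51_an`), packet RESP, part 1: the residual functional and its derivative
-/

namespace Pool.Agent.Helper42.KV.R

open Pool.Agent.Helper41.KV Pool.Agent.Helper33.KV

open Real MeasureTheory Filter Topology Set

theorem iteratedDeriv_aff (f : ℝ → ℝ) (a b : ℝ) (k : ℕ) (y : ℝ) :
    iteratedDeriv k (fun y' => f (a + b * y')) y = b ^ k * iteratedDeriv k f (a + b * y) := by
  induction k generalizing y with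
  | zero => simp
  | succ k ih =>
    rw [iteratedDeriv_succ]
    have h : iteratedDeriv k (fun y' => f (a + b * y')) =
        fun y => b ^ k * iteratedDeriv k f (a + b * y) := funext ih
    rw [h, deriv_const_mul_field]
    have h2 : deriv (fun y => iteratedDeriv k f (a + b * y)) y =
        b * deriv (iteratedDeriv k f) (a + b * y) := by
      have h3 := deriv_comp_mul_left b (fun z => iteratedDeriv k f (a + z)) y
      rw [h3, deriv_comp_const_add, smul_eq_mul]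
    rw [h2, iteratedDeriv_succ, pow_succ]
    ring

/-- Smoothness of sections. -/
theorem sec_open {U : Set (ℝ × ℝ)} (hU : IsOpen U) (t : ℝ) : IsOpen {y | (t, y) ∈ U} :=
  hU.preimage (by fun_prop : Continuous fun y : ℝ => (t, y))

theorem sec_smooth {U : Set (ℝ × ℝ)} {V : ℝ → ℝ → ℝ}
    (hV : ContDiffOn ℝ (⊤ : ℕ∞) (fun q : ℝ × ℝ => V q.1 q.2) U) (t : ℝ) :
    ContDiffOn ℝ (⊤ : ℕ∞) (V t) {y | (t, y) ∈ U} := by
  have h : ContDiffOn ℝ (⊤ : ℕ∞) (fun y : ℝ => (t, y)) {y | (t, y) ∈ U} :=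
    (contDiff_const.prodMk contDiff_id).contDiffOn
  exact hV.comp h fun y hy => hy

theorem dt_hasDerivAt {U : Set (ℝ × ℝ)} (hU : IsOpen U) {V : ℝ → ℝ → ℝ}
    (hV : ContDiffOn ℝ (⊤ : ℕ∞) (fun q : ℝ × ℝ => V q.1 q.2) U) {t y : ℝ} (h : (t, y) ∈ U) :
    HasDerivAt (fun τ => V τ y) (fderiv ℝ (fun q : ℝ × ℝ => V q.1 q.2) (t, y) (1, 0)) t := by
  have h1 : HasFDerivAt (fun q : ℝ × ℝ => V q.1 q.2)
      (fderiv ℝ (fun q : ℝ × ℝ => V q.1 q.2) (t, y)) (t, y) :=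
    ((hV.contDiffAt (hU.mem_nhds h)).differentiableAt (by simp)).hasFDerivAt
  have h2 : HasDerivAt (fun τ : ℝ => (τ, y)) ((1 : ℝ), (0 : ℝ)) t :=
    (hasDerivAt_id t).prodMk (hasDerivAt_const t y)
  exact h1.comp_hasDerivAt t h2

theorem dt_smooth {U : Set (ℝ × ℝ)} (hU : IsOpen U) {V : ℝ → ℝ → ℝ}
    (hV : ContDiffOn ℝ (⊤ : ℕ∞) (fun q : ℝ × ℝ => V q.1 q.2) U) (t : ℝ) :
    ContDiffOn ℝ (⊤ : ℕ∞) (fun y => deriv (fun τ => V τ y) t) {y | (t, y) ∈ U} := by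
  have h1 : ContDiffOn ℝ (⊤ : ℕ∞) (fderiv ℝ (fun q : ℝ × ℝ => V q.1 q.2)) U :=
    hV.fderiv_of_isOpen hU (by simp)
  have h : ContDiffOn ℝ (⊤ : ℕ∞) (fun y : ℝ => (t, y)) {y | (t, y) ∈ U} :=
    (contDiff_const.prodMk contDiff_id).contDiffOn
  have h2 : ContDiffOn ℝ (⊤ : ℕ∞)
      (fun y => fderiv ℝ (fun q : ℝ × ℝ => V q.1 q.2) (t, y) (1, 0)) {y | (t, y) ∈ U} :=
    (h1.comp h fun y hy => hy).clm_apply contDiffOn_const
  exact h2.congr fun y hy => (dt_hasDerivAt hU hV hy).deriv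

/-- iterated derivatives on an open set -/
theorem iter_smooth {S : Set ℝ} (hS : IsOpen S) {f : ℝ → ℝ} (hf : ContDiffOn ℝ (⊤ : ℕ∞) f S)
    (k : ℕ) : ContDiffOn ℝ (⊤ : ℕ∞) (iteratedDeriv k f) S := by
  induction k with
  | zero => simpa using hf
  | succ k ih =>
    rw [iteratedDeriv_succ]
    exact ih.deriv_of_isOpen hS (by simp)

theorem iter_hasDerivAt {S : Set ℝ} (hS : IsOpen S) {f : ℝ → ℝ}
    (hf : ContDiffOn ℝ (⊤ : ℕ∞) f S) (k : ℕ) {y : ℝ} (hy : y ∈ S) :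
    HasDerivAt (iteratedDeriv k f) (iteratedDeriv (k + 1) f y) y := by
  rw [iteratedDeriv_succ]
  exact (((iter_smooth hS hf k).contDiffAt (hS.mem_nhds hy)).differentiableAt
    (by simp)).hasDerivAt

/-- The value of the residual functional. -/
noncomputable def R0 (a r p0 a0 a1 a3 y : ℝ) : ℝ :=
  p0 + a3 - a1 + 5 * a0 ^ 4 * a1 - a * r * (a0 / 2 + y * a1)

/-- The value of the derivative of the residual functional. -/
noncomputable def R1 (a r p1 a0 a1 a2 a4 y : ℝ) : ℝ :=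
  p1 + a4 - a2 + (20 * a0 ^ 3 * a1 ^ 2 + 5 * a0 ^ 4 * a2) - a * r * (3 / 2 * a1 + y * a2)

theorem res_val {α t : ℝ} {V : ℝ → ℝ → ℝ} {S : Set ℝ} (hS : IsOpen S)
    (hf : ContDiffOn ℝ (⊤ : ℕ∞) (V t) S) {y : ℝ} (hy : y ∈ S) :
    resE α V t y = R0 (2 * α + 1) (rho α t) (lam α t ^ 3 * deriv (fun τ => V τ y) t) (V t y)
      (iteratedDeriv 1 (V t) y) (iteratedDeriv 3 (V t) y) y := by
  have e1 : iteratedDeriv 1 (V t) = deriv (V t) := iteratedDeriv_one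
  have e2 : iteratedDeriv 2 (V t) = deriv (deriv (V t)) := by
    rw [iteratedDeriv_succ, iteratedDeriv_one]
  have h0 := iter_hasDerivAt hS hf 0 hy
  have h2 := iter_hasDerivAt hS hf 2 hy
  rw [iteratedDeriv_zero] at h0
  rw [e2] at h2
  have h := (h2.sub h0).add (h0.pow 5)
  have hd : deriv (fun y' => deriv (deriv (V t)) y' - V t y' + V t y' ^ 5) y =
      iteratedDeriv (2 + 1) (V t) y - iteratedDeriv (0 + 1) (V t) y +
        ((5 : ℕ) : ℝ) * V t y ^ (5 - 1) * iteratedDeriv (0 + 1) (V t) y := h.deriv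
  unfold resE R0 Lam
  rw [hd, e1]
  norm_num
  ring

theorem res_der {α t : ℝ} {V : ℝ → ℝ → ℝ} {S : Set ℝ} (hS : IsOpen S)
    (hf : ContDiffOn ℝ (⊤ : ℕ∞) (V t) S)
    (hft : ContDiffOn ℝ (⊤ : ℕ∞) (fun y => deriv (fun τ => V τ y) t) S) {y : ℝ} (hy : y ∈ S) :
    HasDerivAt (resE α V t) (R1 (2 * α + 1) (rho α t)
      (lam α t ^ 3 * deriv (fun y' => deriv (fun τ => V τ y') t) y) (V t y)
      (iteratedDeriv 1 (V t) y) (iteratedDeriv 2 (V t) y) (iteratedDeriv 4 (V t) y) y) y := by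
  have h0 := iter_hasDerivAt hS hf 0 hy
  have h1 := iter_hasDerivAt hS hf 1 hy
  have h3 := iter_hasDerivAt hS hf 3 hy
  rw [iteratedDeriv_zero] at h0
  have ht : HasDerivAt (fun y => deriv (fun τ => V τ y) t)
      (deriv (fun y' => deriv (fun τ => V τ y') t) y) y :=
    ((hft.contDiffAt (hS.mem_nhds hy)).differentiableAt (by simp)).hasDerivAt
  have h : HasDerivAt (fun y => R0 (2 * α + 1) (rho α t)
      (lam α t ^ 3 * deriv (fun τ => V τ y) t) (V t y)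
      (iteratedDeriv 1 (V t) y) (iteratedDeriv 3 (V t) y) y)
      (R1 (2 * α + 1) (rho α t)
      (lam α t ^ 3 * deriv (fun y' => deriv (fun τ => V τ y') t) y) (V t y)
      (iteratedDeriv 1 (V t) y) (iteratedDeriv 2 (V t) y) (iteratedDeriv 4 (V t) y) y) y := by
    unfold R0 R1
    have h5 := ((((ht.const_mul (lam α t ^ 3)).add h3).sub h1).add
      (((h0.pow 4).const_mul 5).mul h1)).sub
      (((h0.div_const 2).add ((hasDerivAt_id y).mul h1)).const_mul ((2 * α + 1) * rho α t))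
    refine HasDerivAt.congr_deriv (f := fun y => lam α t ^ 3 * deriv (fun τ => V τ y) t +
      iteratedDeriv 3 (V t) y - iteratedDeriv 1 (V t) y + 5 * V t y ^ 4 * iteratedDeriv 1 (V t) y -
        (2 * α + 1) * rho α t * (V t y / 2 + y * iteratedDeriv 1 (V t) y)) h5 ?_
    simp only [Pi.pow_apply, id]
    norm_num
    ring
  refine h.congr_of_eventuallyEq ?_
  filter_upwards [hS.mem_nhds hy] with z hz
  exact res_val hS hf hz

theorem res_smooth {α t : ℝ} {V : ℝ → ℝ → ℝ} {S : Set ℝ} (hS : IsOpen S)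
    (hf : ContDiffOn ℝ (⊤ : ℕ∞) (V t) S)
    (hft : ContDiffOn ℝ (⊤ : ℕ∞) (fun y => deriv (fun τ => V τ y) t) S) :
    ContDiffOn ℝ (⊤ : ℕ∞) (resE α V t) S := by
  have h1 := iter_smooth hS hf 1
  have h3 := iter_smooth hS hf 3
  have h : ContDiffOn ℝ (⊤ : ℕ∞) (fun y => R0 (2 * α + 1) (rho α t)
      (lam α t ^ 3 * deriv (fun τ => V τ y) t) (V t y)
      (iteratedDeriv 1 (V t) y) (iteratedDeriv 3 (V t) y) y) S := by
    unfold R0
    exact ((((contDiffOn_const.mul hft).add h3).sub h1).add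
      ((contDiffOn_const.mul (hf.pow 4)).mul h1)).sub
      (contDiffOn_const.mul ((hf.div_const 2).add (contDiffOn_id.mul h1)))
  exact h.congr fun y hy => res_val hS hf hy

/-! ### Numerical estimates -/

theorem R0_bound {A a r p0 a0 a1 a3 y ε : ℝ} (hA : 1 ≤ A) (ha : |a| ≤ 3) (hr0 : 0 ≤ r)
    (hr : r ≤ 1) (hε : 0 ≤ ε) (h0 : |a0| ≤ A) (h0' : r * |a0| ≤ A * ε) (hp : |p0| ≤ A * ε)
    (h1 : |a1| ≤ A * ε) (h3 : |a3| ≤ A * ε) (hy : r * |y * a1| ≤ A * ε) :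
    |R0 a r p0 a0 a1 a3 y| ≤ 40 * A ^ 5 * ε := by
  have hA0 : 0 < A := by linarith
  have hA5 : A ≤ A ^ 5 := le_self_pow₀ hA (by norm_num)
  have e1 : |5 * a0 ^ 4 * a1| ≤ 5 * A ^ 5 * ε := by
    rw [abs_mul, abs_mul, abs_pow, abs_of_pos (by norm_num : (0:ℝ) < 5)]
    calc 5 * |a0| ^ 4 * |a1| ≤ 5 * A ^ 4 * (A * ε) := by gcongr
      _ = _ := by ring
  have e2 : |a * r * (a0 / 2 + y * a1)| ≤ 3 * (2 * (A * ε)) := by
    rw [mul_assoc, abs_mul]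
    have h : |r * (a0 / 2 + y * a1)| ≤ 2 * (A * ε) := by
      rw [abs_mul, abs_of_nonneg hr0]
      have h4 : |a0 / 2 + y * a1| ≤ |a0| / 2 + |y * a1| := by
        refine (abs_add_le _ _).trans ?_
        rw [abs_div, abs_of_pos (by norm_num : (0:ℝ) < 2)]
      calc r * |a0 / 2 + y * a1| ≤ r * (|a0| / 2 + |y * a1|) := by gcongr
        _ = r * |a0| / 2 + r * |y * a1| := by ring
        _ ≤ A * ε / 2 + A * ε := by linarith
        _ ≤ _ := by nlinarith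
    exact mul_le_mul ha h (abs_nonneg _) (by norm_num)
  have e3 : |R0 a r p0 a0 a1 a3 y| ≤ |p0| + |a3| + |a1| + |5 * a0 ^ 4 * a1| +
      |a * r * (a0 / 2 + y * a1)| := by
    unfold R0
    rw [abs_le]
    constructor
    · linarith [neg_abs_le p0, neg_abs_le a3, le_abs_self a1, neg_abs_le (5 * a0 ^ 4 * a1),
        le_abs_self (a * r * (a0 / 2 + y * a1))]
    · linarith [le_abs_self p0, le_abs_self a3, neg_abs_le a1, le_abs_self (5 * a0 ^ 4 * a1),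
        neg_abs_le (a * r * (a0 / 2 + y * a1))]
  have e4 : A * ε ≤ A ^ 5 * ε := by gcongr
  nlinarith

theorem R1_bound {A a r p1 a0 a1 a2 a4 y ε : ℝ} (hA : 1 ≤ A) (ha : |a| ≤ 3) (hr0 : 0 ≤ r)
    (hr : r ≤ 1) (hε : 0 ≤ ε) (hε1 : ε ≤ 1) (h0 : |a0| ≤ A) (hp : |p1| ≤ A * ε)
    (h1 : |a1| ≤ A * ε) (h2 : |a2| ≤ A * ε) (h4 : |a4| ≤ A * ε) (hy : r * |y * a2| ≤ A * ε) :
    |R1 a r p1 a0 a1 a2 a4 y| ≤ 40 * A ^ 5 * ε := by
  have hA0 : 0 < A := by linarith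
  have hA5 : A ≤ A ^ 5 := le_self_pow₀ hA (by norm_num)
  have e1 : |5 * a0 ^ 4 * a2| ≤ 5 * A ^ 5 * ε := by
    rw [abs_mul, abs_mul, abs_pow, abs_of_pos (by norm_num : (0:ℝ) < 5)]
    calc 5 * |a0| ^ 4 * |a2| ≤ 5 * A ^ 4 * (A * ε) := by gcongr
      _ = _ := by ring
  have e1' : |20 * a0 ^ 3 * a1 ^ 2| ≤ 20 * A ^ 5 * ε := by
    rw [abs_mul, abs_mul, abs_pow, abs_pow, abs_of_pos (by norm_num : (0:ℝ) < 20)]
    have h5 : |a1| ≤ A := h1.trans (by nlinarith)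
    calc 20 * |a0| ^ 3 * |a1| ^ 2 = 20 * |a0| ^ 3 * (|a1| * |a1|) := by ring
      _ ≤ 20 * A ^ 3 * (A * (A * ε)) := by gcongr
      _ = _ := by ring
  have e2 : |a * r * (3 / 2 * a1 + y * a2)| ≤ 3 * (3 * (A * ε)) := by
    rw [mul_assoc, abs_mul]
    have h : |r * (3 / 2 * a1 + y * a2)| ≤ 3 * (A * ε) := by
      rw [abs_mul, abs_of_nonneg hr0]
      have h4 : |3 / 2 * a1 + y * a2| ≤ 3 / 2 * |a1| + |y * a2| := by
        refine (abs_add_le _ _).trans ?_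
        rw [abs_mul, abs_of_pos (by norm_num : (0:ℝ) < 3 / 2)]
      have h6 : r * |a1| ≤ A * ε := by nlinarith [abs_nonneg a1]
      calc r * |3 / 2 * a1 + y * a2| ≤ r * (3 / 2 * |a1| + |y * a2|) := by gcongr
        _ = 3 / 2 * (r * |a1|) + r * |y * a2| := by ring
        _ ≤ 3 / 2 * (A * ε) + A * ε := by linarith
        _ ≤ _ := by nlinarith
    exact mul_le_mul ha h (abs_nonneg _) (by norm_num)
  have e3 : |R1 a r p1 a0 a1 a2 a4 y| ≤ |p1| + |a4| + |a2| + |20 * a0 ^ 3 * a1 ^ 2| +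
      |5 * a0 ^ 4 * a2| + |a * r * (3 / 2 * a1 + y * a2)| := by
    unfold R1
    rw [abs_le]
    constructor
    · linarith [neg_abs_le p1, neg_abs_le a4, le_abs_self a2, neg_abs_le (5 * a0 ^ 4 * a2),
        neg_abs_le (20 * a0 ^ 3 * a1 ^ 2), le_abs_self (a * r * (3 / 2 * a1 + y * a2))]
    · linarith [le_abs_self p1, le_abs_self a4, neg_abs_le a2, le_abs_self (5 * a0 ^ 4 * a2),
        le_abs_self (20 * a0 ^ 3 * a1 ^ 2), neg_abs_le (a * r * (3 / 2 * a1 + y * a2))]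
  have e4 : A * ε ≤ A ^ 5 * ε := by gcongr
  nlinarith

theorem abs_le_of_sub {a b A ε : ℝ} (h : |a - b| ≤ A * ε) (hb : |b| ≤ A) (hAε : A * ε ≤ A) :
    |a| ≤ 2 * A := by
  have h1 := abs_add_le (a - b) b
  rw [sub_add_cancel] at h1
  linarith

/-- Difference estimate. -/
theorem R0_diff {A a r p0 a0 a1 a3 q0 b0 b1 b3 y ε : ℝ} (hA : 1 ≤ A) (ha : |a| ≤ 3)
    (hr0 : 0 ≤ r) (hr : r ≤ 1) (hε : 0 ≤ ε) (hε1 : ε ≤ 1) (hb0 : |b0| ≤ A) (hb1 : |b1| ≤ A)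
    (hp : |p0 - q0| ≤ A * ε) (h0 : |a0 - b0| ≤ A * ε) (h1 : |a1 - b1| ≤ A * ε)
    (h3 : |a3 - b3| ≤ A * ε) (hy : |y * (a1 - b1)| ≤ A * ε) :
    |R0 a r p0 a0 a1 a3 y - R0 a r q0 b0 b1 b3 y| ≤ 400 * A ^ 5 * ε := by
  have hA0 : 0 < A := by linarith
  have hA5 : A ≤ A ^ 5 := le_self_pow₀ hA (by norm_num)
  have hAε : A * ε ≤ A := by nlinarith
  have ha0 := abs_le_of_sub h0 hb0 hAε
  have ha1 := abs_le_of_sub h1 hb1 hAε
  have e1 : |5 * a0 ^ 4 * a1 - 5 * b0 ^ 4 * b1| ≤ 150 * A ^ 5 * ε + 5 * A ^ 5 * ε := by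
    have h5 : 5 * a0 ^ 4 * a1 - 5 * b0 ^ 4 * b1 =
        5 * ((a0 - b0) * (a0 ^ 3 + a0 ^ 2 * b0 + a0 * b0 ^ 2 + b0 ^ 3) * a1) +
          5 * (b0 ^ 4 * (a1 - b1)) := by ring
    have h6 : |a0 ^ 3 + a0 ^ 2 * b0 + a0 * b0 ^ 2 + b0 ^ 3| ≤ 8 * A ^ 3 + 4 * A ^ 3 + 2 * A ^ 3
        + A ^ 3 := by
      refine (abs_add_le _ _).trans (add_le_add ((abs_add_le _ _).trans
        (add_le_add ((abs_add_le _ _).trans (add_le_add ?_ ?_)) ?_)) ?_)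
      · rw [abs_pow]
        calc |a0| ^ 3 ≤ (2 * A) ^ 3 := by gcongr
          _ = _ := by ring
      · rw [abs_mul, abs_pow]
        calc |a0| ^ 2 * |b0| ≤ (2 * A) ^ 2 * A := by gcongr
          _ = _ := by ring
      · rw [abs_mul, abs_pow]
        calc |a0| * |b0| ^ 2 ≤ (2 * A) * A ^ 2 := by gcongr
          _ = _ := by ring
      · rw [abs_pow]
        gcongr
    rw [h5]
    refine (abs_add_le _ _).trans ?_
    rw [abs_mul, abs_mul, abs_mul, abs_mul, abs_mul, abs_pow,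
      abs_of_pos (by norm_num : (0:ℝ) < 5)]
    have h7 : |a0 - b0| * |a0 ^ 3 + a0 ^ 2 * b0 + a0 * b0 ^ 2 + b0 ^ 3| * |a1| ≤
        (A * ε) * (8 * A ^ 3 + 4 * A ^ 3 + 2 * A ^ 3 + A ^ 3) * (2 * A) := by gcongr
    have h8 : |b0| ^ 4 * |a1 - b1| ≤ A ^ 4 * (A * ε) := by gcongr
    have h9 : 0 ≤ A ^ 5 * ε := by positivity
    nlinarith
  have e2 : |a * r * ((a0 - b0) / 2 + y * (a1 - b1))| ≤ 3 * (2 * (A * ε)) := by
    rw [mul_assoc, abs_mul]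
    have h : |r * ((a0 - b0) / 2 + y * (a1 - b1))| ≤ 2 * (A * ε) := by
      rw [abs_mul, abs_of_nonneg hr0]
      have h4 : |(a0 - b0) / 2 + y * (a1 - b1)| ≤ A * ε / 2 + A * ε := by
        refine (abs_add_le _ _).trans (add_le_add ?_ hy)
        rw [abs_div, abs_of_pos (by norm_num : (0:ℝ) < 2)]
        linarith
      calc r * |(a0 - b0) / 2 + y * (a1 - b1)| ≤ 1 * (A * ε / 2 + A * ε) := by gcongr
        _ ≤ _ := by nlinarith
    exact mul_le_mul ha h (abs_nonneg _) (by norm_num)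
  have e3 : R0 a r p0 a0 a1 a3 y - R0 a r q0 b0 b1 b3 y = (p0 - q0) + (a3 - b3) - (a1 - b1) +
      (5 * a0 ^ 4 * a1 - 5 * b0 ^ 4 * b1) - a * r * ((a0 - b0) / 2 + y * (a1 - b1)) := by
    unfold R0
    ring
  have e4 : A * ε ≤ A ^ 5 * ε := by gcongr
  have e5 : 0 ≤ A ^ 5 * ε := by positivity
  rw [e3, abs_le]
  rw [abs_le] at hp h3 h1 e1 e2
  constructor
  · linarith [hp.1, h3.1, h1.2, e1.1, e2.2]
  · linarith [hp.2, h3.2, h1.1, e1.2, e2.1]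

theorem R1_diff {A a r p1 a0 a1 a2 a4 q1 b0 b1 b2 b4 y ε : ℝ} (hA : 1 ≤ A) (ha : |a| ≤ 3)
    (hr0 : 0 ≤ r) (hr : r ≤ 1) (hε : 0 ≤ ε) (hε1 : ε ≤ 1) (hb0 : |b0| ≤ A) (hb1 : |b1| ≤ A)
    (hb2 : |b2| ≤ A) (hp : |p1 - q1| ≤ A * ε) (h0 : |a0 - b0| ≤ A * ε) (h1 : |a1 - b1| ≤ A * ε)
    (h2 : |a2 - b2| ≤ A * ε) (h4 : |a4 - b4| ≤ A * ε) (hy : |y * (a2 - b2)| ≤ A * ε) :
    |R1 a r p1 a0 a1 a2 a4 y - R1 a r q1 b0 b1 b2 b4 y| ≤ 1000 * A ^ 5 * ε := by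
  have hA0 : 0 < A := by linarith
  have hA5 : A ≤ A ^ 5 := le_self_pow₀ hA (by norm_num)
  have hAε : A * ε ≤ A := by nlinarith
  have ha0 := abs_le_of_sub h0 hb0 hAε
  have ha1 := abs_le_of_sub h1 hb1 hAε
  have ha2 := abs_le_of_sub h2 hb2 hAε
  have e1 : |5 * a0 ^ 4 * a2 - 5 * b0 ^ 4 * b2| ≤ 150 * A ^ 5 * ε + 5 * A ^ 5 * ε := by
    have h5 : 5 * a0 ^ 4 * a2 - 5 * b0 ^ 4 * b2 =
        5 * ((a0 - b0) * (a0 ^ 3 + a0 ^ 2 * b0 + a0 * b0 ^ 2 + b0 ^ 3) * a2) +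
          5 * (b0 ^ 4 * (a2 - b2)) := by ring
    have h6 : |a0 ^ 3 + a0 ^ 2 * b0 + a0 * b0 ^ 2 + b0 ^ 3| ≤ 8 * A ^ 3 + 4 * A ^ 3 + 2 * A ^ 3
        + A ^ 3 := by
      refine (abs_add_le _ _).trans (add_le_add ((abs_add_le _ _).trans
        (add_le_add ((abs_add_le _ _).trans (add_le_add ?_ ?_)) ?_)) ?_)
      · rw [abs_pow]
        calc |a0| ^ 3 ≤ (2 * A) ^ 3 := by gcongr
          _ = _ := by ring
      · rw [abs_mul, abs_pow]
        calc |a0| ^ 2 * |b0| ≤ (2 * A) ^ 2 * A := by gcongr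
          _ = _ := by ring
      · rw [abs_mul, abs_pow]
        calc |a0| * |b0| ^ 2 ≤ (2 * A) * A ^ 2 := by gcongr
          _ = _ := by ring
      · rw [abs_pow]
        gcongr
    rw [h5]
    refine (abs_add_le _ _).trans ?_
    rw [abs_mul, abs_mul, abs_mul, abs_mul, abs_mul, abs_pow,
      abs_of_pos (by norm_num : (0:ℝ) < 5)]
    have h7 : |a0 - b0| * |a0 ^ 3 + a0 ^ 2 * b0 + a0 * b0 ^ 2 + b0 ^ 3| * |a2| ≤
        (A * ε) * (8 * A ^ 3 + 4 * A ^ 3 + 2 * A ^ 3 + A ^ 3) * (2 * A) := by gcongr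
    have h8 : |b0| ^ 4 * |a2 - b2| ≤ A ^ 4 * (A * ε) := by gcongr
    have h9 : 0 ≤ A ^ 5 * ε := by positivity
    nlinarith
  have e1' : |20 * a0 ^ 3 * a1 ^ 2 - 20 * b0 ^ 3 * b1 ^ 2| ≤
      560 * A ^ 5 * ε + 60 * A ^ 5 * ε := by
    have h5 : 20 * a0 ^ 3 * a1 ^ 2 - 20 * b0 ^ 3 * b1 ^ 2 =
        20 * ((a0 - b0) * (a0 ^ 2 + a0 * b0 + b0 ^ 2) * a1 ^ 2) +
          20 * (b0 ^ 3 * ((a1 - b1) * (a1 + b1))) := by ring
    have h6 : |a0 ^ 2 + a0 * b0 + b0 ^ 2| ≤ 4 * A ^ 2 + 2 * A ^ 2 + A ^ 2 := by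
      refine (abs_add_le _ _).trans (add_le_add ((abs_add_le _ _).trans (add_le_add ?_ ?_)) ?_)
      · rw [abs_pow]
        calc |a0| ^ 2 ≤ (2 * A) ^ 2 := by gcongr
          _ = _ := by ring
      · rw [abs_mul]
        calc |a0| * |b0| ≤ (2 * A) * A := by gcongr
          _ = _ := by ring
      · rw [abs_pow]
        gcongr
    have h6' : |a1 + b1| ≤ 2 * A + A := (abs_add_le _ _).trans (add_le_add ha1 hb1)
    rw [h5]
    refine (abs_add_le _ _).trans ?_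
    rw [abs_mul, abs_mul, abs_mul, abs_mul, abs_mul, abs_mul, abs_pow, abs_pow,
      abs_of_pos (by norm_num : (0:ℝ) < 20)]
    have h7 : |a0 - b0| * |a0 ^ 2 + a0 * b0 + b0 ^ 2| * |a1| ^ 2 ≤
        (A * ε) * (4 * A ^ 2 + 2 * A ^ 2 + A ^ 2) * (2 * A) ^ 2 := by gcongr
    have h8 : |b0| ^ 3 * (|a1 - b1| * |a1 + b1|) ≤ A ^ 3 * ((A * ε) * (2 * A + A)) := by gcongr
    have h9 : 0 ≤ A ^ 5 * ε := by positivity
    nlinarith
  have e2 : |a * r * (3 / 2 * (a1 - b1) + y * (a2 - b2))| ≤ 3 * (3 * (A * ε)) := by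
    rw [mul_assoc, abs_mul]
    have h : |r * (3 / 2 * (a1 - b1) + y * (a2 - b2))| ≤ 3 * (A * ε) := by
      rw [abs_mul, abs_of_nonneg hr0]
      have h4 : |3 / 2 * (a1 - b1) + y * (a2 - b2)| ≤ 3 / 2 * (A * ε) + A * ε := by
        refine (abs_add_le _ _).trans (add_le_add ?_ hy)
        rw [abs_mul, abs_of_pos (by norm_num : (0:ℝ) < 3 / 2)]
        linarith
      calc r * |3 / 2 * (a1 - b1) + y * (a2 - b2)| ≤ 1 * (3 / 2 * (A * ε) + A * ε) := by gcongr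
        _ ≤ _ := by nlinarith
    exact mul_le_mul ha h (abs_nonneg _) (by norm_num)
  have e3 : R1 a r p1 a0 a1 a2 a4 y - R1 a r q1 b0 b1 b2 b4 y = (p1 - q1) + (a4 - b4) - (a2 - b2) +
      (20 * a0 ^ 3 * a1 ^ 2 - 20 * b0 ^ 3 * b1 ^ 2) +
      (5 * a0 ^ 4 * a2 - 5 * b0 ^ 4 * b2) - a * r * (3 / 2 * (a1 - b1) + y * (a2 - b2)) := by
    unfold R1
    ring
  have e4 : A * ε ≤ A ^ 5 * ε := by gcongr
  have e5 : 0 ≤ A ^ 5 * ε := by positivity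
  rw [e3, abs_le]
  rw [abs_le] at hp h4 h2 e1 e1' e2
  constructor
  · linarith [hp.1, h4.1, h2.2, e1.1, e1'.1, e2.2]
  · linarith [hp.2, h4.2, h2.1, e1.2, e1'.2, e2.1]

end Pool.Agent.Helper42.KV.R
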