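import Pool.Agent.Helper42.KV.RESPa

/-!
# Project KV (`MP_66be51_an`), packet RESP, part 2: the error of the right field
-/

namespace Pool.Agent.Helper42.KV.R

open Pool.Agent.Helper41.KV Pool.Agent.Helper33.KV

open Real MeasureTheory Filter Topology Set

/-- the domain -/
def UU (α : ℝ) : Set (ℝ × ℝ) := {q | q.1 ∈ Ioi (0:ℝ) ∧ 0 < sig α q.1 + lam α q.1 * q.2}

theorem UU_open {α : ℝ} (hs : ContDiffOn ℝ (⊤ : ℕ∞) (sig α) (Ioi 0))
    (hl : ContDiffOn ℝ (⊤ : ℕ∞) (lam α) (Ioi 0)) : IsOpen (UU α) := by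
  have h1 : IsOpen {q : ℝ × ℝ | q.1 ∈ Ioi (0:ℝ)} := isOpen_Ioi.preimage continuous_fst
  have h2 : ContinuousOn (fun q : ℝ × ℝ => sig α q.1 + lam α q.1 * q.2)
      {q : ℝ × ℝ | q.1 ∈ Ioi (0:ℝ)} := by
    have e1 : ContinuousOn (fun q : ℝ × ℝ => sig α q.1) {q : ℝ × ℝ | q.1 ∈ Ioi (0:ℝ)} :=
      hs.continuousOn.comp continuousOn_fst fun q hq => hq
    have e2 : ContinuousOn (fun q : ℝ × ℝ => lam α q.1) {q : ℝ × ℝ | q.1 ∈ Ioi (0:ℝ)} :=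
      hl.continuousOn.comp continuousOn_fst fun q hq => hq
    exact e1.add (e2.mul continuousOn_snd)
  exact h2.isOpen_inter_preimage h1 isOpen_Ioi

theorem x_smooth {α : ℝ} (hs : ContDiffOn ℝ (⊤ : ℕ∞) (sig α) (Ioi 0))
    (hl : ContDiffOn ℝ (⊤ : ℕ∞) (lam α) (Ioi 0)) :
    ContDiffOn ℝ (⊤ : ℕ∞) (fun q : ℝ × ℝ => sig α q.1 + lam α q.1 * q.2) (UU α) := by
  have e1 : ContDiffOn ℝ (⊤ : ℕ∞) (fun q : ℝ × ℝ => sig α q.1) (UU α) :=
    hs.comp contDiffOn_fst fun q hq => hq.1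
  have e2 : ContDiffOn ℝ (⊤ : ℕ∞) (fun q : ℝ × ℝ => lam α q.1) (UU α) :=
    hl.comp contDiffOn_fst fun q hq => hq.1
  exact e1.add (e2.mul contDiffOn_snd)

theorem FR_smooth {f0 : ℝ → ℝ} {n : ℕ}
    (hc : ∀ i : ℕ, ContDiffOn ℝ (⊤ : ℕ∞) ((Fs f0 n).coeff i) (Ioi 0)) :
    ContDiffOn ℝ (⊤ : ℕ∞) (fun q : ℝ × ℝ => FR f0 n q.1 q.2) (univ ×ˢ Ioi 0) := by
  unfold FR
  refine ContDiffOn.sum fun i _ => ?_
  exact (contDiffOn_fst.pow i).mul ((hc i).comp contDiffOn_snd fun q hq => hq.2)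

theorem Fhat_smooth {α : ℝ} {f0 : ℝ → ℝ} {n : ℕ} (hC : S_CURV) (h0 : 0 < α) (h1 : α < 1)
    (hc : ∀ i : ℕ, ContDiffOn ℝ (⊤ : ℕ∞) ((Fs f0 n).coeff i) (Ioi 0)) :
    ContDiffOn ℝ (⊤ : ℕ∞) (fun q : ℝ × ℝ => Fhat α f0 n q.1 q.2) (UU α) := by
  obtain ⟨hc1, hs, hl, -, -, -⟩ := hC α h0 h1
  have e2 : ContDiffOn ℝ (⊤ : ℕ∞) (fun q : ℝ × ℝ => lam α q.1) (UU α) :=
    hl.comp contDiffOn_fst fun q hq => hq.1
  have e3 : ContDiffOn ℝ (⊤ : ℕ∞) (fun q : ℝ × ℝ => Real.sqrt (lam α q.1)) (UU α) :=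
    e2.sqrt fun q hq => (hc1 q.1 hq.1).2.1.ne'
  have e4 : ContDiffOn ℝ (⊤ : ℕ∞)
      (fun q : ℝ × ℝ => (q.1, sig α q.1 + lam α q.1 * q.2)) (UU α) :=
    contDiffOn_fst.prodMk (x_smooth hs hl)
  exact e3.mul ((FR_smooth hc).comp e4 fun q hq => ⟨mem_univ _, hq.2⟩)

theorem Fhat_iter (α : ℝ) (f0 : ℝ → ℝ) (n : ℕ) (t y : ℝ) (k : ℕ) :
    iteratedDeriv k (Fhat α f0 n t) y =
      Real.sqrt (lam α t) * (lam α t ^ k * iteratedDeriv k (FR f0 n t) (sig α t + lam α t * y)) := by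
  have h : Fhat α f0 n t = fun y => Real.sqrt (lam α t) *
      (fun y => FR f0 n t (sig α t + lam α t * y)) y := rfl
  rw [h, iteratedDeriv_const_mul_field, iteratedDeriv_aff]

/-- The error of the right field. -/
theorem resE_Fhat {α : ℝ} {f0 : ℝ → ℝ} {n : ℕ} (hC : S_CURV) (h0 : 0 < α) (h1 : α < 1)
    (hc : ∀ i : ℕ, ContDiffOn ℝ (⊤ : ℕ∞) ((Fs f0 n).coeff i) (Ioi 0)) {t y : ℝ}
    (h : (t, y) ∈ UU α) :
    resE α (Fhat α f0 n) t y = Real.sqrt (lam α t) * lam α t ^ 3 *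
      (deriv (fun τ => FR f0 n τ (sig α t + lam α t * y)) t
        + iteratedDeriv 3 (FR f0 n t) (sig α t + lam α t * y)
            + deriv (fun x => FR f0 n t x ^ 5) (sig α t + lam α t * y)) := by
  obtain ⟨hc1, hs, hl, -, -, -⟩ := hC α h0 h1
  have ht : 0 < t := h.1
  obtain ⟨hsig, hlam, hrho, hlsr, -, -, dsig, dlam, -, -⟩ := hc1 t ht
  have hU := UU_open hs hl
  have hF := Fhat_smooth hC h0 h1 hc
  set x := sig α t + lam α t * y with hx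
  have hx0 : 0 < x := h.2
  rw [res_val (sec_open hU t) (sec_smooth hF t) h, Fhat_iter, Fhat_iter, ← hx]
  -- derivatives of FR at (t, x)
  have hW : IsOpen ((univ : Set ℝ) ×ˢ Ioi (0:ℝ)) := isOpen_univ.prod isOpen_Ioi
  have hFR := FR_smooth hc
  have hmem : ((t, x) : ℝ × ℝ) ∈ (univ : Set ℝ) ×ˢ Ioi (0:ℝ) := ⟨mem_univ _, hx0⟩
  have hfd : HasFDerivAt (fun q : ℝ × ℝ => FR f0 n q.1 q.2)
      (fderiv ℝ (fun q : ℝ × ℝ => FR f0 n q.1 q.2) (t, x)) (t, x) :=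
    ((hFR.contDiffAt (hW.mem_nhds hmem)).differentiableAt (by simp)).hasFDerivAt
  set D := fderiv ℝ (fun q : ℝ × ℝ => FR f0 n q.1 q.2) (t, x) with hDdef
  have hdt : deriv (fun τ => FR f0 n τ x) t = D (1, 0) := (dt_hasDerivAt hW hFR hmem).deriv
  have hdx : HasDerivAt (FR f0 n t) (D (0, 1)) x := by
    have h2 : HasDerivAt (fun z : ℝ => (t, z)) ((0 : ℝ), (1 : ℝ)) x :=
      (hasDerivAt_const x t).prodMk (hasDerivAt_id x)
    exact hfd.comp_hasDerivAt x h2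
  have hdx1 : iteratedDeriv 1 (FR f0 n t) x = D (0, 1) := by
    rw [iteratedDeriv_one, hdx.deriv]
  -- the time derivative
  have hxt : HasDerivAt (fun τ => sig α τ + lam α τ * y)
      (1 / lam α t ^ 2 + (2 * α + 1) * rho α t / lam α t ^ 2 * y) t :=
    dsig.add (dlam.mul_const y)
  have hcomp : HasDerivAt (fun τ => FR f0 n τ (sig α τ + lam α τ * y))
      (D (1, 1 / lam α t ^ 2 + (2 * α + 1) * rho α t / lam α t ^ 2 * y)) t := by
    have h2 : HasDerivAt (fun τ : ℝ => (τ, sig α τ + lam α τ * y))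
        ((1 : ℝ), 1 / lam α t ^ 2 + (2 * α + 1) * rho α t / lam α t ^ 2 * y) t :=
      (hasDerivAt_id t).prodMk hxt
    exact HasFDerivAt.comp_hasDerivAt t (f := fun τ : ℝ => (τ, sig α τ + lam α τ * y)) hfd h2
  have hD : ∀ a b : ℝ, D (a, b) = a * D (1, 0) + b * D (0, 1) := by
    intro a b
    have : ((a, b) : ℝ × ℝ) = a • ((1 : ℝ), (0 : ℝ)) + b • ((0 : ℝ), (1 : ℝ)) := by
      ext <;> simp
    rw [this, map_add, map_smul, map_smul, smul_eq_mul, smul_eq_mul]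
  have hsq := dlam.sqrt hlam.ne'
  have hFt : HasDerivAt (fun τ => Fhat α f0 n τ y)
      ((2 * α + 1) * rho α t / lam α t ^ 2 / (2 * Real.sqrt (lam α t)) * FR f0 n t x +
        Real.sqrt (lam α t) *
          (D (1, 1 / lam α t ^ 2 + (2 * α + 1) * rho α t / lam α t ^ 2 * y))) t :=
    hsq.mul hcomp
  have hp5 : deriv (fun x => FR f0 n t x ^ 5) x = 5 * FR f0 n t x ^ 4 * D (0, 1) := by
    have := (hdx.pow 5).deriv
    have e : deriv (fun x => FR f0 n t x ^ 5) x = deriv (FR f0 n t ^ 5) x := rfl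
    rw [e, this]
    norm_num
  rw [hFt.deriv, hdt, hp5, hdx1, hD]
  have hFh : Fhat α f0 n t y = Real.sqrt (lam α t) * FR f0 n t x := rfl
  rw [hFh]
  set L := lam α t with hL
  set s := Real.sqrt L with hsdef
  have hs0 : 0 < s := Real.sqrt_pos.mpr hlam
  have hs2 : L = s ^ 2 := (Real.sq_sqrt hlam.le).symm
  unfold R0
  rw [hs2]
  field_simp
  ring

theorem rho_le_one {α t : ℝ} (h0 : 0 < α) (hs : 0 < sig α t) (hs1 : sig α t ≤ 1) :
    rho α t ≤ 1 := Real.rpow_le_one hs.le hs1 (by linarith)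

/-- one term of the error -/
theorem term_bound {α : ℝ} (hC : S_CURV) (h0 : 0 < α) (h1 : α < 1) {t x : ℝ} (ht : 0 < t)
    (hs1 : sig α t ≤ 1) (hx : sig α t / 2 ≤ x) {n i k : ℕ} (hi : n ≤ i) (hi2 : i ≤ 5 * n)
    (hk : k ≤ 1) :
    t ^ i * lam α t ^ k * x ^ (α/2 - 1/2 - 3 * ((i : ℝ) + 1) - k) ≤
      8 ^ (5 * n) * 2 * rho α t ^ (2 * n) * x ^ (α/2 - 7/2) := by
  obtain ⟨hc1, -⟩ := hC α h0 h1
  obtain ⟨hsig, hlam, hrho, hlsr, -, hl2s, -⟩ := hc1 t ht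
  have hr1 : rho α t ≤ 1 := rho_le_one h0 hsig hs1
  have hx0 : 0 < x := by linarith
  have hpow : x ^ (α/2 - 1/2 - 3 * ((i : ℝ) + 1) - k) = x ^ (α/2 - 7/2) / ((x ^ 3) ^ i * x ^ k) := by
    have e : (α/2 - 1/2 - 3 * ((i : ℝ) + 1) - k) = (α/2 - 7/2) - ((3 * i + k : ℕ) : ℝ) := by
      push_cast
      ring
    rw [e, Real.rpow_sub hx0, Real.rpow_natCast, pow_add, pow_mul]
  rw [hpow]
  have hxp : 0 < x ^ (α/2 - 7/2) := Real.rpow_pos_of_pos hx0 _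
  have h3 : t / x ^ 3 ≤ 8 * rho α t ^ 2 := by
    rw [div_le_iff₀ (by positivity)]
    have hx3 : (sig α t / 2) ^ 3 ≤ x ^ 3 := by gcongr
    have ht3 : t ≤ sig α t ^ 3 * rho α t ^ 2 := by
      have : sig α t ^ 3 * rho α t ^ 2 = (4 * α + 3) * t := by
        rw [← hl2s, hlsr]
        ring
      rw [this]
      nlinarith
    calc t ≤ sig α t ^ 3 * rho α t ^ 2 := ht3
      _ = 8 * rho α t ^ 2 * (sig α t / 2) ^ 3 := by ring
      _ ≤ 8 * rho α t ^ 2 * x ^ 3 := by gcongr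
  have h4 : lam α t / x ≤ 2 := by
    rw [div_le_iff₀ hx0, hlsr]
    nlinarith
  have h5 : (t / x ^ 3) ^ i ≤ 8 ^ (5 * n) * rho α t ^ (2 * n) := by
    calc (t / x ^ 3) ^ i ≤ (8 * rho α t ^ 2) ^ i := by gcongr
      _ = 8 ^ i * rho α t ^ (2 * i) := by rw [mul_pow, pow_mul]
      _ ≤ 8 ^ (5 * n) * rho α t ^ (2 * n) := by
          apply mul_le_mul (pow_le_pow_right₀ (by norm_num) hi2)
            (pow_le_pow_of_le_one hrho.le hr1 (by omega)) (by positivity) (by positivity)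
  have h6 : (lam α t / x) ^ k ≤ 2 := by
    interval_cases k
    · simp
    · simpa using h4
  calc t ^ i * lam α t ^ k * (x ^ (α/2 - 7/2) / ((x ^ 3) ^ i * x ^ k))
      = (t / x ^ 3) ^ i * (lam α t / x) ^ k * x ^ (α/2 - 7/2) := by
        rw [div_pow, div_pow]
        field_simp
    _ ≤ (8 ^ (5 * n) * rho α t ^ (2 * n)) * 2 * x ^ (α/2 - 7/2) := by
        gcongr
    _ = _ := by ring

/-- bound of the error of the right field -/
theorem Fhat_bound {α : ℝ} {f0 : ℝ → ℝ} {n : ℕ} (hC : S_CURV) (hF : S_FS) (h0 : 0 < α)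
    (h1 : α < 1) (hf : IsS (α/2 - 1/2) f0) :
    (∀ i : ℕ, ContDiffOn ℝ (⊤ : ℕ∞) ((Fs f0 n).coeff i) (Ioi 0)) ∧
    ∃ C : ℝ, 0 ≤ C ∧ ∀ t y : ℝ, 0 < t → sig α t ≤ 1 → sig α t / 2 ≤ sig α t + lam α t * y →
      ∀ k ≤ 1, |iteratedDeriv k (resE α (Fhat α f0 n) t) y| ≤
        C * lam α t ^ ((7 : ℝ)/2) * rho α t ^ (2 * n) * (sig α t + lam α t * y) ^ (α/2 - 7/2) := by
  obtain ⟨hcoeff, r, hr, heq⟩ := hF α f0 h0 h1 hf n
  have hc : ∀ i : ℕ, ContDiffOn ℝ (⊤ : ℕ∞) ((Fs f0 n).coeff i) (Ioi 0) := fun i => (hcoeff i).1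
  refine ⟨hc, ?_⟩
  have hb : ∀ i k : ℕ, ∃ C : ℝ, ∀ x : ℝ, 0 < x →
      |iteratedDeriv k (r i) x| ≤ C * x ^ (α/2 - 1/2 - 3 * ((i : ℝ) + 1) - k) := fun i k =>
    (hr i).2.2.2 k
  choose Cr hCr using hb
  refine ⟨∑ i ∈ Finset.Icc n (5 * n), (|Cr i 0| + |Cr i 1|) * (8 ^ (5 * n) * 2),
    Finset.sum_nonneg fun i _ => by positivity, fun t y ht hs1 hx k hk => ?_⟩
  obtain ⟨hc1, hs, hl, -, -, -⟩ := hC α h0 h1
  obtain ⟨hsig, hlam, hrho, hlsr, -, -, -, -, -, -⟩ := hc1 t ht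
  have hU := UU_open hs hl
  have hx0 : 0 < sig α t + lam α t * y := by linarith
  have hmem : (t, y) ∈ UU α := ⟨ht, hx0⟩
  set x := sig α t + lam α t * y with hxdef
  have hev : resE α (Fhat α f0 n) t =ᶠ[𝓝 y] fun y => (Real.sqrt (lam α t) * lam α t ^ 3) *
      ∑ i ∈ Finset.Icc n (5 * n), t ^ i * r i (sig α t + lam α t * y) := by
    filter_upwards [(sec_open hU t).mem_nhds hmem] with z hz
    rw [resE_Fhat hC h0 h1 hc hz, heq t _ hz.2]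
  have hsm : ∀ i, ContDiffAt ℝ (k : ℕ) (fun y => r i (sig α t + lam α t * y)) y := by
    intro i
    have e1 : ContDiffAt ℝ (⊤ : ℕ∞) (r i) x := (hr i).1.contDiffAt (isOpen_Ioi.mem_nhds hx0)
    have e2 : ContDiffAt ℝ (⊤ : ℕ∞) (fun y => sig α t + lam α t * y) y :=
      contDiffAt_const.add (contDiffAt_const.mul contDiffAt_id)
    exact (e1.comp y e2).of_le (by exact_mod_cast le_top)
  have hval : iteratedDeriv k (resE α (Fhat α f0 n) t) y = (Real.sqrt (lam α t) * lam α t ^ 3) *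
      ∑ i ∈ Finset.Icc n (5 * n), t ^ i * (lam α t ^ k * iteratedDeriv k (r i) x) := by
    rw [hev.iteratedDeriv_eq, iteratedDeriv_const_mul_field, iteratedDeriv_fun_sum
      (fun i _ => contDiffAt_const.mul (hsm i))]
    congr 1
    refine Finset.sum_congr rfl fun i _ => ?_
    rw [iteratedDeriv_const_mul_field, iteratedDeriv_aff]
  have hl72 : Real.sqrt (lam α t) * lam α t ^ 3 = lam α t ^ ((7 : ℝ)/2) := by
    rw [Real.sqrt_eq_rpow, ← Real.rpow_natCast, ← Real.rpow_add hlam]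
    norm_num
  rw [hval, hl72, abs_mul, abs_of_pos (Real.rpow_pos_of_pos hlam _)]
  have hsum : |∑ i ∈ Finset.Icc n (5 * n), t ^ i * (lam α t ^ k * iteratedDeriv k (r i) x)| ≤
      ∑ i ∈ Finset.Icc n (5 * n), ((|Cr i 0| + |Cr i 1|) * (8 ^ (5 * n) * 2)) *
        (rho α t ^ (2 * n) * x ^ (α/2 - 7/2)) := by
    refine (Finset.abs_sum_le_sum_abs _ _).trans (Finset.sum_le_sum fun i hi => ?_)
    rw [Finset.mem_Icc] at hi
    have e1 := hCr i k x hx0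
    have e2 := term_bound hC h0 h1 ht hs1 hx hi.1 hi.2 hk
    have e3 : Cr i k ≤ |Cr i 0| + |Cr i 1| := by
      interval_cases k
      · linarith [le_abs_self (Cr i 0), abs_nonneg (Cr i 1)]
      · linarith [le_abs_self (Cr i 1), abs_nonneg (Cr i 0)]
    have hxp : 0 < x ^ (α/2 - 1/2 - 3 * ((i : ℝ) + 1) - k) := Real.rpow_pos_of_pos hx0 _
    rw [abs_mul, abs_mul, abs_of_pos (pow_pos ht i), abs_of_pos (pow_pos hlam k)]
    calc t ^ i * (lam α t ^ k * |iteratedDeriv k (r i) x|)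
        ≤ t ^ i * (lam α t ^ k * (Cr i k * x ^ (α/2 - 1/2 - 3 * ((i : ℝ) + 1) - k))) := by gcongr
      _ ≤ t ^ i * (lam α t ^ k * ((|Cr i 0| + |Cr i 1|) *
            x ^ (α/2 - 1/2 - 3 * ((i : ℝ) + 1) - k))) := by gcongr
      _ = (|Cr i 0| + |Cr i 1|) *
            (t ^ i * lam α t ^ k * x ^ (α/2 - 1/2 - 3 * ((i : ℝ) + 1) - k)) := by ring
      _ ≤ (|Cr i 0| + |Cr i 1|) * (8 ^ (5 * n) * 2 * rho α t ^ (2 * n) * x ^ (α/2 - 7/2)) := by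
          gcongr
      _ = _ := by ring
  rw [← Finset.sum_mul] at hsum
  calc _ ≤ lam α t ^ ((7 : ℝ)/2) * _ := mul_le_mul_of_nonneg_left hsum
          (Real.rpow_pos_of_pos hlam _).le
    _ = _ := by ring

end Pool.Agent.Helper42.KV.R
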