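import Pool.Agent.Helper42.KV.RESPb

/-!
# Project KV (`MP_66be51_an`), packet RESP, part 3: the bracket near the soliton
-/

namespace Pool.Agent.Helper42.KV.R

open Pool.Agent.Helper41.KV Pool.Agent.Helper33.KV

open Real MeasureTheory Filter Topology Set

theorem Q_iter3 (hQ : S_QF) (y : ℝ) :
    iteratedDeriv 3 Q y = iteratedDeriv 1 Q y - 5 * Q y ^ 4 * iteratedDeriv 1 Q y := by
  obtain ⟨hs, -, -, -, -, h2, -⟩ := hQ
  have e2 : iteratedDeriv 2 Q = fun y => Q y - Q y ^ 5 := by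
    rw [iteratedDeriv_succ, iteratedDeriv_one]
    funext z
    exact h2 z
  have h0 : HasDerivAt Q (iteratedDeriv 1 Q y) y := by
    rw [iteratedDeriv_one]
    exact (hs.differentiable (by simp) y).hasDerivAt
  rw [iteratedDeriv_succ, e2]
  have := (h0.sub (h0.pow 5)).deriv
  have e : deriv (fun y => Q y - Q y ^ 5) y = deriv (Q - Q ^ 5) y := rfl
  rw [e, this]
  norm_num

theorem sect_smooth (hM : S_MCL1) {Φ : F3} (h : Φ ∈ MT 0) (r l : ℝ) :
    ContDiff ℝ (⊤ : ℕ∞) (Φ r l) := by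
  obtain ⟨-, -, -, -, -, -, -, -, -, -, -, -, -, -, -, -, h1, -⟩ := hM
  have e : ContDiff ℝ (⊤ : ℕ∞) (fun y : ℝ => (r, l, y)) :=
    contDiff_const.prodMk (contDiff_const.prodMk contDiff_id)
  exact (h1 Φ h).comp e

/-- The region. -/
def OO (α θ T : ℝ) : Set (ℝ × ℝ) :=
  {q | q.1 ∈ Ioo 0 T ∧ -1 < rho α q.1 ^ θ * q.2 ∧ rho α q.1 * q.2 < 1/2}

theorem OO_open {α θ T : ℝ} (hC : S_CURV) (h0 : 0 < α) (h1 : α < 1) : IsOpen (OO α θ T) := by
  obtain ⟨hc1, -, -, hr, -, -⟩ := hC α h0 h1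
  have hO : IsOpen {q : ℝ × ℝ | q.1 ∈ Ioo 0 T} := isOpen_Ioo.preimage continuous_fst
  have e1 : ContinuousOn (fun q : ℝ × ℝ => rho α q.1) {q : ℝ × ℝ | q.1 ∈ Ioo 0 T} :=
    hr.continuousOn.comp continuousOn_fst fun q hq => hq.1
  have e2 : ContinuousOn (fun q : ℝ × ℝ => rho α q.1 ^ θ * q.2) {q : ℝ × ℝ | q.1 ∈ Ioo 0 T} :=
    (e1.rpow_const fun q hq => Or.inl (hc1 q.1 hq.1).2.2.1.ne').mul continuousOn_snd
  have e3 : ContinuousOn (fun q : ℝ × ℝ => rho α q.1 * q.2) {q : ℝ × ℝ | q.1 ∈ Ioo 0 T} :=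
    e1.mul continuousOn_snd
  exact (e2.prodMk e3).isOpen_inter_preimage hO (isOpen_Ioi.prod isOpen_Iio :
    IsOpen (Ioi (-1 : ℝ) ×ˢ Iio (1/2 : ℝ)))

/-- elementary facts in the region `-1 ≤ ρ^θ y` -/
theorem left_pos {α θ : ℝ} (hC : S_CURV) (h0 : 0 < α) (h1 : α < 1) {t y : ℝ} (ht : 0 < t)
    (hθ : 2 * rho α t ^ (1 - θ) ≤ 1/2) (h : -1 ≤ rho α t ^ θ * y) :
    -(1/4) ≤ rho α t * y ∧ sig α t / 2 ≤ sig α t + lam α t * y := by
  obtain ⟨hc1, -⟩ := hC α h0 h1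
  obtain ⟨hsig, hlam, hrho, hlsr, -⟩ := hc1 t ht
  have e1 : rho α t = rho α t ^ (1 - θ) * rho α t ^ θ := by
    rw [← Real.rpow_add hrho]
    simp
  have hp : 0 < rho α t ^ (1 - θ) := Real.rpow_pos_of_pos hrho _
  have e2 : -(1/4) ≤ rho α t * y := by
    rw [e1, mul_assoc]
    nlinarith
  refine ⟨e2, ?_⟩
  rw [hlsr]
  nlinarith

theorem chO_one {x : ℝ} (h1 : -(1/2) ≤ x) (h2 : x ≤ 1/2) : chO x = 1 := by
  unfold chO
  rw [Real.smoothTransition.one_of_one_le (by linarith),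
    Real.smoothTransition.one_of_one_le (by linarith), one_mul]

section
variable {α θ T : ℝ} {J n : ℕ} {R P h0 h1 h2 h3 : ℝ → ℝ} {p : ℕ → Polynomial ℝ} {c1 a0 : ℝ}
    {ω2 ω3 : ℝ → ℝ} {e3 : Polynomial ℝ} {w : F3}

/-- Properties of `T` used below. -/
structure TT (α θ T : ℝ) (J n : ℕ) (R P : ℝ → ℝ) (p : ℕ → Polynomial ℝ) (w : F3) : Prop where
  sg : ∀ t, 0 < t → t ≤ T → sig α t < 1/4
  rh : ∀ t, 0 < t → t ≤ T → 2 * rho α t ^ (1 - θ) ≤ 1/2
  rep : ∀ t, 0 < t → t ≤ T → ∀ y, -1 ≤ rho α t ^ θ * y → vin α θ R P w (fZero α p J) n t y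
        = chO (sig α t + lam α t * y) * (Q y + w (rho α t) (Real.log (sig α t)) y)
          + Real.sqrt (lam α t) * FR (fZero α p J) n t (sig α t + lam α t * y)
  sm : ContDiffOn ℝ (⊤ : ℕ∞) (fun q : ℝ × ℝ => vin α θ R P w (fZero α p J) n q.1 q.2)
        (Set.Ioo 0 T ×ˢ Set.univ)

theorem v_eq (hC : S_CURV) (hα0 : 0 < α) (hα1 : α < 1) (hT : TT α θ T J n R P p w) {t y : ℝ}
    (h : (t, y) ∈ OO α θ T) : vin α θ R P w (fZero α p J) n t y =
      Q y + w (rho α t) (Real.log (sig α t)) y + Fhat α (fZero α p J) n t y := by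
  obtain ⟨hc1, -⟩ := hC α hα0 hα1
  obtain ⟨ht, hy1, hy2⟩ := h
  obtain ⟨hsig, hlam, hrho, hlsr, -⟩ := hc1 t ht.1
  have hs4 := hT.sg t ht.1 ht.2.le
  have hl := left_pos hC hα0 hα1 ht.1 (hT.rh t ht.1 ht.2.le) hy1.le
  rw [hT.rep t ht.1 ht.2.le y hy1.le, chO_one]
  · rw [one_mul]
    rfl
  · linarith [hl.2]
  · simp only at hy2
    rw [hlsr]
    nlinarith

theorem F_eq (hC : S_CURV) (hI : S_INNR) (hD : Dat α J n R P h0 h1 h2 h3 p c1 a0 ω2 ω3 e3 w)
    (hT : TT α θ T J n R P p w) {t y : ℝ}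
    (h : (t, y) ∈ OO α θ T) : Fhat α (fZero α p J) n t y =
      Fh α h0 h1 h2 h3 n (gZero p J) (rho α t) (Real.log (sig α t)) y := by
  obtain ⟨ht, hy1, hy2⟩ := h
  have hs4 := hT.sg t ht.1 ht.2.le
  have hl := left_pos hC hD.a_pos hD.a_lt ht.1 (hT.rh t ht.1 ht.2.le) hy1.le
  refine hI α h0 h1 h2 h3 p J n hD.a_pos hD.a_lt hD.aux t y ht.1 (by linarith) ?_
  rw [abs_le]
  simp only at hy2
  exact ⟨by linarith [hl.1], hy2.le⟩

theorem OO_sub_UU (hC : S_CURV) (hα0 : 0 < α) (hα1 : α < 1) (hT : TT α θ T J n R P p w) {t y : ℝ}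
    (h : (t, y) ∈ OO α θ T) : (t, y) ∈ UU α := by
  obtain ⟨ht, hy1, hy2⟩ := h
  have hl := left_pos hC hα0 hα1 ht.1 (hT.rh t ht.1 ht.2.le) hy1.le
  obtain ⟨hc1, -⟩ := hC α hα0 hα1
  obtain ⟨hsig, -⟩ := hc1 t ht.1
  refine ⟨ht.1, ?_⟩
  simp only
  linarith [hl.2]

/-- Main identity near the soliton. -/
theorem near_eq (hQ : S_QF) (hM : S_MCL1) (hC : S_CURV) (hI : S_INNR) (hTD : S_TD) (hF : S_FS)
    (hZ : S_FZ)
    (hD : Dat α J n R P h0 h1 h2 h3 p c1 a0 ω2 ω3 e3 w) (hT : TT α θ T J n R P p w) {t y : ℝ}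
    (h : (t, y) ∈ OO α θ T) :
    resE α (vin α θ R P w (fZero α p J) n) t y =
      Bk α (Fh α h0 h1 h2 h3 n (gZero p J)) w (rho α t) (Real.log (sig α t)) y +
        resE α (Fhat α (fZero α p J) n) t y := by
  have hα0 := hD.a_pos
  have hα1 := hD.a_lt
  obtain ⟨hcf, -⟩ := Fhat_bound (n := n) hC hF hα0 hα1 (hZ α p J hα0 hα1)
  obtain ⟨hc1, hs, hl, -, -, -⟩ := hC α hα0 hα1
  have hO := OO_open (θ := θ) (T := T) hC hα0 hα1
  have ht : t ∈ Ioo 0 T := h.1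
  obtain ⟨hsig, hlam, hrho, hlsr, -, -, -, -, -, -⟩ := hc1 t ht.1
  have hUo : IsOpen (Ioo 0 T ×ˢ (univ : Set ℝ)) := isOpen_Ioo.prod isOpen_univ
  have hmV : (t, y) ∈ Ioo 0 T ×ˢ (univ : Set ℝ) := ⟨ht, mem_univ _⟩
  have hUU := OO_sub_UU hC hα0 hα1 hT h
  have hFs := Fhat_smooth hC hα0 hα1 hcf
  have hUUo := UU_open hs hl
  set V := vin α θ R P w (fZero α p J) n with hVdef
  set Fhh := Fh α h0 h1 h2 h3 n (gZero p J) with hFhh
  set FF := Fhat α (fZero α p J) n with hFF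
  set r := rho α t with hr
  set l := Real.log (sig α t) with hldef
  have hw0 : w ∈ MT 0 := hM.1 0 1 (Nat.zero_le _) hD.wT
  have hws := sect_smooth hM hw0 r l
  rw [res_val (sec_open hUo t) (sec_smooth hT.sm t) hmV,
    res_val (sec_open hUUo t) (sec_smooth hFs t) hUU]
  -- time derivative
  have hVt : deriv (fun τ => V τ y) t = r / lam α t ^ 3 * Dop α w r l y +
      deriv (fun τ => FF τ y) t := by
    have hev : (fun τ => V τ y) =ᶠ[𝓝 t] fun τ =>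
        Q y + w (rho α τ) (Real.log (sig α τ)) y + FF τ y := by
      have hsec : IsOpen {τ | (τ, y) ∈ OO α θ T} :=
        hO.preimage (by fun_prop : Continuous fun τ : ℝ => (τ, y))
      filter_upwards [hsec.mem_nhds h] with τ hτ
      exact v_eq hC hα0 hα1 hT hτ
    have hwt := (hTD α hα0 hα1).1 w (Or.inl hw0) t y ht.1
    have hFt := (dt_hasDerivAt hUUo hFs hUU)
    have := ((hwt.const_add (Q y)).add (hFt.differentiableAt.hasDerivAt)).congr_of_eventuallyEq hev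
    exact this.deriv
  -- space derivatives
  have hsecO : IsOpen {z | (t, z) ∈ OO α θ T} := sec_open hO t
  have hVk : ∀ k : ℕ, iteratedDeriv k (V t) y =
      iteratedDeriv k Q y + iteratedDeriv k (w r l) y + iteratedDeriv k (FF t) y := by
    intro k
    have hev : V t =ᶠ[𝓝 y] fun z => (Q z + w r l z) + FF t z := by
      filter_upwards [hsecO.mem_nhds h] with z hz
      exact v_eq hC hα0 hα1 hT hz
    have hQs : ContDiffAt ℝ (k : ℕ) Q y := (hQ.1.contDiffAt).of_le (by exact_mod_cast le_top)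
    have hwk : ContDiffAt ℝ (k : ℕ) (w r l) y :=
      (hws.contDiffAt).of_le (by exact_mod_cast le_top)
    have hFk : ContDiffAt ℝ (k : ℕ) (FF t) y :=
      (((sec_smooth hFs t).contDiffAt ((sec_open hUUo t).mem_nhds hUU))).of_le
        (by exact_mod_cast le_top)
    rw [hev.iteratedDeriv_eq, iteratedDeriv_fun_add (hQs.add hwk) hFk,
      iteratedDeriv_fun_add hQs hwk]
  -- the bracket
  have hQ0 : HasDerivAt Q (iteratedDeriv 1 Q y) y := by
    rw [iteratedDeriv_one]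
    exact (hQ.1.differentiable (by simp) y).hasDerivAt
  have hF0 : HasDerivAt (FF t) (iteratedDeriv 1 (FF t) y) y := by
    have := iter_hasDerivAt (sec_open hUUo t) (sec_smooth hFs t) 0 hUU
    rwa [iteratedDeriv_zero] at this
  have hw1 : HasDerivAt (w r l) (iteratedDeriv 1 (w r l) y) y := by
    have := iter_hasDerivAt isOpen_univ hws.contDiffOn 0 (mem_univ y)
    rwa [iteratedDeriv_zero] at this
  have hw3 : HasDerivAt (iteratedDeriv 2 (w r l)) (iteratedDeriv 3 (w r l) y) y :=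
    iter_hasDerivAt isOpen_univ hws.contDiffOn 2 (mem_univ y)
  have hdd : ∀ z, dY (dY w) r l z = iteratedDeriv 2 (w r l) z := by
    intro z
    rw [iteratedDeriv_succ, iteratedDeriv_one]
    rfl
  have hd1 : dY w r l y = iteratedDeriv 1 (w r l) y := by
    rw [iteratedDeriv_one]
    rfl
  have hbr : deriv (fun y' => dY (dY w) r l y' - w r l y'
        + ((Q y' + Fhh r l y' + w r l y') ^ 5 - Fhh r l y' ^ 5 - Q y' ^ 5)) y =
      iteratedDeriv 3 (w r l) y - iteratedDeriv 1 (w r l) y +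
        (5 * (Q y + FF t y + w r l y) ^ 4 *
          (iteratedDeriv 1 Q y + iteratedDeriv 1 (FF t) y + iteratedDeriv 1 (w r l) y) -
        5 * FF t y ^ 4 * iteratedDeriv 1 (FF t) y - 5 * Q y ^ 4 * iteratedDeriv 1 Q y) := by
    have hev : (fun y' => dY (dY w) r l y' - w r l y'
        + ((Q y' + Fhh r l y' + w r l y') ^ 5 - Fhh r l y' ^ 5 - Q y' ^ 5)) =ᶠ[𝓝 y]
        fun y' => iteratedDeriv 2 (w r l) y' - w r l y'
        + ((Q y' + FF t y' + w r l y') ^ 5 - FF t y' ^ 5 - Q y' ^ 5) := by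
      filter_upwards [hsecO.mem_nhds h] with z hz
      have hFe : FF t z = Fhh r l z := F_eq hC hI hD hT hz
      rw [hdd, ← hFe]
    rw [hev.deriv_eq]
    have h5 := (hw3.sub hw1).add (((((hQ0.add hF0).add hw1).pow 5).sub (hF0.pow 5)).sub
      (hQ0.pow 5))
    refine (HasDerivAt.deriv (f := fun y' => iteratedDeriv 2 (w r l) y' - w r l y'
        + ((Q y' + FF t y' + w r l y') ^ 5 - FF t y' ^ 5 - Q y' ^ 5)) h5).trans ?_
    simp only [Pi.add_apply]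
    norm_num
  have hV0 : V t y = Q y + w r l y + FF t y := v_eq hC hα0 hα1 hT h
  rw [hVt, hVk, hVk, show vin α θ R P w (fZero α p J) n t y = _ from hV0, Q_iter3 hQ]
  unfold Bk R0 Lam
  rw [hbr, hd1]
  have hQd : deriv Q y = iteratedDeriv 1 Q y := by rw [iteratedDeriv_one]
  rw [hQd]
  field_simp
  ring

theorem near_iter (hQ : S_QF) (hM : S_MCL1) (hC : S_CURV) (hI : S_INNR) (hTD : S_TD) (hF : S_FS)
    (hZ : S_FZ)
    (hD : Dat α J n R P h0 h1 h2 h3 p c1 a0 ω2 ω3 e3 w) (hT : TT α θ T J n R P p w) {t y : ℝ}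
    (h : (t, y) ∈ OO α θ T) (k : ℕ) :
    iteratedDeriv k (resE α (vin α θ R P w (fZero α p J) n) t) y =
      iteratedDeriv k (Bk α (Fh α h0 h1 h2 h3 n (gZero p J)) w (rho α t) (Real.log (sig α t))) y +
        iteratedDeriv k (resE α (Fhat α (fZero α p J) n) t) y := by
  have hα0 := hD.a_pos
  have hα1 := hD.a_lt
  obtain ⟨hcf, -⟩ := Fhat_bound (n := n) hC hF hα0 hα1 (hZ α p J hα0 hα1)
  obtain ⟨hc1, hs, hl, -, -, -⟩ := hC α hα0 hα1
  have hO := OO_open (θ := θ) (T := T) hC hα0 hα1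
  have hUU := OO_sub_UU hC hα0 hα1 hT h
  have hFs := Fhat_smooth hC hα0 hα1 hcf
  have hUUo := UU_open hs hl
  have hsecO : IsOpen {z | (t, z) ∈ OO α θ T} := sec_open hO t
  have hev : resE α (vin α θ R P w (fZero α p J) n) t =ᶠ[𝓝 y] fun z =>
      Bk α (Fh α h0 h1 h2 h3 n (gZero p J)) w (rho α t) (Real.log (sig α t)) z +
        resE α (Fhat α (fZero α p J) n) t z := by
    filter_upwards [hsecO.mem_nhds h] with z hz
    exact near_eq hQ hM hC hI hTD hF hZ hD hT hz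
  have hB0 : Bk α (Fh α h0 h1 h2 h3 n (gZero p J)) w ∈ MT 0 := hM.1 0 _ (Nat.zero_le _) hD.br
  have hBs := sect_smooth hM hB0 (rho α t) (Real.log (sig α t))
  have h2s := res_smooth (α := α) (sec_open hUUo t) (sec_smooth hFs t) (dt_smooth hUUo hFs t)
  rw [hev.iteratedDeriv_eq, iteratedDeriv_fun_add]
  · exact (hBs.contDiffAt).of_le (by exact_mod_cast le_top)
  · exact ((h2s.contDiffAt ((sec_open hUUo t).mem_nhds hUU))).of_le (by exact_mod_cast le_top)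

theorem bk_bound (hM : S_MCL1) (hTD : S_TD) (hC : S_CURV)
    (hD : Dat α J n R P h0 h1 h2 h3 p c1 a0 ω2 ω3 e3 w) :
    ∃ (C : ℝ) (n1 : ℕ), 0 ≤ C ∧ ∀ t y : ℝ, 0 < t → sig α t ≤ 1 → ∀ k ≤ 1,
      (0 ≤ y → |iteratedDeriv k (Bk α (Fh α h0 h1 h2 h3 n (gZero p J)) w (rho α t)
        (Real.log (sig α t))) y| ≤ C * rho α t ^ J * Real.exp (-y / 4)) ∧
      (y ≤ 0 → |iteratedDeriv k (Bk α (Fh α h0 h1 h2 h3 n (gZero p J)) w (rho α t)
        (Real.log (sig α t))) y| ≤ C * rho α t ^ J * (1 + |y|) ^ n1) := by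
  have hα0 := hD.a_pos
  have hα1 := hD.a_lt
  obtain ⟨hc1, -⟩ := hC α hα0 hα1
  obtain ⟨-, hT2, hT3, -⟩ := hTD α hα0 hα1
  set B := Bk α (Fh α h0 h1 h2 h3 n (gZero p J)) w with hB
  have hB0 : B ∈ MT 0 := hM.1 0 _ (Nat.zero_le _) hD.br
  have hmem : ∀ k : ℕ, (dY^[k] B) ∈ MT (J + 1) := by
    intro k
    induction k with
    | zero => exact hD.br
    | succ k ih =>
      rw [Function.iterate_succ_apply']
      exact hM.2.2.2.2.2.1 _ _ ih
  have key : ∀ k : ℕ, ∃ (C : ℝ) (n1 : ℕ), 0 ≤ C ∧ ∀ t y : ℝ, 0 < t → sig α t ≤ 1 →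
      (0 ≤ y → |iteratedDeriv k (B (rho α t) (Real.log (sig α t))) y| ≤
        C * rho α t ^ J * Real.exp (-y / 4)) ∧
      (y ≤ 0 → |iteratedDeriv k (B (rho α t) (Real.log (sig α t))) y| ≤
        C * rho α t ^ J * (1 + |y|) ^ n1) := by
    intro k
    obtain ⟨C, n1, hb⟩ := hT3 (J + 1) _ (1/2) (by norm_num) (hmem k)
    refine ⟨|C|, n1, abs_nonneg _, fun t y ht hs => ?_⟩
    obtain ⟨hsig, hlam, hrho, hlsr, -⟩ := hc1 t ht
    have hr1 := rho_le_one hα0 hsig hs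
    have hpow : rho α t ^ (((J + 1 : ℕ) : ℝ) - 1/2) ≤ rho α t ^ J := by
      rw [← Real.rpow_natCast]
      apply Real.rpow_le_rpow_of_exponent_ge hrho hr1
      push_cast
      linarith
    have hpp : 0 < rho α t ^ (((J + 1 : ℕ) : ℝ) - 1/2) := Real.rpow_pos_of_pos hrho _
    rw [hT2 B (Or.inl hB0)]
    constructor
    · intro hy
      refine ((hb t y ht hs).1 hy).trans ?_
      have he : Real.exp (-(y / 2)) ≤ Real.exp (-y / 4) := Real.exp_le_exp.mpr (by linarith)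
      calc C * rho α t ^ (((J + 1 : ℕ) : ℝ) - 1/2) * Real.exp (-(y / 2))
          ≤ |C| * rho α t ^ (((J + 1 : ℕ) : ℝ) - 1/2) * Real.exp (-(y / 2)) := by
            gcongr
            exact le_abs_self C
        _ ≤ |C| * rho α t ^ J * Real.exp (-y / 4) := by gcongr
    · intro hy
      refine ((hb t y ht hs).2 hy).trans ?_
      calc C * rho α t ^ (((J + 1 : ℕ) : ℝ) - 1/2) * (1 + |y|) ^ n1
          ≤ |C| * rho α t ^ (((J + 1 : ℕ) : ℝ) - 1/2) * (1 + |y|) ^ n1 := by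
            gcongr
            exact le_abs_self C
        _ ≤ |C| * rho α t ^ J * (1 + |y|) ^ n1 := by gcongr
  obtain ⟨C0, m0, hC0, hb0⟩ := key 0
  obtain ⟨C1, m1, hC1, hb1⟩ := key 1
  refine ⟨C0 + C1, m0 + m1, by linarith, fun t y ht hs k hk => ?_⟩
  obtain ⟨hsig, hlam, hrho, hlsr, -⟩ := hc1 t ht
  have hy1 : 1 ≤ 1 + |y| := by linarith [abs_nonneg y]
  have hm0 : (1 + |y|) ^ m0 ≤ (1 + |y|) ^ (m0 + m1) := pow_le_pow_right₀ hy1 (by omega)
  have hm1 : (1 + |y|) ^ m1 ≤ (1 + |y|) ^ (m0 + m1) := pow_le_pow_right₀ hy1 (by omega)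
  have hrJ : 0 < rho α t ^ J := pow_pos hrho _
  interval_cases k
  · constructor
    · intro hy
      refine ((hb0 t y ht hs).1 hy).trans ?_
      gcongr
      linarith
    · intro hy
      refine ((hb0 t y ht hs).2 hy).trans ?_
      gcongr
      linarith
  · constructor
    · intro hy
      refine ((hb1 t y ht hs).1 hy).trans ?_
      gcongr
      linarith
    · intro hy
      refine ((hb1 t y ht hs).2 hy).trans ?_
      gcongr
      linarith

end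

end Pool.Agent.Helper42.KV.R
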